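import Pool.Agent.JMP.An

set_option autoImplicit false
set_option linter.unusedSectionVars false

/-!
# FLN: fibres of a measure preserving flow over the dyadic windows of a clock
-/

namespace Pool.FLN

open MeasureTheory Finset Pool.JMP

/-- reduction of a difference -/
lemma val_sub_mod {L ℓ : ℕ} (hℓ : ℓ ≤ L) (a : ZMod (2 ^ L)) (z : ℤ) :
    (((a - (z : ZMod (2 ^ L))).val : ℤ)) % 2 ^ ℓ = ((a.val : ℤ) - z) % 2 ^ ℓ := by
  have hN : NeZero (2 ^ L) := ⟨by positivity⟩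
  have e : a - (z : ZMod (2 ^ L)) = (((a.val : ℤ) - z : ℤ) : ZMod (2 ^ L)) := by
    push_cast
    rw [ZMod.natCast_zmod_val]
  rw [e, ZMod.val_intCast]
  have hd : (2 : ℤ) ^ ℓ ∣ ((2 ^ L : ℕ) : ℤ) := by
    push_cast
    exact pow_dvd_pow 2 hℓ
  exact Int.emod_emod_of_dvd _ hd

/-- a measure preserving flow with a clock `A` and a mark coordinate `σ` -/
structure Fl (Y : Type*) [MeasurableSpace Y] (ν : Measure Y) (L : ℕ) where
  f : ℤ → Y → Y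
  f0 : ∀ y, f 0 y = y
  fadd : ∀ m n y, f (m + n) y = f m (f n y)
  mp : ∀ n, MeasurePreserving (f n) ν ν
  A : Y → ZMod (2 ^ L)
  Am : Measurable A
  A_f : ∀ (n : ℤ) y, A (f n y) = A y - (n : ZMod (2 ^ L))
  σ : Y → ZMod (2 ^ L)
  σm : Measurable σ
  σ_f : ∀ (n : ℤ) y, σ (f n y) = σ y - (n : ZMod (2 ^ L))

namespace Fl

variable {Y : Type*} [MeasurableSpace Y] {ν : Measure Y} {L : ℕ} (P : Fl Y ν L)

/-- the address in the window of level `ℓ` -/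
def ad (ℓ : ℕ) (y : Y) : ℕ := (P.A y).val % 2 ^ ℓ

lemma ad_lt (ℓ : ℕ) (y : Y) : P.ad ℓ y < 2 ^ ℓ := Nat.mod_lt _ (by positivity)

lemma ad_f {ℓ : ℕ} (hℓ : ℓ ≤ L) (n : ℤ) (y : Y) : (P.ad ℓ (P.f n y) : ℤ) = ((P.ad ℓ y : ℤ) - n) % 2 ^ ℓ := by
  rw [ad, ad, P.A_f]
  push_cast
  rw [val_sub_mod hℓ]
  exact (Int.emod_sub_emod _ _ _).symm

/-- the point of the fibre with address `i` -/
def pt (ℓ : ℕ) (y : Y) (i : ℕ) : Y := P.f ((P.ad ℓ y : ℤ) - i) y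

lemma ad_pt {ℓ : ℕ} (hℓ : ℓ ≤ L) (y : Y) {i : ℕ} (hi : i < 2 ^ ℓ) : P.ad ℓ (P.pt ℓ y i) = i := by
  have h := P.ad_f hℓ ((P.ad ℓ y : ℤ) - i) y
  rw [sub_sub_cancel, Int.emod_eq_of_lt (by positivity) (by exact_mod_cast hi)] at h
  exact Int.natCast_inj.1 h

lemma pt_pt {ℓ : ℕ} (hℓ : ℓ ≤ L) (y : Y) {i : ℕ} (hi : i < 2 ^ ℓ) (j : ℕ) :
    P.pt ℓ (P.pt ℓ y i) j = P.pt ℓ y j := by
  have h := P.ad_pt hℓ y hi
  show P.f ((P.ad ℓ (P.pt ℓ y i) : ℤ) - j) (P.f ((P.ad ℓ y : ℤ) - i) y) = P.f ((P.ad ℓ y : ℤ) - j) y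
  rw [h, ← P.fadd]
  congr 1
  ring

lemma pt_ad (ℓ : ℕ) (y : Y) : P.pt ℓ y (P.ad ℓ y) = y := by
  rw [pt, sub_self, P.f0]

/-- address at two levels -/
lemma ad_ad {ℓ ℓ' : ℕ} (h : ℓ ≤ ℓ') (y : Y) : P.ad ℓ' y % 2 ^ ℓ = P.ad ℓ y :=
  Nat.mod_mod_of_dvd _ (pow_dvd_pow 2 h)

/-- the address at the higher level of the point with address `i` -/
def up (ℓ ℓ' : ℕ) (y : Y) (i : ℕ) : ℕ := i + 2 ^ ℓ * (P.ad ℓ' y / 2 ^ ℓ)

lemma up_lt {ℓ ℓ' : ℕ} (h : ℓ ≤ ℓ') (y : Y) {i : ℕ} (hi : i < 2 ^ ℓ) : P.up ℓ ℓ' y i < 2 ^ ℓ' := by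
  have h1 : P.ad ℓ' y / 2 ^ ℓ < 2 ^ (ℓ' - ℓ) := by
    rw [Nat.div_lt_iff_lt_mul (by positivity), ← pow_add, Nat.sub_add_cancel h]
    exact P.ad_lt ℓ' y
  have e : 2 ^ ℓ' = 2 ^ ℓ * 2 ^ (ℓ' - ℓ) := by
    rw [← pow_add, Nat.add_sub_cancel' h]
  rw [up, e]
  calc i + 2 ^ ℓ * (P.ad ℓ' y / 2 ^ ℓ) < 2 ^ ℓ + 2 ^ ℓ * (P.ad ℓ' y / 2 ^ ℓ) := by omega
    _ = 2 ^ ℓ * (P.ad ℓ' y / 2 ^ ℓ + 1) := by ring
    _ ≤ _ := Nat.mul_le_mul_left _ h1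

lemma ad_up {ℓ ℓ' : ℕ} (h : ℓ ≤ ℓ') (y : Y) (i : ℕ) :
    (P.ad ℓ' y : ℤ) - P.up ℓ ℓ' y i = (P.ad ℓ y : ℤ) - i := by
  have h1 := Nat.mod_add_div (P.ad ℓ' y) (2 ^ ℓ)
  rw [P.ad_ad h] at h1
  rw [up]
  push_cast
  have h2 : ((P.ad ℓ' y : ℕ) : ℤ) = P.ad ℓ y + 2 ^ ℓ * ((P.ad ℓ' y / 2 ^ ℓ : ℕ) : ℤ) := by
    exact_mod_cast h1.symm
  push_cast at h2
  linarith

lemma pt_up {ℓ ℓ' : ℕ} (h : ℓ ≤ ℓ') (y : Y) (i : ℕ) : P.pt ℓ' y (P.up ℓ ℓ' y i) = P.pt ℓ y i := by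
  rw [pt, pt, P.ad_up h]

/-- average over the fibre -/
noncomputable def PP (ℓ : ℕ) (F : Y → ℝ) (y : Y) : ℝ := ((2 : ℝ) ^ ℓ)⁻¹ * ∑ i ∈ range (2 ^ ℓ), F (P.pt ℓ y i)

/-- constant on the fibres -/
def Inv {α : Sort*} (ℓ : ℕ) (Q : Y → α) : Prop := ∀ y, ∀ i < 2 ^ ℓ, Q (P.pt ℓ y i) = Q y

variable {P}

lemma Inv.le {α : Sort*} {ℓ ℓ' : ℕ} (h : ℓ ≤ ℓ') {Q : Y → α} (hQ : P.Inv ℓ' Q) : P.Inv ℓ Q := by
  intro y i hi
  rw [← P.pt_up h y i]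
  exact hQ y _ (P.up_lt h y hi)

lemma Inv.comp {α β : Sort*} {ℓ : ℕ} {Q : Y → α} (hQ : P.Inv ℓ Q) (g : α → β) : P.Inv ℓ (fun y => g (Q y)) :=
  fun y i hi => congrArg g (hQ y i hi)

lemma Inv.comp2 {α β γ : Sort*} {ℓ : ℕ} {Q : Y → α} {Q' : Y → β} (hQ : P.Inv ℓ Q) (hQ' : P.Inv ℓ Q') (g : α → β → γ) :
    P.Inv ℓ (fun y => g (Q y) (Q' y)) := fun y i hi => by
  show g (Q (P.pt ℓ y i)) (Q' (P.pt ℓ y i)) = _
  rw [hQ y i hi, hQ' y i hi]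

variable (P)

lemma inv_PP {ℓ : ℕ} (hℓ : ℓ ≤ L) (F : Y → ℝ) : P.Inv ℓ (P.PP ℓ F) := by
  intro y i hi
  show ((2 : ℝ) ^ ℓ)⁻¹ * ∑ j ∈ range (2 ^ ℓ), F (P.pt ℓ (P.pt ℓ y i) j) = ((2 : ℝ) ^ ℓ)⁻¹ * ∑ j ∈ range (2 ^ ℓ), F (P.pt ℓ y j)
  simp only [P.pt_pt hℓ y hi]

lemma PP_mul {ℓ : ℕ} {Q : Y → ℝ} (hQ : P.Inv ℓ Q) (F : Y → ℝ) (y : Y) :
    P.PP ℓ (fun y => Q y * F y) y = Q y * P.PP ℓ F y := by
  show ((2 : ℝ) ^ ℓ)⁻¹ * ∑ i ∈ range (2 ^ ℓ), Q (P.pt ℓ y i) * F (P.pt ℓ y i) =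
    Q y * (((2 : ℝ) ^ ℓ)⁻¹ * ∑ i ∈ range (2 ^ ℓ), F (P.pt ℓ y i))
  rw [mul_left_comm, mul_sum (a := Q y)]
  exact congrArg _ (sum_congr rfl fun i hi => by rw [hQ y i (mem_range.1 hi)])

lemma PP_mono {ℓ : ℕ} {F F' : Y → ℝ} (h : ∀ y, F y ≤ F' y) (y : Y) : P.PP ℓ F y ≤ P.PP ℓ F' y :=
  mul_le_mul_of_nonneg_left (sum_le_sum fun _ _ => h _) (by positivity)

lemma PP_nonneg {ℓ : ℕ} {F : Y → ℝ} (h : ∀ y, 0 ≤ F y) (y : Y) : 0 ≤ P.PP ℓ F y :=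
  mul_nonneg (by positivity) (sum_nonneg fun _ _ => h _)

lemma PP_const (ℓ : ℕ) (c : ℝ) (y : Y) : P.PP ℓ (fun _ => c) y = c := by
  rw [PP, sum_const, card_range, nsmul_eq_mul]
  push_cast
  rw [inv_mul_cancel_left₀ (by positivity)]

lemma ad_meas (ℓ : ℕ) : Measurable (P.ad ℓ) := by
  have h : Measurable fun a : ZMod (2 ^ L) => a.val % 2 ^ ℓ := measurable_of_countable _
  exact h.comp P.Am

/-- evaluation along a measurable time -/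
lemma eval_meas {β : Type*} [MeasurableSpace β] {F : ℤ → Y → β} (hF : ∀ n, Measurable (F n)) {k : Y → ℤ}
    (hk : Measurable k) : Measurable fun y => F (k y) y := by
  have h : Measurable fun p : ℤ × Y => F p.1 p.2 := measurable_from_prod_countable_right hF
  exact h.comp (hk.prodMk measurable_id)

lemma int_meas {k : Y → ℕ} (hk : Measurable k) : Measurable fun y => (k y : ℤ) :=
  (measurable_of_countable fun n : ℕ => (n : ℤ)).comp hk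

lemma pt_meas (ℓ i : ℕ) : Measurable fun y => P.pt ℓ y i :=
  eval_meas (F := fun n y => P.f n y) (fun n => (P.mp n).measurable) ((int_meas (P.ad_meas ℓ)).sub_const _)

lemma PP_meas (ℓ : ℕ) {F : Y → ℝ} (hF : Measurable F) : Measurable (P.PP ℓ F) :=
  (Finset.measurable_sum _ fun i _ => hF.comp (P.pt_meas ℓ i)).const_mul _

lemma PP_abs (ℓ : ℕ) {F : Y → ℝ} {C : ℝ} (h : ∀ y, |F y| ≤ C) (y : Y) : |P.PP ℓ F y| ≤ C := by
  rw [PP, abs_mul, abs_of_pos (by positivity : (0 : ℝ) < ((2 : ℝ) ^ ℓ)⁻¹)]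
  have h1 : |∑ i ∈ range (2 ^ ℓ), F (P.pt ℓ y i)| ≤ 2 ^ ℓ * C := by
    refine (abs_sum_le_sum_abs _ _).trans ((sum_le_sum fun i _ => h _).trans (le_of_eq ?_))
    rw [sum_const, card_range, nsmul_eq_mul]
    push_cast
    rfl
  calc ((2 : ℝ) ^ ℓ)⁻¹ * |∑ i ∈ range (2 ^ ℓ), F (P.pt ℓ y i)| ≤ ((2 : ℝ) ^ ℓ)⁻¹ * (2 ^ ℓ * C) :=
        mul_le_mul_of_nonneg_left h1 (by positivity)
    _ = C := inv_mul_cancel_left₀ (by positivity) C

variable [IsProbabilityMeasure ν]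

/-- **conditional expectation**: the integral of the fibre average -/
lemma int_PP {ℓ : ℕ} (hℓ : ℓ ≤ L) {F : Y → ℝ} (hF : Measurable F) {C : ℝ} (hC : ∀ y, |F y| ≤ C) :
    ∫ y, P.PP ℓ F y ∂ν = ∫ y, F y ∂ν := by
  have hi : ∀ i : ℕ, MeasurableSet {y | P.ad ℓ y = i} := fun i => (P.ad_meas ℓ) (measurableSet_singleton i)
  have hC0 : 0 ≤ C := by
    obtain ⟨x⟩ : Nonempty Y := nonempty_of_isProbabilityMeasure ν
    exact (abs_nonneg _).trans (hC x)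
  set ind : ℕ → Y → ℝ := fun i y => if P.ad ℓ y = i then 1 else 0 with hind
  have indm : ∀ i, Measurable (ind i) := fun i => Measurable.ite (hi i) measurable_const measurable_const
  have indb : ∀ i y, |ind i y| ≤ 1 := fun i y => by
    rw [hind]
    simp only
    split_ifs <;> simp
  have hint : ∀ (i : ℕ) (n : ℤ), Integrable (fun y => ind i y * F (P.f n y)) ν := fun i n =>
    intg (C := C) ((indm i).mul (hF.comp (P.mp n).measurable)) fun y => by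
      rw [abs_mul]
      calc |ind i y| * |F (P.f n y)| ≤ 1 * C := mul_le_mul (indb i y) (hC _) (abs_nonneg _) (by norm_num)
        _ = C := one_mul C
  have hint0 : ∀ i : ℕ, Integrable (fun y => ind i y * F y) ν := fun i =>
    intg (C := C) ((indm i).mul hF) fun y => by
      rw [abs_mul]
      calc |ind i y| * |F y| ≤ 1 * C := mul_le_mul (indb i y) (hC _) (abs_nonneg _) (by norm_num)
        _ = C := one_mul C
  have hsum : ∀ (y : Y) (G : ℕ → ℝ), ∑ a ∈ range (2 ^ ℓ), ind a y * G a = G (P.ad ℓ y) := by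
    intro y G
    have e : ∀ a, ind a y * G a = if P.ad ℓ y = a then G a else 0 := by
      intro a
      rw [hind]
      simp only
      split_ifs <;> simp
    simp only [e]
    rw [sum_ite_eq, if_pos (mem_range.2 (P.ad_lt ℓ y))]
  -- one term
  have h1 : ∀ i : ℕ, i < 2 ^ ℓ → ∀ a : ℕ, a < 2 ^ ℓ → ∫ y, ind a y * F (P.f ((a : ℤ) - i) y) ∂ν = ∫ y, ind i y * F y ∂ν := by
    intro i hi a ha
    have e : ∀ y, ind a y * F (P.f ((a : ℤ) - i) y) =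
        (fun z => ind i z * F z) (P.f ((a : ℤ) - i) y) := by
      intro y
      simp only [hind]
      have h2 := P.ad_f hℓ ((a : ℤ) - i) y
      have h3 : P.ad ℓ y = a ↔ P.ad ℓ (P.f ((a : ℤ) - i) y) = i := by
        have hy := P.ad_lt ℓ y
        have hy' : (P.ad ℓ y : ℤ) < 2 ^ ℓ := by exact_mod_cast hy
        have hi' : (i : ℤ) < 2 ^ ℓ := by exact_mod_cast hi
        have ha' : (a : ℤ) < 2 ^ ℓ := by exact_mod_cast ha
        constructor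
        · intro h4
          rw [h4] at h2
          have h5 : ((a : ℤ) - ((a : ℤ) - i)) % 2 ^ ℓ = i := by
            rw [sub_sub_cancel]
            exact Int.emod_eq_of_lt (by positivity) hi'
          rw [h5] at h2
          exact_mod_cast h2
        · intro h4
          rw [h4] at h2
          have h5 : ((2 : ℤ) ^ ℓ) ∣ ((P.ad ℓ y : ℤ) - a) := by
            have h6 : (2 : ℤ) ^ ℓ ∣ ((P.ad ℓ y : ℤ) - ((a : ℤ) - i)) - ((P.ad ℓ y : ℤ) - ((a : ℤ) - i)) % 2 ^ ℓ :=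
              Int.dvd_self_sub_emod
            rw [← h2] at h6
            have e2 : (P.ad ℓ y : ℤ) - ((a : ℤ) - i) - i = (P.ad ℓ y : ℤ) - a := by ring
            rwa [e2] at h6
          obtain ⟨q, hq⟩ := h5
          have hq0 : q = 0 := by
            by_contra hne
            rcases lt_or_gt_of_ne hne with h7 | h7
            · have : (2 : ℤ) ^ ℓ * q ≤ (2 : ℤ) ^ ℓ * (-1) := mul_le_mul_of_nonneg_left (by omega) (by positivity)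
              have hy0 : (0 : ℤ) ≤ P.ad ℓ y := by positivity
              linarith
            · have : (2 : ℤ) ^ ℓ * 1 ≤ (2 : ℤ) ^ ℓ * q := mul_le_mul_of_nonneg_left (by omega) (by positivity)
              have ha0 : (0 : ℤ) ≤ a := by positivity
              linarith
          rw [hq0, mul_zero] at hq
          have : (P.ad ℓ y : ℤ) = a := by linarith
          exact_mod_cast this
      by_cases h4 : P.ad ℓ y = a
      · rw [if_pos h4, if_pos (h3.1 h4)]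
      · rw [if_neg h4, if_neg (fun h => h4 (h3.2 h))]
    simp only [e]
    have h2 := (P.mp ((a : ℤ) - i)).integral_comp' (f := ⟨⟨P.f ((a : ℤ) - i), P.f (-((a : ℤ) - i)), fun y => by
      rw [← P.fadd, neg_add_cancel, P.f0], fun y => by rw [← P.fadd, add_neg_cancel, P.f0]⟩,
      (P.mp _).measurable, (P.mp _).measurable⟩) (fun z => ind i z * F z)
    exact h2
  have h2 : ∀ i : ℕ, i < 2 ^ ℓ → ∫ y, F (P.pt ℓ y i) ∂ν = 2 ^ ℓ * ∫ y, ind i y * F y ∂ν := by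
    intro i hi
    have e : ∀ y, F (P.pt ℓ y i) = ∑ a ∈ range (2 ^ ℓ), ind a y * F (P.f ((a : ℤ) - i) y) := by
      intro y
      rw [hsum y (fun a => F (P.f ((a : ℤ) - i) y))]
      rfl
    simp only [e]
    rw [integral_finsetSum _ fun a _ => hint a _, sum_congr rfl fun a ha => h1 i hi a (mem_range.1 ha), sum_const,
      card_range, nsmul_eq_mul]
    push_cast
    rfl
  have hFi : ∀ i, Integrable (fun y => F (P.pt ℓ y i)) ν := fun i => intg (hF.comp (P.pt_meas ℓ i)) fun y => hC _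
  have e3 : ∫ y, P.PP ℓ F y ∂ν = ((2 : ℝ) ^ ℓ)⁻¹ * ∑ i ∈ range (2 ^ ℓ), ∫ y, F (P.pt ℓ y i) ∂ν := by
    simp only [PP]
    rw [integral_const_mul, integral_finsetSum _ fun i _ => hFi i]
  rw [e3, sum_congr rfl fun i hi => h2 i (mem_range.1 hi), ← mul_sum, inv_mul_cancel_left₀ (by positivity),
    ← integral_finsetSum _ fun i _ => hint0 i]
  refine integral_congr_ae (Filter.Eventually.of_forall fun y => ?_)
  exact hsum y (fun _ => F y)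

lemma int_mul_PP {ℓ : ℕ} (hℓ : ℓ ≤ L) {Q F : Y → ℝ} (hQ : P.Inv ℓ Q) (hQm : Measurable Q) (hF : Measurable F)
    {C C' : ℝ} (hC : ∀ y, |F y| ≤ C) (hC' : ∀ y, |Q y| ≤ C') :
    ∫ y, Q y * P.PP ℓ F y ∂ν = ∫ y, Q y * F y ∂ν := by
  rw [← P.int_PP hℓ (F := fun y => Q y * F y) (hQm.mul hF) (C := C' * C) (fun y => by
    rw [abs_mul]
    exact mul_le_mul (hC' y) (hC y) (abs_nonneg _) ((abs_nonneg _).trans (hC' y)))]
  exact integral_congr_ae (Filter.Eventually.of_forall fun y => (P.PP_mul hQ F y).symm)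

end Fl

end Pool.FLN
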