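import Pool.Agent.FLN.Tra

set_option autoImplicit false
set_option linter.unusedSectionVars false

/-!
# FLN: complex functions, final form
-/

namespace Pool.FLN

open MeasureTheory Finset Pool.JMP Pool.FLU Pool.Agent.PWZ Pool.PWZ Pool.PWM
open scoped ENNReal

/-- the averages of the problem, linear sequences -/
noncomputable def avg {X : Type*} {m : ℕ} (T : Fin m → Equiv.Perm X) (f : Fin m → X → ℂ) (N : ℕ) (x : X) : ℂ :=
  ((2 * N + 1 : ℕ) : ℂ)⁻¹ * ∑ n ∈ Icc (-(N : ℤ)) (N : ℤ), ∏ j : Fin m, f j ((T j ^ n) x)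

lemma prod_expand {m : ℕ} (z : Fin m → ℂ) : ∏ j, z j = ∑ b : Fin m → Bool, (∏ j, if b j then Complex.I else 1) *
    ((∏ j, if b j then (z j).im else (z j).re : ℝ) : ℂ) := by
  have h1 : ∀ j, z j = ∑ b : Bool, (if b then Complex.I else 1) * ((if b then (z j).im else (z j).re : ℝ) : ℂ) := by
    intro j
    rw [Fintype.sum_bool]
    simp only [if_true, Bool.false_eq_true, if_false, one_mul]
    rw [add_comm, mul_comm]
    exact (Complex.re_add_im (z j)).symm
  calc ∏ j, z j = ∏ j, ∑ b : Bool, (if b then Complex.I else 1) * ((if b then (z j).im else (z j).re : ℝ) : ℂ) :=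
        prod_congr rfl fun j _ => h1 j
    _ = ∑ b : Fin m → Bool, ∏ j, (if b j then Complex.I else 1) * ((if b j then (z j).im else (z j).re : ℝ) : ℂ) := by
        rw [prod_univ_sum, Fintype.piFinset_univ]
    _ = _ := by
        refine sum_congr rfl fun b _ => ?_
        rw [prod_mul_distrib]
        push_cast
        rfl

/-- the real sequences -/
noncomputable def phb {X : Type*} {m : ℕ} (T : Fin m → Equiv.Perm X) (f : Fin m → X → ℂ) (b : Fin m → Bool) (x : X) (n : ℤ) : ℝ :=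
  ∏ j, if b j then (f j ((T j ^ n) x)).im else (f j ((T j ^ n) x)).re

lemma avg_expand {X : Type*} {m : ℕ} (T : Fin m → Equiv.Perm X) (f : Fin m → X → ℂ) (N : ℕ) (x : X) :
    avg T f N x = ∑ b : Fin m → Bool, (∏ j, if b j then Complex.I else 1) * ((av (phb T f b x) N : ℝ) : ℂ) := by
  rw [avg]
  have h1 : ∀ n : ℤ, ∏ j : Fin m, f j ((T j ^ n) x) = ∑ b : Fin m → Bool, (∏ j, if b j then Complex.I else 1) *
      ((phb T f b x n : ℝ) : ℂ) := fun n => prod_expand _
  rw [sum_congr rfl fun n _ => h1 n, sum_comm, mul_sum]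
  refine sum_congr rfl fun b _ => ?_
  rw [← mul_sum, av]
  push_cast
  ring

lemma norm_sub_le_sum {X : Type*} {m : ℕ} (T : Fin m → Equiv.Perm X) (f : Fin m → X → ℂ) (N M : ℕ) (x : X) :
    ‖avg T f N x - avg T f M x‖ ≤ ∑ b : Fin m → Bool, ‖av (phb T f b x) N - av (phb T f b x) M‖ := by
  rw [avg_expand, avg_expand, ← sum_sub_distrib]
  refine (norm_sum_le _ _).trans (sum_le_sum fun b _ => ?_)
  rw [← mul_sub, norm_mul, norm_prod, ← Complex.ofReal_sub, Complex.norm_real]
  have h1 : ∏ j, ‖if b j then Complex.I else 1‖ = 1 := by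
    refine prod_eq_one fun j _ => ?_
    split_ifs <;> simp
  rw [h1, one_mul]

lemma hasFl_of_jumps {a : ℕ → ℂ} {ε : ℝ} {F : Finset ℕ} (hF : F.Nonempty) {J : ℕ} (hJ : J ≤ jumps a ε F) :
    HasFl a F ε J := by
  obtain ⟨M, h1, h2, h3⟩ := (le_jumps_iff hF).1 hJ
  have hmono : ∀ i j, i < j → j ≤ J → M i < M j := by
    intro i j hij
    induction j, hij using Nat.le_induction with
    | base => exact fun hj => h2 i hj
    | succ j hj ih => exact fun hj' => (ih (Nat.le_of_succ_le hj')).trans (h2 j hj')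
  have hinj : Set.InjOn (fun i => (M i, M (i + 1))) (range J : Set ℕ) := by
    intro i hi j hj h
    rw [coe_range, Set.mem_Iio] at hi hj
    have h4 := congrArg Prod.fst h
    simp only at h4
    rcases lt_trichotomy i j with h5 | h5 | h5
    · have := hmono i j h5 hj.le
      omega
    · exact h5
    · have := hmono j i h5 hi.le
      omega
  refine ⟨(range J).image fun i => (M i, M (i + 1)), ?_, ?_, ?_⟩
  · rw [card_image_of_injOn hinj, card_range]
  · intro p hp
    obtain ⟨i, hi, rfl⟩ := mem_image.1 hp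
    rw [mem_range] at hi
    refine ⟨h1 i hi.le, h1 (i + 1) hi, h2 i hi, ?_⟩
    rw [norm_sub_rev]
    exact h3 i hi
  · intro p hp q hq hne
    obtain ⟨i, hi, rfl⟩ := mem_image.1 hp
    obtain ⟨j, hj, rfl⟩ := mem_image.1 hq
    rw [mem_range] at hi hj
    rcases lt_trichotomy i j with h5 | h5 | h5
    · left
      show M (i + 1) ≤ M j
      rcases Nat.lt_or_ge (i + 1) j with h6 | h6
      · exact (hmono _ _ h6 hj.le).le
      · have : i + 1 = j := by omega
        rw [this]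
    · exact absurd (by rw [h5]) hne
    · right
      show M (j + 1) ≤ M i
      rcases Nat.lt_or_ge (j + 1) i with h6 | h6
      · exact (hmono _ _ h6 hi.le).le
      · have : j + 1 = i := by omega
        rw [this]

lemma jumps_mono_eps {a : ℕ → ℂ} {ε ε' : ℝ} (h : ε' ≤ ε) {F : Finset ℕ} (hF : F.Nonempty) :
    jumps a ε F ≤ jumps a ε' F := by
  obtain ⟨M, h1, h2, h3⟩ := exists_chain a ε hF
  exact le_jumps h1 h2 fun i hi => h.trans (h3 i hi)

lemma jumps_mono_F {a : ℕ → ℂ} {ε : ℝ} {F F' : Finset ℕ} (h : F ⊆ F') (hF : F.Nonempty) :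
    jumps a ε F ≤ jumps a ε F' := by
  obtain ⟨M, h1, h2, h3⟩ := exists_chain a ε hF
  exact le_jumps (fun i hi => h (h1 i hi)) h2 h3

lemma jumps_smul {a : ℕ → ℂ} {c : ℂ} {B ε : ℝ} (hB : 0 < B) (hc : ‖c‖ ≤ B) {F : Finset ℕ} (hF : F.Nonempty) :
    jumps (fun N => c * a N) ε F ≤ jumps a (ε / B) F := by
  obtain ⟨M, h1, h2, h3⟩ := exists_chain (fun N => c * a N) ε hF
  refine le_jumps h1 h2 fun i hi => ?_
  have h4 := h3 i hi
  rw [← mul_sub, norm_mul] at h4
  rw [div_le_iff₀ hB, mul_comm]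
  exact h4.trans (mul_le_mul_of_nonneg_right hc (norm_nonneg _))

/-- the numbers of the complex version -/
lemma num_cplx (m C : ℕ) {k : ℕ} {ε δ : ℝ} (h : Par k ε δ) :
    (2 : ℝ) ^ m * (Yy k (ε / 2 ^ m) (δ / 2 ^ m) ^ C + 1) < Yy k ε δ ^ (m + 2 + (2 * m + 1) * C) := by
  have hY := Yy_two h
  obtain ⟨hk, hε, hε1, hδ, hδ1⟩ := h
  set Y := Yy k ε δ with hYdef
  have h2m : (2 : ℝ) ^ m ≤ Y ^ m := pow_le_pow_left₀ (by norm_num) hY m
  have h1m : (1 : ℝ) + m ≤ Y ^ m := by
    refine le_trans ?_ h2m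
    have := one_add_mul_le_pow (a := (1 : ℝ)) (by norm_num) m
    norm_num at this
    linarith
  have hY0 : 0 < Y := by linarith
  have hlogk : 0 ≤ Real.log k := Real.log_natCast_nonneg k
  have hlogd : 0 ≤ Real.log (1 / δ) := Real.log_nonneg (by rw [le_div_iff₀ hδ]; linarith)
  have hnum : 0 < 2 + Real.log k + Real.log (1 / δ) := by linarith
  have e1 : Yy k (ε / 2 ^ m) (δ / 2 ^ m) = 2 ^ m * ((2 + Real.log k + Real.log (1 / δ) + m * Real.log 2) / ε) := by
    rw [Yy]
    have e2 : Real.log (1 / (δ / 2 ^ m)) = Real.log (1 / δ) + m * Real.log 2 := by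
      rw [one_div_div, Real.log_div (by positivity) hδ.ne', Real.log_pow, Real.log_div one_ne_zero hδ.ne', Real.log_one]
      ring
    rw [e2]
    field_simp
    ring
  have h3 : (2 + Real.log k + Real.log (1 / δ) + m * Real.log 2) / ε ≤ (1 + m) * Y := by
    rw [hYdef, Yy, ← mul_div_assoc]
    refine div_le_div_of_nonneg_right ?_ hε.le
    have h4 : Real.log 2 ≤ 1 := by
      have := Real.log_two_lt_d9
      linarith
    have h5 : (m : ℝ) * Real.log 2 ≤ m * (2 + Real.log k + Real.log (1 / δ)) :=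
      mul_le_mul_of_nonneg_left (by linarith) (Nat.cast_nonneg m)
    linarith
  have hpos' : 0 ≤ (2 + Real.log k + Real.log (1 / δ) + m * Real.log 2) / ε := by
    have : 0 ≤ (m : ℝ) * Real.log 2 := mul_nonneg (Nat.cast_nonneg m) (Real.log_nonneg (by norm_num))
    exact div_nonneg (by linarith) hε.le
  have h6 : Yy k (ε / 2 ^ m) (δ / 2 ^ m) ≤ Y ^ (2 * m + 1) := by
    rw [e1]
    calc 2 ^ m * ((2 + Real.log k + Real.log (1 / δ) + m * Real.log 2) / ε) ≤ Y ^ m * ((1 + m) * Y) :=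
          mul_le_mul h2m h3 hpos' (by positivity)
      _ ≤ Y ^ m * (Y ^ m * Y) := by
          refine mul_le_mul_of_nonneg_left (mul_le_mul_of_nonneg_right h1m hY0.le) (by positivity)
      _ = Y ^ (2 * m + 1) := by ring
  have h7 : 0 ≤ Yy k (ε / 2 ^ m) (δ / 2 ^ m) := by
    rw [e1]
    positivity
  have h8 : Yy k (ε / 2 ^ m) (δ / 2 ^ m) ^ C ≤ Y ^ ((2 * m + 1) * C) := by
    rw [pow_mul]
    exact pow_le_pow_left₀ h7 h6 C
  have h9 : (1 : ℝ) ≤ Y ^ ((2 * m + 1) * C) := one_le_pow₀ (by linarith)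
  have h10 : (0 : ℝ) < Y ^ ((2 * m + 1) * C) := by positivity
  calc (2 : ℝ) ^ m * (Yy k (ε / 2 ^ m) (δ / 2 ^ m) ^ C + 1) ≤ Y ^ m * (2 * Y ^ ((2 * m + 1) * C)) := by
        refine mul_le_mul h2m (by linarith) (by positivity) (by positivity)
    _ ≤ Y ^ m * (Y * Y ^ ((2 * m + 1) * C)) := by
        refine mul_le_mul_of_nonneg_left (mul_le_mul_of_nonneg_right hY h10.le) (by positivity)
    _ < Y ^ m * (Y ^ 2 * Y ^ ((2 * m + 1) * C)) := by
        refine mul_lt_mul_of_pos_left (mul_lt_mul_of_pos_right ?_ h10) (by positivity)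
        nlinarith
    _ = _ := by ring

universe u

/-- measurable functions with norm at most one -/
theorem cplx_tail (k m : ℕ) : ∃ C : ℕ, ∀ (X : Type u) [MeasurableSpace X] (μ : Measure X)
    [IsProbabilityMeasure μ] (T : Fin m → Equiv.Perm X), (∀ i, Measurable ⇑(T i).symm) →
    (∀ i, MeasurePreserving (⇑(T i)) μ μ) → Group.IsNilpotent (Subgroup.closure (Set.range T)) →
    Group.nilpotencyClass (Subgroup.closure (Set.range T)) ≤ k → ∀ f : Fin m → X → ℂ, (∀ j, Measurable (f j)) →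
      (∀ j x, ‖f j x‖ ≤ 1) → ∀ ε δ : ℝ, 0 < ε → ε ≤ 1 → 0 < δ → δ ≤ 1 → ∀ F : Finset ℕ, F.Nonempty → (∀ n ∈ F, 1 ≤ n) →
        μ.real {x | ((2 + Real.log (scales F) + Real.log (1 / δ)) / ε) ^ C ≤ (jumps (fun N => avg T f N x) ε F : ℝ)} ≤ δ := by
  classical
  obtain ⟨C, hC⟩ := real_tail.{u} k m
  refine ⟨m + 2 + (2 * m + 1) * C, ?_⟩
  intro X _ μ _ T hs hT hnil hk f hf hf1 ε δ hε hε1 hδ hδ1 F hF0 hF
  set H := Subgroup.closure (Set.range T) with hH
  have hMP : H ≤ MP μ := closure_le_MP hs hT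
  have : MeasurableConstSMul H X := ⟨fun a => (hMP a.2).1.measurable⟩
  have : SMulInvariantMeasure H X μ := ⟨fun a s hs => (hMP a.2).1.measure_preimage hs.nullMeasurableSet⟩
  set V : Fin m → H := fun i => ⟨T i, Subgroup.subset_closure ⟨i, rfl⟩⟩ with hV
  have hs1 : 1 ≤ scales F := by
    rw [scales, Nat.succ_le_iff, card_pos]
    exact hF0.image _
  have hpar : Par (scales F) ε δ := ⟨hs1, hε, hε1, hδ, hδ1⟩
  have h2m : (0 : ℝ) < 2 ^ m := by positivity
  have h2m1 : (1 : ℝ) ≤ 2 ^ m := one_le_pow₀ (by norm_num)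
  have hpar' : Par (scales F) (ε / 2 ^ m) (δ / 2 ^ m) :=
    ⟨hs1, by positivity, (div_le_one h2m).2 (by linarith), by positivity, (div_le_one h2m).2 (by linarith)⟩
  set K := ⌈Yy (scales F) (ε / 2 ^ m) (δ / 2 ^ m) ^ C⌉₊ with hK
  have hK1 : Yy (scales F) (ε / 2 ^ m) (δ / 2 ^ m) ^ C ≤ K := Nat.le_ceil _
  have hY0 : 0 ≤ Yy (scales F) (ε / 2 ^ m) (δ / 2 ^ m) ^ C := pow_nonneg (by linarith [Yy_two hpar']) C
  have hK2 : (K : ℝ) < Yy (scales F) (ε / 2 ^ m) (δ / 2 ^ m) ^ C + 1 := Nat.ceil_lt_add_one hY0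
  have hnum := num_cplx m C hpar
  have hreal : ∀ b : Fin m → Bool, μ.real {x | HasFl (fun N => av (phb T f b x) N) F (ε / 2 ^ m) K} ≤ δ / 2 ^ m := by
    intro b
    have h1 := hC H hnil hk X μ V (fun j x => if b j then (f j x).im else (f j x).re) (fun j => ?_) (scales F) (ε / 2 ^ m)
      (δ / 2 ^ m) K hpar' hK1 F hF le_rfl
    · exact h1
    · by_cases hb : b j = true
      · simp only [hb, if_true]
        exact ⟨Complex.measurable_im.comp (hf j), fun x => (Complex.abs_im_le_norm _).trans (hf1 j x)⟩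
      · simp only [hb]
        exact ⟨Complex.measurable_re.comp (hf j), fun x => (Complex.abs_re_le_norm _).trans (hf1 j x)⟩
  have hsub : {x | ((2 + Real.log (scales F) + Real.log (1 / δ)) / ε) ^ (m + 2 + (2 * m + 1) * C) ≤
      (jumps (fun N => avg T f N x) ε F : ℝ)} ⊆
      ⋃ b ∈ (univ : Finset (Fin m → Bool)), {x | HasFl (fun N => av (phb T f b x) N) F (ε / 2 ^ m) K} := by
    intro x hx
    by_contra hcon
    have hcon' : ∀ b : Fin m → Bool, ¬ HasFl (fun N => av (phb T f b x) N) F (ε / 2 ^ m) K := fun b hb =>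
      hcon (Set.mem_biUnion (mem_coe.2 (mem_univ b)) hb)
    have h1 := fl_cut (ε := ε) (S := F) (a := fun N => avg T f N x) (∅ : Finset ℕ) (univ : Finset (Fin m → Bool))
      (fun b N => av (phb T f b x) N) (ε / 2 ^ m) K (fun u _ v _ _ _ hd => by
        by_contra hc
        push Not at hc
        have h2 := norm_sub_le_sum T f u v x
        have h3 : ∑ b : Fin m → Bool, ‖av (phb T f b x) u - av (phb T f b x) v‖ < ∑ _b : Fin m → Bool, ε / 2 ^ m :=
          sum_lt_sum_of_nonempty univ_nonempty fun b _ => hc b (mem_univ b)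
        rw [sum_const, card_univ, Fintype.card_fun, Fintype.card_bool, Fintype.card_fin, nsmul_eq_mul] at h3
        push_cast at h3
        rw [mul_div_cancel₀ _ h2m.ne'] at h3
        linarith) (fun b _ => hcon' b) (hasFl_of_jumps hF0 le_rfl)
    rw [card_empty, zero_add, card_univ, Fintype.card_fun, Fintype.card_bool, Fintype.card_fin] at h1
    have h2 : (jumps (fun N => avg T f N x) ε F : ℝ) ≤ 2 ^ m * K := by exact_mod_cast h1
    have h3 : (2 : ℝ) ^ m * K ≤ 2 ^ m * (Yy (scales F) (ε / 2 ^ m) (δ / 2 ^ m) ^ C + 1) :=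
      mul_le_mul_of_nonneg_left hK2.le h2m.le
    have h4 : Yy (scales F) ε δ ^ (m + 2 + (2 * m + 1) * C) ≤ (jumps (fun N => avg T f N x) ε F : ℝ) := hx
    linarith
  refine (measureReal_mono hsub (measure_ne_top _ _)).trans ((measureReal_biUnion_finset_le _ _).trans ?_)
  refine (sum_le_sum fun b _ => hreal b).trans (le_of_eq ?_)
  rw [sum_const, card_univ, Fintype.card_fun, Fintype.card_bool, Fintype.card_fin, nsmul_eq_mul]
  push_cast
  exact mul_div_cancel₀ _ h2m.ne'

end Pool.FLN
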