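import Pool.Agent.FLN.Step

set_option autoImplicit false
set_option linter.unusedSectionVars false

/-!
# FLN: the induction over the tree
-/

namespace Pool.FLN

open MeasureTheory Finset Pool.JMP Pool.FLU

/-- the exponents -/
noncomputable def Ce : ℕ → ℕ
  | 0 => 0
  | c + 1 => (step_num (Ce c)).choose

variable {G X : Type*} [Group G] [MulAction G X] [MeasurableSpace X]
variable [MeasurableConstSMul G X] {μ : Measure X} [IsProbabilityMeasure μ] [SMulInvariantMeasure G X μ]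
variable {χ : G →* Multiplicative ℤ} {L : ℕ}

lemma no_fl_const (a : ℝ) {Λ : Finset ℕ} {ε : ℝ} (hε : 0 < ε) {J : ℕ} (hJ : 1 ≤ J) : ¬ HasFl (fun _ => a) Λ ε J := by
  rintro ⟨P, h1, h2, _⟩
  obtain ⟨p, hp⟩ : P.Nonempty := card_pos.1 (by omega)
  have h3 := (h2 p hp).2.2.2
  rw [sub_self, norm_zero] at h3
  linarith

theorem fl_CL (κ : Clk X χ L) {c : ℕ} {L' : List (ℤ → G)} (hC : CL χ c L') :
    ∀ (Φ : ℤ → X → ℝ), IsP L' Φ → ∀ (k : ℕ) (ε δ : ℝ) (J : ℕ), Par k ε δ → Yy k ε δ ^ Ce c ≤ J →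
      ∀ Λ : Finset ℕ, Λ.card ≤ k → (∀ ℓ ∈ Λ, ℓ ≤ L) → μ.real {x | HasFl (fun ℓ => TL κ.τ Φ ℓ x) Λ ε J} ≤ δ := by
  induction hC with
  | @base c =>
    intro Φ hΦ k ε δ J hpar hJ Λ _ _
    obtain ⟨u, hu, e⟩ := hΦ
    have hJ1 : 1 ≤ J := by
      have h1 : (1 : ℝ) ≤ Yy k ε δ ^ Ce c := one_le_pow₀ (by linarith [Yy_two hpar])
      exact_mod_cast h1.trans hJ
    have h2 : {x | HasFl (fun ℓ => TL κ.τ Φ ℓ x) Λ ε J} = ∅ := by
      ext x
      simp only [Set.mem_ofPred_eq, Set.mem_empty_iff_false, iff_false]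
      intro h
      refine no_fl_const (u x) hpar.2.1 hJ1 (h.congr fun ℓ _ => ?_)
      rw [TL, sum_congr rfl fun i _ => e _ x, sum_const, card_range, nsmul_eq_mul]
      push_cast
      rw [inv_mul_cancel_left₀ (by positivity)]
    rw [h2, measureReal_empty]
    exact hpar.2.2.2.1.le
  | emb h _ ih =>
    intro Φ hΦ
    exact ih Φ (IsP.emb h hΦ)
  | @step c V M hV _ ih =>
    intro Φ hΦ k ε δ J hpar hJ Λ hΛ hΛL
    obtain ⟨N1, P1, K', θ, ε', δ', hp⟩ := (step_num (Ce c)).choose_spec k ε δ J hpar hJ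
    obtain ⟨hθ, hθk, hN1, hN1', hP1, hP1', hpar', hε'N, hδ'P, hK', hJ'⟩ := hp
    have hε := hpar.2.1
    have hε1 := hpar.2.2.1
    have hδ := hpar.2.2.2.1
    have hδ1 := hpar.2.2.2.2
    have h1 := step_fl (μ := μ) κ hV hΦ hΛL hε hε1 hθ hpar'.2.1.le hε'N hJ' hpar'.2.2.2.1.le
      (fun h Φ'' hΦ'' => ih h Φ'' hΦ'' k ε' δ' K' hpar' hK' Λ hΛ hΛL) (P1 := P1) (t2 := δ / 8) (by
        have h2 : 2 / ((ε / 4) ^ 2 * θ) = 1 / 16 * (8 / ((ε / 8) ^ 2 * θ)) := by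
          field_simp
          norm_num
        rw [h2]
        have h3 : 0 ≤ 8 / ((ε / 8) ^ 2 * θ) := by positivity
        have h4 : (1 : ℝ) ≤ P1 := by exact_mod_cast hP1'
        nlinarith) (by
        have h2 : (1 + (ε / 8) ^ 2 / 8) ^ N1 ≤ (1 + (ε / 4) ^ 2 / 6) ^ N1 :=
          pow_le_pow_left₀ (by positivity) (by nlinarith [sq_nonneg ε]) N1
        have h3 := mul_le_mul_of_nonneg_left h2 hδ.le
        linarith)
    have h2 : (Λ.card : ℝ) * θ ≤ k * θ := mul_le_mul_of_nonneg_right (by exact_mod_cast hΛ) hθ.le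
    linarith

end Pool.FLN
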