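import Pool.Agent.FLN.Mark

set_option autoImplicit false
set_option linter.unusedSectionVars false

/-!
# FLN: the machine (births and resets)
-/

namespace Pool.FLN

open MeasureTheory Finset Pool.JMP

/-- an operation: a birth (`rs = false`) or a reset (`rs = true`) on the set `D` -/
structure Op (Y : Type*) where
  lev : ℕ
  r : ℕ
  s : ℝ
  rs : Bool
  D : Set Y

open Classical in
/-- the active births at a point -/
noncomputable def act {Y : Type*} : List (Op Y) → Y → List (Op Y)
  | [], _ => []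
  | o :: H, y => if y ∈ o.D then (if o.rs = true then [] else o :: act H y) else act H y

open Classical in
/-- the number of operations at a point -/
noncomputable def cnt {Y : Type*} : List (Op Y) → Y → ℕ
  | [], _ => 0
  | o :: H, y => cnt H y + (if y ∈ o.D then 1 else 0)

/-- the number of births -/
def nb {Y : Type*} (H : List (Op Y)) : ℕ := (H.filter fun o => !o.rs).length

section
variable {Y : Type*}

lemma act_of_cnt {K H : List (Op Y)} {y : Y} (h : cnt (K ++ H) y = cnt H y) : act (K ++ H) y = act H y := by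
  have hle : ∀ K : List (Op Y), cnt H y ≤ cnt (K ++ H) y := by
    intro K
    induction K with
    | nil => exact le_rfl
    | cons o K ih => exact ih.trans (Nat.le_add_right _ _)
  induction K with
  | nil => rfl
  | cons o K ih =>
    rw [List.cons_append, cnt] at h
    have h1 := hle K
    by_cases hD : y ∈ o.D
    · rw [if_pos hD] at h
      omega
    · rw [if_neg hD, add_zero] at h
      rw [List.cons_append, act, if_neg hD]
      exact ih h

lemma cnt_mono {H H' : List (Op Y)} (h : H <:+ H') (y : Y) : cnt H y ≤ cnt H' y := by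
  obtain ⟨K, rfl⟩ := h
  induction K with
  | nil => exact le_rfl
  | cons o K ih => exact ih.trans (Nat.le_add_right _ _)

lemma act_eq {H H' : List (Op Y)} (h : H <:+ H') {y : Y} (hc : cnt H' y = cnt H y) : act H' y = act H y := by
  obtain ⟨K, rfl⟩ := h
  exact act_of_cnt hc

lemma mem_act : ∀ {H : List (Op Y)} {y : Y} {o : Op Y}, o ∈ act H y → o ∈ H ∧ y ∈ o.D ∧ o.rs = false
  | [], _, _, h => by simp [act] at h
  | o' :: H, y, o, h => by
    rw [act] at h
    by_cases hD : y ∈ o'.D
    · rw [if_pos hD] at h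
      by_cases hr : o'.rs = true
      · rw [if_pos hr] at h
        simp at h
      · rw [if_neg hr, List.mem_cons] at h
        rcases h with rfl | h
        · exact ⟨by simp, hD, by simpa using hr⟩
        · obtain ⟨h1, h2⟩ := mem_act h
          exact ⟨by simp [h1], h2⟩
    · rw [if_neg hD] at h
      obtain ⟨h1, h2⟩ := mem_act h
      exact ⟨by simp [h1], h2⟩

lemma length_act : ∀ (H : List (Op Y)) (y : Y), (act H y).length ≤ cnt H y
  | [], _ => by simp [act]
  | o :: H, y => by
    have ih := length_act H y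
    rw [act, cnt]
    by_cases hD : y ∈ o.D
    · rw [if_pos hD, if_pos hD]
      by_cases hr : o.rs = true
      · rw [if_pos hr, List.length_nil]
        omega
      · rw [if_neg hr, List.length_cons]
        omega
    · rw [if_neg hD, if_neg hD]
      omega

open Classical in
lemma card_hit : ∀ (H : List (Op Y)) (y : Y), (H.filter fun o => decide (y ∈ o.D ∧ o.rs = false)).length ≤ cnt H y
  | [], _ => by simp [cnt]
  | o :: H, y => by
    have ih := card_hit H y
    rw [cnt]
    by_cases hD : y ∈ o.D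
    · rw [if_pos hD]
      by_cases hr : o.rs = false
      · rw [List.filter_cons_of_pos (by simpa using ⟨hD, hr⟩), List.length_cons]
        omega
      · rw [List.filter_cons_of_neg (by simpa using fun _ => by simpa using hr)]
        omega
    · rw [if_neg hD, List.filter_cons_of_neg (by simpa using fun h => absurd h hD)]
      omega

end

namespace Fl

variable {Y : Type*} [MeasurableSpace Y] {ν : Measure Y} {L : ℕ} (P : Fl Y ν L) (Ψ : ℤ → Y → ℝ) (e : ℝ)

/-- the structured part -/
noncomputable def SS (H : List (Op Y)) (y : Y) : ℝ := ((act H y).map fun o => e * o.s * P.Ut Ψ o.lev o.r y).sum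

/-- admissible operation -/
structure OkO (ℓ : ℕ) (o : Op Y) : Prop where
  ge : ℓ ≤ o.lev
  le : o.lev ≤ L
  ms : MeasurableSet o.D
  inv : P.Inv o.lev (fun y => y ∈ o.D)
  sg : |o.s| ≤ 1

/-- admissible list -/
def Ok (ℓ : ℕ) (H : List (Op Y)) : Prop := ∀ o ∈ H, P.OkO ℓ o

variable {P Ψ e}

lemma Ok.le {ℓ ℓ' : ℕ} (h : ℓ' ≤ ℓ) {H : List (Op Y)} (hH : P.Ok ℓ H) : P.Ok ℓ' H := fun o ho =>
  ⟨h.trans (hH o ho).ge, (hH o ho).le, (hH o ho).ms, (hH o ho).inv, (hH o ho).sg⟩

lemma Ok.tail {ℓ : ℕ} {o : Op Y} {H : List (Op Y)} (hH : P.Ok ℓ (o :: H)) : P.Ok ℓ H := fun o' ho' =>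
  hH o' (List.mem_cons_of_mem _ ho')

lemma Ok.head {ℓ : ℕ} {o : Op Y} {H : List (Op Y)} (hH : P.Ok ℓ (o :: H)) : P.OkO ℓ o := hH o (by simp)

lemma Ok.cons {ℓ : ℕ} {o : Op Y} {H : List (Op Y)} (ho : P.OkO ℓ o) (hH : P.Ok ℓ H) : P.Ok ℓ (o :: H) := by
  intro o' ho'
  rw [List.mem_cons] at ho'
  rcases ho' with rfl | ho'
  · exact ho
  · exact hH o' ho'

lemma OkO.iff {ℓ : ℕ} {o : Op Y} (h : P.OkO ℓ o) (y : Y) {i : ℕ} (hi : i < 2 ^ ℓ) : P.pt ℓ y i ∈ o.D ↔ y ∈ o.D := by
  have h1 := Inv.le h.ge h.inv y i hi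
  exact iff_of_eq h1

lemma act_inv {ℓ : ℕ} : ∀ {H : List (Op Y)}, P.Ok ℓ H → P.Inv ℓ (act H)
  | [], _ => fun _ _ _ => rfl
  | o :: H, hH => fun y i hi => by
    have ih := act_inv hH.tail y i hi
    rw [act, act, ih]
    by_cases hD : y ∈ o.D
    · rw [if_pos hD, if_pos ((hH.head.iff y hi).2 hD)]
    · rw [if_neg hD, if_neg (fun h => hD ((hH.head.iff y hi).1 h))]

lemma cnt_inv {ℓ : ℕ} : ∀ {H : List (Op Y)}, P.Ok ℓ H → P.Inv ℓ (cnt H)
  | [], _ => fun _ _ _ => rfl
  | o :: H, hH => fun y i hi => by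
    have ih := cnt_inv hH.tail y i hi
    rw [cnt, cnt, ih]
    by_cases hD : y ∈ o.D
    · rw [if_pos hD, if_pos ((hH.head.iff y hi).2 hD)]
    · rw [if_neg hD, if_neg (fun h => hD ((hH.head.iff y hi).1 h))]

lemma cnt_meas {ℓ : ℕ} : ∀ {H : List (Op Y)}, P.Ok ℓ H → Measurable (cnt H)
  | [], _ => measurable_const
  | o :: H, hH => by
    have ih := cnt_meas hH.tail
    have e1 : cnt (o :: H) = fun y => cnt H y + o.D.indicator (fun _ => 1) y := by
      funext y
      by_cases hD : y ∈ o.D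
      · rw [cnt, if_pos hD, Set.indicator_of_mem hD]
      · rw [cnt, if_neg hD, Set.indicator_of_notMem hD]
    rw [e1]
    exact ih.add (measurable_const.indicator hH.head.ms)

open Classical in
lemma SS_cons (o : Op Y) (H : List (Op Y)) (y : Y) : P.SS Ψ e (o :: H) y =
    if y ∈ o.D then (if o.rs = true then 0 else e * o.s * P.Ut Ψ o.lev o.r y + P.SS Ψ e H y) else P.SS Ψ e H y := by
  rw [SS, act]
  split_ifs
  · simp
  · rw [List.map_cons, List.sum_cons, SS]
  · rw [SS]

lemma SS_meas (hΨ : ∀ n, U1 (Ψ n)) {ℓ : ℕ} : ∀ {H : List (Op Y)}, P.Ok ℓ H → Measurable (P.SS Ψ e H)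
  | [], _ => by
    have e1 : P.SS Ψ e ([] : List (Op Y)) = fun _ => 0 := by
      funext y
      simp [SS, act]
    rw [e1]
    exact measurable_const
  | o :: H, hH => by
    have ih := SS_meas hΨ hH.tail
    rw [funext (SS_cons (P := P) (Ψ := Ψ) (e := e) o H)]
    refine Measurable.ite hH.head.ms ?_ ih
    by_cases hr : o.rs = true
    · simp only [hr, if_true]
      exact measurable_const
    · simp only [hr, if_false]
      exact ((P.Ut_meas hΨ _ _).1.const_mul _).add ih

lemma SS_bd (hΨ : ∀ n, U1 (Ψ n)) (he : 0 ≤ e) {ℓ : ℕ} : ∀ {H : List (Op Y)}, P.Ok ℓ H → ∀ y, |P.SS Ψ e H y| ≤ e * H.length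
  | [], _, y => by simp [SS, act]
  | o :: H, hH, y => by
    have ih := SS_bd hΨ he hH.tail y
    have h0 : 0 ≤ e * (H.length : ℝ) := by positivity
    have h1 : |e * o.s * P.Ut Ψ o.lev o.r y| ≤ e := by
      rw [abs_mul, abs_mul, abs_of_nonneg he]
      calc e * |o.s| * |P.Ut Ψ o.lev o.r y| ≤ e * 1 * 1 := by
            refine mul_le_mul (mul_le_mul_of_nonneg_left hH.head.sg he) ((P.Ut_meas hΨ _ _).2 y) (abs_nonneg _) (by positivity)
        _ = e := by ring
    rw [SS_cons, List.length_cons]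
    push_cast
    split_ifs
    · rw [abs_zero]
      nlinarith
    · refine (abs_add_le _ _).trans ?_
      linarith
    · linarith

/-- the average of the structured part -/
lemma TT_SS {ℓ : ℕ} {H : List (Op Y)} (hH : P.Ok ℓ H) (y : Y) : P.TT Ψ ℓ (P.SS Ψ e H) y =
    ((act H y).map fun o => e * o.s * P.QQ Ψ (o.lev, o.r) ℓ y).sum := by
  have h1 : P.TT Ψ ℓ (P.SS Ψ e H) y = P.TT Ψ ℓ (fun z => ((act H y).map fun o => e * o.s * P.Ut Ψ o.lev o.r z).sum) y := by
    refine TT_congr P fun i hi => ?_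
    rw [SS, act_inv hH y i hi]
  rw [h1]
  have h2 : ∀ l : List (Op Y), (∀ o ∈ l, ℓ ≤ o.lev ∧ o.lev ≤ L) →
      P.TT Ψ ℓ (fun z => (l.map fun o => e * o.s * P.Ut Ψ o.lev o.r z).sum) y =
        (l.map fun o => e * o.s * P.QQ Ψ (o.lev, o.r) ℓ y).sum := by
    intro l
    induction l with
    | nil =>
      intro _
      simpa using P.TT_zero ℓ y
    | cons o l ih =>
      intro hl
      have h3 := ih fun o' ho' => hl o' (List.mem_cons_of_mem _ ho')
      obtain ⟨h4, h5⟩ := hl o (by simp)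
      simp only [List.map_cons, List.sum_cons]
      rw [P.TT_add, h3, P.TT_smul, P.TT_Ut Ψ h4 h5]
  exact h2 _ fun o ho => ⟨(hH o (mem_act ho).1).ge, (hH o (mem_act ho).1).le⟩

end Fl

end Pool.FLN
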