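import Pool.Agent.FLN.List

set_option autoImplicit false
set_option linter.unusedSectionVars false

/-!
# FLN: energies, existence of the lists
-/

namespace Pool.FLN

open MeasureTheory Finset Pool.JMP

lemma cnt_le_length {Y : Type*} : ∀ (H : List (Op Y)) (y : Y), cnt H y ≤ H.length
  | [], _ => by simp [cnt]
  | o :: H, y => by
    have ih := cnt_le_length H y
    rw [cnt, List.length_cons]
    split_ifs <;> omega

namespace Fl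

variable {Y : Type*} [MeasurableSpace Y] {ν : Measure Y} {L : ℕ} (P : Fl Y ν L) (Ψ : ℤ → Y → ℝ) (e : ℝ) (g : Y → ℝ)

lemma PP_le_lin {ℓ : ℕ} {F F' G : Y → ℝ} {c d : ℝ} {y : Y}
    (h : ∀ i < 2 ^ ℓ, F' (P.pt ℓ y i) ≤ F (P.pt ℓ y i) + c * G (P.pt ℓ y i) + d) :
    P.PP ℓ F' y ≤ P.PP ℓ F y + c * P.PP ℓ G y + d := by
  have h1 : ∑ i ∈ range (2 ^ ℓ), F' (P.pt ℓ y i) ≤ ∑ i ∈ range (2 ^ ℓ), F (P.pt ℓ y i) +
      c * ∑ i ∈ range (2 ^ ℓ), G (P.pt ℓ y i) + 2 ^ ℓ * d := by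
    refine (sum_le_sum fun i hi => h i (mem_range.1 hi)).trans (le_of_eq ?_)
    rw [sum_add_distrib, sum_add_distrib, mul_sum (a := c), sum_const, card_range, nsmul_eq_mul]
    push_cast
    rfl
  rw [PP, PP, PP]
  have h2 := mul_le_mul_of_nonneg_left h1 (by positivity : (0 : ℝ) ≤ ((2 : ℝ) ^ ℓ)⁻¹)
  have e1 : ((2 : ℝ) ^ ℓ)⁻¹ * (2 ^ ℓ * d) = d := inv_mul_cancel_left₀ (by positivity) d
  refine h2.trans (le_of_eq ?_)
  rw [mul_add, mul_add, e1]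
  ring

/-- the remainder -/
noncomputable def RR (H : List (Op Y)) (y : Y) : ℝ := g y - P.SS Ψ e H y

/-- the energy on the fibre -/
noncomputable def En (ℓ : ℕ) (H : List (Op Y)) (y : Y) : ℝ := P.PP ℓ (fun y => P.RR Ψ e g H y ^ 2) y

variable {P Ψ e g}

lemma RR_meas (hΨ : ∀ n, U1 (Ψ n)) (hg : U1 g) {ℓ : ℕ} {H : List (Op Y)} (hH : P.Ok ℓ H) :
    Measurable (P.RR Ψ e g H) := hg.1.sub (SS_meas hΨ hH)

lemma RR_bd (hΨ : ∀ n, U1 (Ψ n)) (hg : U1 g) (he : 0 ≤ e) {ℓ : ℕ} {H : List (Op Y)} (hH : P.Ok ℓ H) (y : Y) :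
    |P.RR Ψ e g H y| ≤ 1 + e * H.length := by
  refine (abs_sub _ _).trans ?_
  exact add_le_add (hg.2 y) (SS_bd hΨ he hH y)

lemma RR2_bd (hΨ : ∀ n, U1 (Ψ n)) (hg : U1 g) (he : 0 ≤ e) {ℓ : ℕ} {H : List (Op Y)} (hH : P.Ok ℓ H) (y : Y) :
    |P.RR Ψ e g H y ^ 2| ≤ (1 + e * H.length) ^ 2 := by
  rw [abs_pow]
  exact pow_le_pow_left₀ (abs_nonneg _) (RR_bd hΨ hg he hH y) 2

lemma En_nonneg {ℓ : ℕ} {H : List (Op Y)} (y : Y) : 0 ≤ P.En Ψ e g ℓ H y := P.PP_nonneg (fun _ => sq_nonneg _) y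

lemma En_meas (hΨ : ∀ n, U1 (Ψ n)) (hg : U1 g) {ℓ : ℕ} {H : List (Op Y)} (hH : P.Ok ℓ H) :
    Measurable (P.En Ψ e g ℓ H) := P.PP_meas ℓ ((RR_meas hΨ hg hH).pow_const 2)

lemma RR_birth {o : Op Y} (ho : o.rs = false) {H : List (Op Y)} {y : Y} (hy : y ∈ o.D) :
    P.RR Ψ e g (o :: H) y = P.RR Ψ e g H y - e * o.s * P.Ut Ψ o.lev o.r y := by
  rw [RR, RR, SS_cons, if_pos hy, if_neg (by simp [ho])]
  ring

lemma RR_reset {o : Op Y} (ho : o.rs = true) {H : List (Op Y)} {y : Y} (hy : y ∈ o.D) :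
    P.RR Ψ e g (o :: H) y = g y := by
  rw [RR, SS_cons, if_pos hy, if_pos ho, sub_zero]

lemma RR_out {o : Op Y} {H : List (Op Y)} {y : Y} (hy : y ∉ o.D) :
    P.RR Ψ e g (o :: H) y = P.RR Ψ e g H y := by
  rw [RR, RR, SS_cons, if_neg hy]

/-- energy outside -/
lemma En_out {ℓ : ℕ} {o : Op Y} (ho : P.OkO ℓ o) {H : List (Op Y)} {y : Y} (hy : y ∉ o.D) :
    P.En Ψ e g ℓ (o :: H) y = P.En Ψ e g ℓ H y := by
  rw [En, En, PP, PP]
  congr 1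
  refine sum_congr rfl fun i hi => ?_
  rw [RR_out fun h => hy ((ho.iff y (mem_range.1 hi)).1 h)]

/-- energy after a reset -/
lemma En_reset (hg : U1 g) {ℓ : ℕ} {o : Op Y} (ho : P.OkO ℓ o) (hr : o.rs = true) {H : List (Op Y)} {y : Y} (hy : y ∈ o.D) :
    P.En Ψ e g ℓ (o :: H) y ≤ 1 := by
  have h1 := P.PP_le_lin (ℓ := ℓ) (F := fun _ => 0) (F' := fun y => P.RR Ψ e g (o :: H) y ^ 2) (G := fun _ => 0) (c := 0)
    (d := 1) (y := y) (fun i hi => by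
      show P.RR Ψ e g (o :: H) (P.pt ℓ y i) ^ 2 ≤ 0 + 0 * 0 + 1
      rw [RR_reset hr ((ho.iff y hi).2 hy)]
      have h2 := hg.2 (P.pt ℓ y i)
      rw [abs_le] at h2
      nlinarith)
  rw [P.PP_const] at h1
  show P.PP ℓ (fun y => P.RR Ψ e g (o :: H) y ^ 2) y ≤ 1
  linarith

/-- energy after a birth -/
lemma En_birth (hΨ : ∀ n, U1 (Ψ n)) (he : 0 ≤ e) {ℓ : ℕ} (hℓ : ℓ ≤ L) {o : Op Y} (ho : P.OkO ℓ o) (hr : o.rs = false)
    (hlev : o.lev = ℓ) (hs : o.s ^ 2 = 1) {H : List (Op Y)} {y : Y} (hy : y ∈ o.D)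
    (hD : e ≤ o.s * P.TT Ψ ℓ (P.RR Ψ e g H) (P.mr ℓ o.r y)) :
    P.En Ψ e g ℓ (o :: H) y ≤ P.En Ψ e g ℓ H y - e ^ 2 := by
  have h1 := P.PP_le_lin (ℓ := ℓ) (F := fun y => P.RR Ψ e g H y ^ 2) (F' := fun y => P.RR Ψ e g (o :: H) y ^ 2)
    (G := fun y => P.RR Ψ e g H y * P.Ut Ψ ℓ o.r y) (c := -2 * e * o.s)
    (d := e ^ 2) (y := y) (fun i hi => by
      show P.RR Ψ e g (o :: H) (P.pt ℓ y i) ^ 2 ≤ P.RR Ψ e g H (P.pt ℓ y i) ^ 2 +
        -2 * e * o.s * (P.RR Ψ e g H (P.pt ℓ y i) * P.Ut Ψ ℓ o.r (P.pt ℓ y i)) + e ^ 2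
      rw [RR_birth hr ((ho.iff y hi).2 hy), hlev]
      set U := P.Ut Ψ ℓ o.r (P.pt ℓ y i) with hU
      have hU1 : |U| ≤ 1 := (P.Ut_meas hΨ ℓ o.r).2 _
      have hU2 : U ^ 2 ≤ 1 := by
        rw [abs_le] at hU1
        nlinarith
      have h3 : (e * o.s * U) ^ 2 ≤ e ^ 2 := by
        have e1 : (e * o.s * U) ^ 2 = e ^ 2 * (o.s ^ 2 * U ^ 2) := by ring
        rw [e1, hs, one_mul]
        have := mul_le_mul_of_nonneg_left hU2 (sq_nonneg e)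
        linarith
      nlinarith)
  rw [P.PP_Ut Ψ hℓ] at h1
  have h2 := mul_le_mul_of_nonneg_left hD (by positivity : (0 : ℝ) ≤ 2 * e)
  show P.PP ℓ (fun y => P.RR Ψ e g (o :: H) y ^ 2) y ≤ P.PP ℓ (fun y => P.RR Ψ e g H y ^ 2) y - e ^ 2
  nlinarith

variable [IsProbabilityMeasure ν]

lemma int_En (hΨ : ∀ n, U1 (Ψ n)) (hg : U1 g) (he : 0 ≤ e) {ℓ : ℕ} (hℓ : ℓ ≤ L) {H : List (Op Y)} (hH : P.Ok ℓ H) :
    ∫ y, P.En Ψ e g ℓ H y ∂ν = ∫ y, P.RR Ψ e g H y ^ 2 ∂ν :=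
  P.int_PP hℓ ((RR_meas hΨ hg hH).pow_const 2) (RR2_bd hΨ hg he hH)

lemma En_bd (hΨ : ∀ n, U1 (Ψ n)) (hg : U1 g) (he : 0 ≤ e) {ℓ : ℕ} {H : List (Op Y)} (hH : P.Ok ℓ H) (y : Y) :
    |P.En Ψ e g ℓ H y| ≤ (1 + e * H.length) ^ 2 := P.PP_abs ℓ (RR2_bd hΨ hg he hH) y

/-- the second functional -/
noncomputable def J2 (P : Fl Y ν L) (Ψ : ℤ → Y → ℝ) (e : ℝ) (g : Y → ℝ) (w : ℝ) (H : List (Op Y)) : ℝ :=
  ∫ y, w ^ cnt H y * (1 + P.RR Ψ e g H y ^ 2) ∂ν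

lemma wc_meas {w : ℝ} {ℓ : ℕ} {H : List (Op Y)} (hH : P.Ok ℓ H) : Measurable fun y => w ^ cnt H y :=
  (measurable_of_countable fun n : ℕ => w ^ n).comp (cnt_meas hH)

lemma wc_bd {w : ℝ} (hw : 1 ≤ w) (H : List (Op Y)) (y : Y) : |w ^ cnt H y| ≤ w ^ H.length := by
  rw [abs_of_nonneg (by positivity)]
  exact pow_le_pow_right₀ hw (cnt_le_length H y)

lemma J2_eq (hΨ : ∀ n, U1 (Ψ n)) (hg : U1 g) (he : 0 ≤ e) {w : ℝ} (hw : 1 ≤ w) {ℓ : ℕ} (hℓ : ℓ ≤ L) {H : List (Op Y)}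
    (hH : P.Ok ℓ H) : J2 P Ψ e g w H = ∫ y, w ^ cnt H y * (1 + P.En Ψ e g ℓ H y) ∂ν := by
  have h1 := P.int_mul_PP hℓ (Q := fun y => w ^ cnt H y) (F := fun y => 1 + P.RR Ψ e g H y ^ 2)
    (Inv.comp (cnt_inv hH) fun n => w ^ n) (wc_meas hH) (((RR_meas hΨ hg hH).pow_const 2).const_add 1)
    (C := 1 + (1 + e * H.length) ^ 2) (C' := w ^ H.length) (fun y => by
      refine (abs_add_le _ _).trans ?_
      rw [abs_one]
      exact add_le_add le_rfl (RR2_bd hΨ hg he hH y)) (wc_bd hw H)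
  have h2 : ∀ y, P.PP ℓ (fun y => 1 + P.RR Ψ e g H y ^ 2) y = 1 + P.En Ψ e g ℓ H y := by
    intro y
    rw [En, PP, PP, sum_add_distrib, sum_const, card_range, nsmul_eq_mul, mul_add]
    push_cast
    rw [mul_one, inv_mul_cancel₀ (by positivity)]
  rw [J2, ← h1]
  simp only [h2]

lemma J2_le (hΨ : ∀ n, U1 (Ψ n)) (hg : U1 g) (he : 0 ≤ e) {w : ℝ} (hw : 1 ≤ w) {ℓ : ℕ} (hℓ : ℓ ≤ L) {H : List (Op Y)} {o : Op Y}
    (hH : P.Ok ℓ (o :: H)) (h : ∀ y, w ^ cnt (o :: H) y * (1 + P.En Ψ e g ℓ (o :: H) y) ≤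
      w ^ cnt H y * (1 + P.En Ψ e g ℓ H y)) : J2 P Ψ e g w (o :: H) ≤ J2 P Ψ e g w H := by
  have hint : ∀ H : List (Op Y), P.Ok ℓ H → Integrable (fun y => w ^ cnt H y * (1 + P.En Ψ e g ℓ H y)) ν := by
    intro H hH
    refine intg (C := w ^ H.length * (1 + (1 + e * H.length) ^ 2)) ((wc_meas hH).mul ((En_meas hΨ hg hH).const_add 1))
      fun y => ?_
    rw [abs_mul]
    refine mul_le_mul (wc_bd hw H y) ?_ (abs_nonneg _) (by positivity)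
    refine (abs_add_le _ _).trans ?_
    rw [abs_one]
    exact add_le_add le_rfl (En_bd hΨ hg he hH y)
  rw [J2_eq hΨ hg he hw hℓ hH, J2_eq hΨ hg he hw hℓ hH.tail]
  exact integral_mono (hint _ hH) (hint _ hH.tail) h

/-- the state of the machine -/
structure St (P : Fl Y ν L) (Ψ : ℤ → Y → ℝ) (e : ℝ) (g : Y → ℝ) (θ : ℝ) (ℓ : ℕ) (H : List (Op Y)) : Prop where
  ok : P.Ok ℓ H
  j2 : J2 P Ψ e g (1 + e ^ 2 / 6) H ≤ 2
  j3 : nb H * (e ^ 2 * θ / 2) + ∫ y, P.RR Ψ e g H y ^ 2 ∂ν ≤ 1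

lemma St.le {θ : ℝ} {ℓ ℓ' : ℕ} (h : ℓ' ≤ ℓ) {H : List (Op Y)} (hH : St P Ψ e g θ ℓ H) : St P Ψ e g θ ℓ' H :=
  ⟨hH.ok.le h, hH.j2, hH.j3⟩

lemma st_nil (hg : U1 g) {θ : ℝ} (ℓ : ℕ) : St P Ψ e g θ ℓ [] := by
  have h0 : ∀ y, P.RR Ψ e g [] y = g y := fun y => by simp [RR, SS, act]
  have h1 : ∫ y, g y ^ 2 ∂ν ≤ 1 := by
    have h2 : ∀ y, g y ^ 2 ≤ 1 := fun y => by
      have := hg.2 y
      rw [abs_le] at this
      nlinarith
    calc ∫ y, g y ^ 2 ∂ν ≤ ∫ _y, (1 : ℝ) ∂ν := integral_mono (intg (C := 1) (hg.1.pow_const 2) fun y => by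
          rw [abs_of_nonneg (sq_nonneg _)]
          exact h2 y) (integrable_const _) h2
      _ = 1 := by simp
  refine ⟨fun o ho => absurd ho (by simp), ?_, ?_⟩
  · rw [J2]
    simp only [cnt, pow_zero, one_mul, h0]
    rw [integral_add (integrable_const _) (intg (C := 1) (hg.1.pow_const 2) fun y => by
      rw [abs_pow]
      exact pow_le_one₀ (abs_nonneg _) (hg.2 y))]
    simp only [integral_const, probReal_univ, smul_eq_mul, mul_one]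
    linarith
  · simp only [h0, nb, List.filter_nil, List.length_nil, Nat.cast_zero, zero_mul, zero_add]
    exact h1

/-- the reset -/
lemma st_reset (hΨ : ∀ n, U1 (Ψ n)) (hg : U1 g) (he : 0 ≤ e) (he1 : e ≤ 1) {θ : ℝ} {ℓ : ℕ} (hℓ : ℓ ≤ L)
    {H : List (Op Y)} (hH : St P Ψ e g θ ℓ H) :
    ∃ o : Op Y, St P Ψ e g θ ℓ (o :: H) ∧ ∀ y, P.En Ψ e g ℓ (o :: H) y ≤ 5 := by
  set o : Op Y := ⟨ℓ, 0, 0, true, {y | 5 < P.En Ψ e g ℓ H y}⟩ with hodef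
  have ho : P.OkO ℓ o := by
    refine ⟨le_rfl, hℓ, measurableSet_lt measurable_const (En_meas hΨ hg hH.ok), ?_, ?_⟩
    · exact Inv.comp (P.inv_PP hℓ _) fun t => (5 < t : Prop)
    · simp [hodef]
  have hok : P.Ok ℓ (o :: H) := Ok.cons ho hH.ok
  have hen : ∀ y, P.En Ψ e g ℓ (o :: H) y ≤ min 5 (P.En Ψ e g ℓ H y) := by
    intro y
    by_cases hy : y ∈ o.D
    · have h1 : P.En Ψ e g ℓ (o :: H) y ≤ 1 := En_reset hg ho rfl hy
      have h2 : 5 < P.En Ψ e g ℓ H y := hy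
      rw [le_min_iff]
      constructor <;> linarith
    · rw [En_out ho hy]
      have h2 : ¬ 5 < P.En Ψ e g ℓ H y := hy
      rw [le_min_iff]
      exact ⟨not_lt.1 h2, le_rfl⟩
  have hw : (1 : ℝ) ≤ 1 + e ^ 2 / 6 := by nlinarith [sq_nonneg e]
  refine ⟨o, ⟨hok, (J2_le hΨ hg he hw hℓ hok fun y => ?_).trans hH.j2, ?_⟩, fun y => (hen y).trans (min_le_left _ _)⟩
  · by_cases hy : y ∈ o.D
    · have h1 : P.En Ψ e g ℓ (o :: H) y ≤ 1 := En_reset hg ho rfl hy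
      have h2 : 5 < P.En Ψ e g ℓ H y := hy
      rw [cnt, if_pos hy, pow_succ, mul_assoc]
      refine mul_le_mul_of_nonneg_left ?_ (by positivity)
      have h3 : (1 + e ^ 2 / 6) * (1 + P.En Ψ e g ℓ (o :: H) y) ≤ 2 * 2 := by
        refine mul_le_mul (by nlinarith) (by linarith) ?_ (by norm_num)
        have := En_nonneg (P := P) (Ψ := Ψ) (e := e) (g := g) (ℓ := ℓ) (H := o :: H) y
        linarith
      linarith
    · rw [En_out ho hy, cnt, if_neg hy, add_zero]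
  · have e1 : nb (o :: H) = nb H := rfl
    rw [e1]
    have h1 : ∫ y, P.RR Ψ e g (o :: H) y ^ 2 ∂ν ≤ ∫ y, P.RR Ψ e g H y ^ 2 ∂ν := by
      rw [← int_En hΨ hg he hℓ hok, ← int_En hΨ hg he hℓ hH.ok]
      exact integral_mono (intg (En_meas hΨ hg hok) (En_bd hΨ hg he hok)) (intg (En_meas hΨ hg hH.ok) (En_bd hΨ hg he hH.ok))
        fun y => (hen y).trans (min_le_right _ _)
    linarith [hH.j3]

/-- a birth -/
lemma st_birth (hΨ : ∀ n, U1 (Ψ n)) (hg : U1 g) (he : 0 ≤ e) {θ : ℝ} {ℓ : ℕ} (hℓ : ℓ ≤ L)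
    {H : List (Op Y)} (hH : St P Ψ e g θ ℓ H) (h5 : ∀ y, P.En Ψ e g ℓ H y ≤ 5)
    (hbig : θ ≤ ν.real {y | e ≤ |P.TT Ψ ℓ (P.RR Ψ e g H) y|}) :
    ∃ o : Op Y, St P Ψ e g θ ℓ (o :: H) ∧ (∀ y, P.En Ψ e g ℓ (o :: H) y ≤ 5) ∧ nb (o :: H) = nb H + 1 := by
  set T := P.TT Ψ ℓ (P.RR Ψ e g H) with hT
  have hTm : Measurable T := P.TT_meas hΨ ℓ (RR_meas hΨ hg hH.ok)
  -- the sign
  obtain ⟨s, hs, hsE⟩ : ∃ s : ℝ, s ^ 2 = 1 ∧ θ / 2 ≤ ν.real {y | e ≤ s * T y} := by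
    by_contra hcon
    push Not at hcon
    have h1 := hcon 1 (by norm_num)
    have h2 := hcon (-1) (by norm_num)
    have h3 : {y | e ≤ |T y|} ⊆ {y | e ≤ 1 * T y} ∪ {y | e ≤ -1 * T y} := by
      intro y hy
      have hy' : e ≤ |T y| := hy
      rcases le_abs.1 hy' with h | h
      · left
        show e ≤ 1 * T y
        linarith
      · right
        show e ≤ -1 * T y
        linarith
    have h4 := (measureReal_mono h3).trans (measureReal_union_le (μ := ν) {y | e ≤ 1 * T y} {y | e ≤ -1 * T y})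
    linarith
  have hEm : MeasurableSet {y | e ≤ s * T y} := measurableSet_le measurable_const (hTm.const_mul s)
  obtain ⟨r, _, hr⟩ := P.exists_mark hℓ hEm
  set o : Op Y := ⟨ℓ, r, s, false, {y | P.mr ℓ r y ∈ {y | e ≤ s * T y}}⟩ with hodef
  have ho : P.OkO ℓ o := by
    refine ⟨le_rfl, hℓ, (P.mr_meas ℓ r) hEm, ?_, ?_⟩
    · exact Inv.comp (P.inv_mr hℓ r) fun z => z ∈ {y | e ≤ s * T y}
    · show |s| ≤ 1
      have h1 : |s| ^ 2 = 1 := by rw [sq_abs, hs]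
      nlinarith [abs_nonneg s]
  have hok : P.Ok ℓ (o :: H) := Ok.cons ho hH.ok
  have hin : ∀ y ∈ o.D, P.En Ψ e g ℓ (o :: H) y ≤ P.En Ψ e g ℓ H y - e ^ 2 := fun y hy =>
    En_birth hΨ he hℓ ho rfl rfl hs hy hy
  have hen : ∀ y, P.En Ψ e g ℓ (o :: H) y ≤ P.En Ψ e g ℓ H y - e ^ 2 * o.D.indicator 1 y := by
    intro y
    by_cases hy : y ∈ o.D
    · rw [Set.indicator_of_mem hy, Pi.one_apply, mul_one]
      exact hin y hy
    · rw [En_out ho hy, Set.indicator_of_notMem hy, mul_zero, sub_zero]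
  have hw : (1 : ℝ) ≤ 1 + e ^ 2 / 6 := by nlinarith [sq_nonneg e]
  refine ⟨o, ⟨hok, (J2_le hΨ hg he hw hℓ hok fun y => ?_).trans hH.j2, ?_⟩, fun y => ?_, ?_⟩
  · by_cases hy : y ∈ o.D
    · have h1 := hin y hy
      have h2 := h5 y
      have h3 := En_nonneg (P := P) (Ψ := Ψ) (e := e) (g := g) (ℓ := ℓ) (H := o :: H) y
      rw [cnt, if_pos hy, pow_succ, mul_assoc]
      refine mul_le_mul_of_nonneg_left ?_ (by positivity)
      have h4 : (1 + e ^ 2 / 6) * (1 + P.En Ψ e g ℓ (o :: H) y) ≤ (1 + e ^ 2 / 6) * (1 + P.En Ψ e g ℓ H y - e ^ 2) :=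
        mul_le_mul_of_nonneg_left (by linarith) (by positivity)
      nlinarith [sq_nonneg e]
    · rw [En_out ho hy, cnt, if_neg hy, add_zero]
  · have e1 : nb (o :: H) = nb H + 1 := by
      rw [nb, nb, List.filter_cons_of_pos (by rfl), List.length_cons]
    rw [e1]
    have h1 : ∫ y, P.RR Ψ e g (o :: H) y ^ 2 ∂ν ≤ ∫ y, P.RR Ψ e g H y ^ 2 ∂ν - e ^ 2 * (θ / 2) := by
      rw [← int_En hΨ hg he hℓ hok, ← int_En hΨ hg he hℓ hH.ok]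
      have hm := ho.ms
      have h2 : Integrable (fun y => e ^ 2 * o.D.indicator (1 : Y → ℝ) y) ν :=
        intg (C := e ^ 2 * 1) ((measurable_one.indicator hm).const_mul _) fun y => by
          rw [abs_mul, abs_of_nonneg (sq_nonneg e)]
          refine mul_le_mul_of_nonneg_left ?_ (sq_nonneg e)
          rw [Set.indicator_apply]
          split_ifs <;> simp
      have h3 := integral_mono (intg (En_meas hΨ hg hok) (En_bd hΨ hg he hok))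
        ((intg (En_meas hΨ hg hH.ok) (En_bd hΨ hg he hH.ok)).sub h2) hen
      have h4 : ∫ y, (P.En Ψ e g ℓ H y - e ^ 2 * o.D.indicator (1 : Y → ℝ) y) ∂ν =
          ∫ y, P.En Ψ e g ℓ H y ∂ν - e ^ 2 * ν.real o.D := by
        rw [integral_sub (intg (En_meas hΨ hg hH.ok) (En_bd hΨ hg he hH.ok)) h2, integral_const_mul,
          integral_indicator_one hm]
      have h5 : θ / 2 ≤ ν.real o.D := hsE.trans hr
      have h6 := mul_le_mul_of_nonneg_left h5 (sq_nonneg e)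
      have h7 : ∫ y, P.En Ψ e g ℓ (o :: H) y ∂ν ≤ ∫ y, (P.En Ψ e g ℓ H y - e ^ 2 * o.D.indicator (1 : Y → ℝ) y) ∂ν := h3
      linarith
    have h2 := hH.j3
    push_cast
    nlinarith
  · refine (hen y).trans ?_
    have h1 : 0 ≤ o.D.indicator (1 : Y → ℝ) y := Set.indicator_nonneg (fun _ _ => zero_le_one) y
    have h2 : 0 ≤ e ^ 2 * o.D.indicator (1 : Y → ℝ) y := mul_nonneg (sq_nonneg e) h1
    linarith [h5 y]
  · rw [nb, nb, List.filter_cons_of_pos (by rfl), List.length_cons]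

lemma st_loop (hΨ : ∀ n, U1 (Ψ n)) (hg : U1 g) (he : 0 ≤ e) (he1 : e ≤ 1) {θ : ℝ} {ℓ : ℕ} (hℓ : ℓ ≤ L) :
    ∀ (k : ℕ) (H : List (Op Y)), St P Ψ e g θ ℓ H → (∀ y, P.En Ψ e g ℓ H y ≤ 5) → 1 < (nb H + k) * (e ^ 2 * θ / 2) →
      ∃ K : List (Op Y), St P Ψ e g θ ℓ (K ++ H) ∧ ν.real {y | e ≤ |P.TT Ψ ℓ (P.RR Ψ e g (K ++ H)) y|} < θ := by
  intro k
  induction k with
  | zero =>
    intro H hH _ hk
    exfalso
    have h1 : 0 ≤ ∫ y, P.RR Ψ e g H y ^ 2 ∂ν := integral_nonneg fun y => sq_nonneg _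
    have h2 := hH.j3
    push_cast at hk
    rw [add_zero] at hk
    linarith
  | succ k ih =>
    intro H hH h5 hk
    by_cases hbig : θ ≤ ν.real {y | e ≤ |P.TT Ψ ℓ (P.RR Ψ e g H) y|}
    · obtain ⟨o, ho1, ho2, ho3⟩ := st_birth hΨ hg he hℓ hH h5 hbig
      obtain ⟨K, hK1, hK2⟩ := ih (o :: H) ho1 ho2 (by
        rw [ho3]
        push_cast
        push_cast at hk
        rwa [add_assoc, add_comm (1 : ℝ) k])
      refine ⟨K ++ [o], ?_, ?_⟩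
      · rw [List.append_assoc]
        exact hK1
      · rw [List.append_assoc]
        exact hK2
    · exact ⟨[], hH, not_le.1 hbig⟩

lemma st_level (hΨ : ∀ n, U1 (Ψ n)) (hg : U1 g) (he : 0 < e) (he1 : e ≤ 1) {θ : ℝ} (hθ : 0 < θ) {ℓ : ℕ} (hℓ : ℓ ≤ L)
    {H : List (Op Y)} (hH : St P Ψ e g θ ℓ H) :
    ∃ K : List (Op Y), St P Ψ e g θ ℓ (K ++ H) ∧ ν.real {y | e ≤ |P.TT Ψ ℓ (P.RR Ψ e g (K ++ H)) y|} < θ := by
  obtain ⟨o, ho1, ho2⟩ := st_reset hΨ hg he.le he1 hℓ hH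
  have hκ : 0 < e ^ 2 * θ / 2 := by positivity
  obtain ⟨k, hk⟩ := exists_nat_gt (1 / (e ^ 2 * θ / 2))
  rw [div_lt_iff₀ hκ] at hk
  obtain ⟨K, hK1, hK2⟩ := st_loop hΨ hg he.le he1 hℓ k (o :: H) ho1 ho2 (by
    have : 0 ≤ (nb (o :: H) : ℝ) * (e ^ 2 * θ / 2) := by positivity
    rw [add_mul]
    linarith)
  refine ⟨K ++ [o], ?_, ?_⟩
  · rw [List.append_assoc]
    exact hK1
  · rw [List.append_assoc]
    exact hK2

/-- **existence of the lists** -/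
theorem exists_lists (hΨ : ∀ n, U1 (Ψ n)) (hg : U1 g) (he : 0 < e) (he1 : e ≤ 1) {θ : ℝ} (hθ : 0 < θ) :
    ∃ Hf : ℕ → List (Op Y), (∀ ℓ ≤ L, St P Ψ e g θ ℓ (Hf ℓ)) ∧ (∀ ℓ ℓ', ℓ ≤ ℓ' → ℓ' ≤ L → Hf ℓ' <:+ Hf ℓ) ∧
      ∀ ℓ ≤ L, ν.real {y | e ≤ |P.TT Ψ ℓ (P.RR Ψ e g (Hf ℓ)) y|} < θ := by
  have key : ∀ t ≤ L, ∃ Hf : ℕ → List (Op Y), (∀ ℓ, L - t ≤ ℓ → ℓ ≤ L → St P Ψ e g θ ℓ (Hf ℓ)) ∧
      (∀ ℓ ℓ', L - t ≤ ℓ → ℓ ≤ ℓ' → ℓ' ≤ L → Hf ℓ' <:+ Hf ℓ) ∧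
      ∀ ℓ, L - t ≤ ℓ → ℓ ≤ L → ν.real {y | e ≤ |P.TT Ψ ℓ (P.RR Ψ e g (Hf ℓ)) y|} < θ := by
    intro t
    induction t with
    | zero =>
      intro _
      obtain ⟨K, hK1, hK2⟩ := st_level (ν := ν) hΨ hg he he1 hθ le_rfl (st_nil (P := P) (Ψ := Ψ) (e := e) (θ := θ) hg L)
      refine ⟨fun _ => K ++ [], fun ℓ h1 h2 => ?_, fun ℓ ℓ' _ _ _ => List.suffix_rfl, fun ℓ h1 h2 => ?_⟩
      · have : ℓ = L := by omega
        rw [this]
        exact hK1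
      · have : ℓ = L := by omega
        rw [this]
        exact hK2
    | succ t ih =>
      intro ht
      obtain ⟨Hf, h1, h2, h3⟩ := ih (by omega)
      set ℓ0 := L - (t + 1) with hℓ0
      have hst : St P Ψ e g θ ℓ0 (Hf (L - t)) := (h1 (L - t) le_rfl (Nat.sub_le _ _)).le (by omega)
      obtain ⟨K, hK1, hK2⟩ := st_level hΨ hg he he1 hθ (by omega) hst
      refine ⟨fun ℓ => if ℓ ≤ ℓ0 then K ++ Hf (L - t) else Hf ℓ, fun ℓ a1 a2 => ?_, fun ℓ ℓ' a1 a2 a3 => ?_,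
        fun ℓ a1 a2 => ?_⟩
      · by_cases hc : ℓ ≤ ℓ0
        · have : ℓ = ℓ0 := by omega
          simp only [hc, if_true]
          rw [this]
          exact hK1
        · simp only [hc, if_false]
          exact h1 ℓ (by omega) a2
      · by_cases hc : ℓ ≤ ℓ0
        · by_cases hc' : ℓ' ≤ ℓ0
          · simp only [hc, hc', if_true]
            exact List.suffix_rfl
          · simp only [hc, hc', if_true, if_false]
            exact (h2 (L - t) ℓ' le_rfl (by omega) a3).trans (List.suffix_append _ _)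
        · have hc' : ¬ ℓ' ≤ ℓ0 := by omega
          simp only [hc, hc', if_false]
          exact h2 ℓ ℓ' (by omega) a2 a3
      · by_cases hc : ℓ ≤ ℓ0
        · have : ℓ = ℓ0 := by omega
          simp only [hc, if_true]
          rw [this]
          exact hK2
        · simp only [hc, if_false]
          exact h3 ℓ (by omega) a2
  obtain ⟨Hf, h1, h2, h3⟩ := key L le_rfl
  refine ⟨Hf, fun ℓ hℓ => h1 ℓ (by omega) hℓ, fun ℓ ℓ' h hℓ => h2 ℓ ℓ' (by omega) h hℓ, fun ℓ hℓ => h3 ℓ (by omega) hℓ⟩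

/-- Markov -/
lemma St.tail {θ : ℝ} {ℓ : ℕ} {H : List (Op Y)} (hΨ : ∀ n, U1 (Ψ n)) (hg : U1 g) (he : 0 ≤ e)
    (hH : St P Ψ e g θ ℓ H) (N : ℕ) : (1 + e ^ 2 / 6) ^ N * ν.real {y | N ≤ cnt H y} ≤ 2 := by
  have hw : (1 : ℝ) ≤ 1 + e ^ 2 / 6 := by nlinarith [sq_nonneg e]
  have hm : MeasurableSet {y | N ≤ cnt H y} := (cnt_meas hH.ok) measurableSet_Ici
  refine le_trans ?_ hH.j2
  rw [J2]
  have h1 : (1 + e ^ 2 / 6) ^ N * ν.real {y | N ≤ cnt H y} =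
      ∫ y, (1 + e ^ 2 / 6) ^ N * ({y | N ≤ cnt H y} : Set Y).indicator (1 : Y → ℝ) y ∂ν := by
    rw [integral_const_mul, integral_indicator_one hm]
  rw [h1]
  refine integral_mono (intg (C := (1 + e ^ 2 / 6) ^ N * 1) ((measurable_one.indicator hm).const_mul _) fun y => ?_)
    (intg (C := (1 + e ^ 2 / 6) ^ H.length * (1 + (1 + e * H.length) ^ 2)) ((wc_meas hH.ok).mul
      (((RR_meas hΨ hg hH.ok).pow_const 2).const_add 1)) fun y => ?_) fun y => ?_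
  · rw [abs_mul, abs_of_nonneg (by positivity : (0 : ℝ) ≤ (1 + e ^ 2 / 6) ^ N)]
    refine mul_le_mul_of_nonneg_left ?_ (by positivity)
    rw [Set.indicator_apply]
    split_ifs <;> simp
  · rw [abs_mul]
    refine mul_le_mul (wc_bd hw H y) ?_ (abs_nonneg _) (by positivity)
    refine (abs_add_le _ _).trans ?_
    rw [abs_one]
    exact add_le_add le_rfl (RR2_bd hΨ hg he hH.ok y)
  · show (1 + e ^ 2 / 6) ^ N * ({y | N ≤ cnt H y} : Set Y).indicator (1 : Y → ℝ) y ≤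
      (1 + e ^ 2 / 6) ^ cnt H y * (1 + P.RR Ψ e g H y ^ 2)
    have h2 : (1 : ℝ) ≤ 1 + P.RR Ψ e g H y ^ 2 := by nlinarith [sq_nonneg (P.RR Ψ e g H y)]
    by_cases hy : N ≤ cnt H y
    · have hy' : y ∈ ({y | N ≤ cnt H y} : Set Y) := hy
      rw [Set.indicator_of_mem hy', Pi.one_apply]
      exact mul_le_mul (pow_le_pow_right₀ hw hy) h2 (by norm_num) (by positivity)
    · have hy' : y ∉ ({y | N ≤ cnt H y} : Set Y) := hy
      rw [Set.indicator_of_notMem hy', mul_zero]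
      positivity

end Fl

end Pool.FLN
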