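import Pool.Agent.FLN.Fin

set_option autoImplicit false
set_option linter.unusedSectionVars false

/-!
# FLN: the theorem
-/

namespace Pool.FLN

open MeasureTheory Finset Pool.JMP Pool.FLU
open scoped ENNReal

universe u

lemma scales_Icc (i : ℕ) : scales (Icc 1 (2 ^ i)) ≤ i + 1 := by
  rw [scales]
  have h1 : (Icc 1 (2 ^ i)).image (Nat.log 2) ⊆ range (i + 1) := by
    intro a ha
    obtain ⟨n, hn, rfl⟩ := mem_image.1 ha
    rw [mem_range, Nat.lt_succ_iff]
    calc Nat.log 2 n ≤ Nat.log 2 (2 ^ i) := Nat.log_mono_right (mem_Icc.1 hn).2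
      _ = i := Nat.log_pow (by norm_num) i
  exact (card_le_card h1).trans (by rw [card_range])

/-- the last numbers -/
lemma num_ae (C q : ℕ) : ∀ᶠ N : ℕ in Filter.atTop,
    (((2 + Real.log ((Nat.log 2 N + 1 + 1 : ℕ) : ℝ) + Real.log (1 / (1 / ((Nat.log 2 N + 1 + 1 : ℕ) : ℝ) ^ 2))) /
      (1 / ((q : ℝ) + 1))) ^ C) ≤ (Real.log (Real.log N)) ^ (C + 1) := by
  have hll : Filter.Tendsto (fun N : ℕ => Real.log (Real.log N)) Filter.atTop Filter.atTop :=
    Real.tendsto_log_atTop.comp (Real.tendsto_log_atTop.comp tendsto_natCast_atTop_atTop)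
  have hl : Filter.Tendsto (fun N : ℕ => Real.log N) Filter.atTop Filter.atTop :=
    Real.tendsto_log_atTop.comp tendsto_natCast_atTop_atTop
  filter_upwards [hll.eventually_ge_atTop (max 1 ((11 * ((q : ℝ) + 1)) ^ C)), hl.eventually_ge_atTop 1,
    Filter.eventually_ge_atTop 1] with N h1 h2 h3
  set u := Real.log (Real.log N) with hu
  have hu1 : 1 ≤ u := (le_max_left _ _).trans h1
  have hu2 : (11 * ((q : ℝ) + 1)) ^ C ≤ u := (le_max_right _ _).trans h1
  set i : ℝ := ((Nat.log 2 N + 1 + 1 : ℕ) : ℝ) with hi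
  have hi0 : 0 < i := by positivity
  have h4 : i ≤ 4 * Real.log N := by
    have h5 : 2 ^ Nat.log 2 N ≤ N := Nat.pow_log_le_self 2 (by omega)
    have h6 : ((2 : ℝ) ^ Nat.log 2 N) ≤ N := by exact_mod_cast h5
    have h7 : Real.log ((2 : ℝ) ^ Nat.log 2 N) ≤ Real.log N := Real.log_le_log (by positivity) h6
    rw [Real.log_pow] at h7
    have h8 := Real.log_two_gt_d9
    have h9 : (Nat.log 2 N : ℝ) * 0.5 ≤ (Nat.log 2 N : ℝ) * Real.log 2 :=
      mul_le_mul_of_nonneg_left (by linarith) (Nat.cast_nonneg _)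
    rw [hi]
    push_cast
    linarith
  have h5 : Real.log i ≤ 2 + u := by
    calc Real.log i ≤ Real.log (4 * Real.log N) := Real.log_le_log hi0 h4
      _ = Real.log 4 + u := Real.log_mul (by norm_num) (by linarith)
      _ ≤ 2 + u := by
          have h6 : Real.log 4 = 2 * Real.log 2 := by
            rw [show (4 : ℝ) = 2 ^ 2 by norm_num, Real.log_pow]
            norm_num
          have h8 := Real.log_two_lt_d9
          linarith
  have hlogi : 0 ≤ Real.log i := Real.log_natCast_nonneg _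
  have e1 : Real.log (1 / (1 / i ^ 2)) = 2 * Real.log i := by
    rw [one_div_one_div, Real.log_pow]
    norm_num
  have e2 : (2 + Real.log i + Real.log (1 / (1 / i ^ 2))) / (1 / ((q : ℝ) + 1)) = (2 + 3 * Real.log i) * ((q : ℝ) + 1) := by
    rw [e1, div_div_eq_mul_div, div_one]
    ring
  rw [e2]
  have hq : (0 : ℝ) < (q : ℝ) + 1 := by positivity
  have h6 : (2 + 3 * Real.log i) * ((q : ℝ) + 1) ≤ 11 * ((q : ℝ) + 1) * u := by
    have h7 : 2 + 3 * Real.log i ≤ 11 * u := by linarith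
    calc (2 + 3 * Real.log i) * ((q : ℝ) + 1) ≤ 11 * u * ((q : ℝ) + 1) := mul_le_mul_of_nonneg_right h7 hq.le
      _ = _ := by ring
  calc ((2 + 3 * Real.log i) * ((q : ℝ) + 1)) ^ C ≤ (11 * ((q : ℝ) + 1) * u) ^ C :=
        pow_le_pow_left₀ (by positivity) h6 C
    _ = (11 * ((q : ℝ) + 1)) ^ C * u ^ C := mul_pow _ _ _
    _ ≤ u * u ^ C := mul_le_mul_of_nonneg_right hu2 (by positivity)
    _ = u ^ (C + 1) := by ring

/-- **the theorem** -/
theorem few (k m : ℕ) : ∃ C : ℕ, ∀ (X : Type u) [MeasurableSpace X] (μ : Measure X) [IsProbabilityMeasure μ]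
    (T : Fin m → Equiv.Perm X), (∀ i, Measurable ⇑(T i).symm) → (∀ i, MeasurePreserving (⇑(T i)) μ μ) →
    Group.IsNilpotent (Subgroup.closure (Set.range T)) →
    Group.nilpotencyClass (Subgroup.closure (Set.range T)) ≤ k → ∀ f : Fin m → X → ℂ,
      ((∀ j, AEStronglyMeasurable (f j) μ) → (∀ j, ∀ᵐ x ∂μ, ‖f j x‖ ≤ 1) →
        ∀ ε δ : ℝ, 0 < ε → ε ≤ 1 → 0 < δ → δ ≤ 1 → ∀ F : Finset ℕ, F.Nonempty → (∀ n ∈ F, 1 ≤ n) →
          μ {x | ((2 + Real.log (scales F) + Real.log (1 / δ)) / ε) ^ C ≤ (jumps (fun N => avg T f N x) ε F : ℝ)} ≤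
            ENNReal.ofReal δ) ∧
      ((∀ j, MemLp (f j) ∞ μ) → ∀ᵐ x ∂μ, ∀ ε : ℝ, 0 < ε → ∀ᶠ N : ℕ in Filter.atTop,
        (jumps (fun N => avg T f N x) ε (Icc 1 N) : ℝ) ≤ (Real.log (Real.log N)) ^ C) := by
  obtain ⟨C, hC⟩ := cplx_tail.{u} k m
  refine ⟨C + 1, ?_⟩
  intro X _ μ _ T hs hT hnil hk f
  set H := Subgroup.closure (Set.range T) with hH
  have hMP : H ≤ MP μ := closure_le_MP hs hT
  -- versions
  have hver : ∀ f f' : Fin m → X → ℂ, (∀ j, f j =ᵐ[μ] f' j) → ∀ᵐ x ∂μ, ∀ N, avg T f N x = avg T f' N x := by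
    intro f f' h
    have hae : ∀ᵐ x ∂μ, ∀ (n : ℤ) (j : Fin m), f j ((T j ^ n) x) = f' j ((T j ^ n) x) := by
      rw [ae_all_iff]
      intro n
      rw [ae_all_iff]
      intro j
      have h1 : MeasurePreserving (⇑(T j ^ n)) μ μ := (hMP (H.zpow_mem (Subgroup.subset_closure ⟨j, rfl⟩) n)).1
      exact h1.quasiMeasurePreserving.ae (h j)
    filter_upwards [hae] with x hx N
    simp only [avg, hx]
  constructor
  · intro hf hf1 ε δ hε hε1 hδ hδ1 F hF0 hF
    choose f' hf'm hf'1 hff' using fun j => exists_version (hf j) zero_le_one (hf1 j)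
    have h1 := hC X μ T hs hT hnil hk f' hf'm hf'1 ε δ hε hε1 hδ hδ1 F hF0 hF
    have h2 : μ {x | ((2 + Real.log (scales F) + Real.log (1 / δ)) / ε) ^ C ≤
        (jumps (fun N => avg T f' N x) ε F : ℝ)} ≤ ENNReal.ofReal δ := by
      rw [← ENNReal.ofReal_toReal (measure_ne_top μ _)]
      exact ENNReal.ofReal_le_ofReal h1
    refine le_trans (measure_mono_ae ?_) h2
    filter_upwards [hver f f' hff'] with x hx hx2
    have hx2' : ((2 + Real.log (scales F) + Real.log (1 / δ)) / ε) ^ (C + 1) ≤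
      (jumps (fun N => avg T f N x) ε F : ℝ) := hx2
    show ((2 + Real.log (scales F) + Real.log (1 / δ)) / ε) ^ C ≤ (jumps (fun N => avg T f' N x) ε F : ℝ)
    simp only [hx] at hx2'
    refine le_trans ?_ hx2'
    refine pow_le_pow_right₀ ?_ (Nat.le_succ C)
    have hs1 : 1 ≤ scales F := by
      rw [scales, Nat.succ_le_iff, card_pos]
      exact hF0.image _
    have := Yy_two (k := scales F) (ε := ε) (δ := δ) ⟨hs1, hε, hε1, hδ, hδ1⟩
    rw [Yy] at this
    linarith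
  · intro hf
    choose f' hf'm hf'1 hff' using fun j => exists_version (hf j).1 ENNReal.toReal_nonneg (ae_bound_of_memLp (hf j))
    -- normalisation
    set B : ℝ := 1 + ∑ j, (eLpNorm (f j) ∞ μ).toReal with hB
    have hB1 : 1 ≤ B := by
      have : 0 ≤ ∑ j, (eLpNorm (f j) ∞ μ).toReal := sum_nonneg fun j _ => ENNReal.toReal_nonneg
      linarith
    have hB0 : 0 < B := by linarith
    have hfB : ∀ j x, ‖f' j x‖ ≤ B := by
      intro j x
      have h1 : (eLpNorm (f j) ∞ μ).toReal ≤ ∑ j, (eLpNorm (f j) ∞ μ).toReal :=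
        single_le_sum (f := fun j => (eLpNorm (f j) ∞ μ).toReal) (fun j _ => ENNReal.toReal_nonneg) (mem_univ j)
      linarith [hf'1 j x]
    set h : Fin m → X → ℂ := fun j x => f' j x / (B : ℂ) with hh
    have hhm : ∀ j, Measurable (h j) := fun j => (hf'm j).div_const _
    have hh1 : ∀ j x, ‖h j x‖ ≤ 1 := by
      intro j x
      show ‖f' j x / (B : ℂ)‖ ≤ 1
      rw [norm_div, Complex.norm_real, Real.norm_eq_abs, abs_of_pos hB0, div_le_one hB0]
      exact hfB j x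
    have hBm : (0 : ℝ) < B ^ m := by positivity
    have havg : ∀ N x, avg T f' N x = ((B ^ m : ℝ) : ℂ) * avg T h N x := by
      intro N x
      rw [avg, avg, mul_left_comm]
      congr 1
      rw [mul_sum]
      refine sum_congr rfl fun n _ => ?_
      have e1 : ∏ j, h j ((T j ^ n) x) = (∏ j, f' j ((T j ^ n) x)) / (B : ℂ) ^ m := by
        simp only [hh]
        rw [prod_div_distrib, prod_const, card_univ, Fintype.card_fin]
      rw [e1]
      have hBC : (B : ℂ) ^ m ≠ 0 := by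
        have : (B : ℂ) ≠ 0 := by exact_mod_cast hB0.ne'
        positivity
      push_cast
      field_simp
    -- Borel-Cantelli
    have hbad : ∀ q : ℕ, ∀ᵐ x ∂μ, ∀ᶠ i : ℕ in Filter.atTop, ¬ (((2 + Real.log ((i + 1 : ℕ) : ℝ) +
        Real.log (1 / (1 / ((i + 1 : ℕ) : ℝ) ^ 2))) / (1 / ((q : ℝ) + 1))) ^ C ≤
          (jumps (fun N => avg T h N x) (1 / ((q : ℝ) + 1)) (Icc 1 (2 ^ i)) : ℝ)) := by
      intro q
      have hq : (0 : ℝ) < (q : ℝ) + 1 := by positivity
      have hεq : (0 : ℝ) < 1 / ((q : ℝ) + 1) := by positivity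
      have hεq1 : 1 / ((q : ℝ) + 1) ≤ 1 := by
        rw [div_le_one hq]
        have : (0 : ℝ) ≤ q := Nat.cast_nonneg q
        linarith
      refine ae_eventually_notMem (μ := μ) (s := fun i : ℕ => {x | ((2 + Real.log ((i + 1 : ℕ) : ℝ) +
        Real.log (1 / (1 / ((i + 1 : ℕ) : ℝ) ^ 2))) / (1 / ((q : ℝ) + 1))) ^ C ≤
          (jumps (fun N => avg T h N x) (1 / ((q : ℝ) + 1)) (Icc 1 (2 ^ i)) : ℝ)}) ?_
      have hle : ∀ i : ℕ, μ {x | ((2 + Real.log ((i + 1 : ℕ) : ℝ) +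
          Real.log (1 / (1 / ((i + 1 : ℕ) : ℝ) ^ 2))) / (1 / ((q : ℝ) + 1))) ^ C ≤
          (jumps (fun N => avg T h N x) (1 / ((q : ℝ) + 1)) (Icc 1 (2 ^ i)) : ℝ)} ≤
          ENNReal.ofReal (1 / ((i + 1 : ℕ) : ℝ) ^ 2) := by
        intro i
        have hi0 : (0 : ℝ) < ((i + 1 : ℕ) : ℝ) := by positivity
        have hi1 : (1 : ℝ) ≤ ((i + 1 : ℕ) : ℝ) := by
          exact_mod_cast Nat.succ_le_succ (Nat.zero_le i)
        have hd0 : 0 < 1 / ((i + 1 : ℕ) : ℝ) ^ 2 := by positivity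
        have hd1 : 1 / ((i + 1 : ℕ) : ℝ) ^ 2 ≤ 1 := by
          rw [div_le_one (by positivity)]
          exact one_le_pow₀ hi1
        have hne : (Icc 1 (2 ^ i)).Nonempty := ⟨1, mem_Icc.2 ⟨le_rfl, Nat.one_le_two_pow⟩⟩
        have h1 := hC X μ T hs hT hnil hk h hhm hh1 (1 / ((q : ℝ) + 1)) (1 / ((i + 1 : ℕ) : ℝ) ^ 2) hεq hεq1 hd0 hd1
          (Icc 1 (2 ^ i)) hne (fun n hn => (mem_Icc.1 hn).1)
        rw [← ENNReal.ofReal_toReal (measure_ne_top μ _)]
        refine ENNReal.ofReal_le_ofReal (le_trans ?_ h1)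
        refine measureReal_mono (fun x hx => ?_) (measure_ne_top _ _)
        rw [Set.mem_ofPred_eq] at hx ⊢
        refine le_trans ?_ hx
        have hs1 : 1 ≤ scales (Icc 1 (2 ^ i)) := by
          rw [scales, Nat.succ_le_iff, card_pos]
          exact hne.image _
        have hY := Yy_two (k := scales (Icc 1 (2 ^ i))) (ε := 1 / ((q : ℝ) + 1)) (δ := 1 / ((i + 1 : ℕ) : ℝ) ^ 2)
          ⟨hs1, hεq, hεq1, hd0, hd1⟩
        rw [Yy] at hY
        refine pow_le_pow_left₀ (by linarith) ?_ C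
        refine div_le_div_of_nonneg_right ?_ hεq.le
        have h2 : Real.log (scales (Icc 1 (2 ^ i))) ≤ Real.log ((i + 1 : ℕ) : ℝ) :=
          Real.log_le_log (by exact_mod_cast hs1) (by exact_mod_cast scales_Icc i)
        linarith
      refine ne_top_of_le_ne_top ?_ (ENNReal.tsum_le_tsum hle)
      have hsum : Summable fun i : ℕ => 1 / ((i + 1 : ℕ) : ℝ) ^ 2 :=
        (summable_nat_add_iff 1).2 (Real.summable_one_div_nat_pow.2 (by norm_num))
      rw [← ENNReal.ofReal_tsum_of_nonneg (fun i => by positivity) hsum]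
      exact ENNReal.ofReal_ne_top
    have hbad' := ae_all_iff.2 hbad
    filter_upwards [hbad', hver f f' hff'] with x hx hx' ε hε
    simp only [hx', havg]
    obtain ⟨q, hq⟩ := exists_nat_gt (B ^ m / ε)
    have hq0 : (0 : ℝ) < (q : ℝ) + 1 := by positivity
    have hqε : 1 / ((q : ℝ) + 1) ≤ ε / B ^ m := by
      rw [div_le_div_iff₀ hq0 hBm]
      rw [div_lt_iff₀ hε] at hq
      nlinarith
    have hcomp : Filter.Tendsto (fun N : ℕ => Nat.log 2 N + 1) Filter.atTop Filter.atTop :=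
      Filter.tendsto_atTop_atTop.2 fun b => ⟨2 ^ b, fun a ha =>
        (Nat.le_log_of_pow_le (by norm_num) ha).trans (Nat.le_succ _)⟩
    filter_upwards [hcomp.eventually (hx q), num_ae C q, Filter.eventually_ge_atTop 1] with N h1 h2 h3
    have hne : (Icc 1 N).Nonempty := ⟨1, mem_Icc.2 ⟨le_rfl, h3⟩⟩
    have h4 : jumps (fun N => ((B ^ m : ℝ) : ℂ) * avg T h N x) ε (Icc 1 N) ≤
        jumps (fun N => avg T h N x) (1 / ((q : ℝ) + 1)) (Icc 1 (2 ^ (Nat.log 2 N + 1))) := by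
      refine (jumps_smul hBm (by rw [Complex.norm_real, Real.norm_eq_abs, abs_of_pos hBm]) hne).trans ?_
      refine (jumps_mono_eps hqε hne).trans (jumps_mono_F (fun n hn => ?_) hne)
      rw [mem_Icc] at hn ⊢
      exact ⟨hn.1, hn.2.trans (Nat.lt_pow_succ_log_self (by norm_num) N).le⟩
    have h5 : (jumps (fun N => ((B ^ m : ℝ) : ℂ) * avg T h N x) ε (Icc 1 N) : ℝ) ≤
        (jumps (fun N => avg T h N x) (1 / ((q : ℝ) + 1)) (Icc 1 (2 ^ (Nat.log 2 N + 1))) : ℝ) := by exact_mod_cast h4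
    exact h5.trans ((not_le.1 h1).le.trans h2)

end Pool.FLN
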