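import Pool.Agent.FLN.Fib

set_option autoImplicit false
set_option linter.unusedSectionVars false

/-!
# FLN: the mark of a fibre, test functions
-/

namespace Pool.FLN

open MeasureTheory Finset Pool.JMP

/-- rotation of a sum over residues -/
lemma sum_rot (n c : ℕ) (G : ℕ → ℝ) : ∑ r ∈ range n, G ((r + c) % n) = ∑ r ∈ range n, G r := by
  rcases Nat.eq_zero_or_pos n with rfl | hn
  · simp
  have hi : Set.InjOn (fun r => (r + c) % n) (range n : Set ℕ) := by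
    intro r hr r' hr' h
    rw [coe_range, Set.mem_Iio] at hr hr'
    have h1 : r + c ≡ r' + c [MOD n] := h
    exact Nat.ModEq.eq_of_lt_of_lt (Nat.ModEq.add_right_cancel' c h1) hr hr'
  have hm : ∀ r ∈ range n, (r + c) % n ∈ range n := fun r _ => mem_range.2 (Nat.mod_lt _ hn)
  refine sum_nbij (fun r => (r + c) % n) hm hi ?_ fun r _ => rfl
  exact surjOn_of_injOn_of_card_le (fun r => (r + c) % n) hm hi le_rfl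

namespace Fl

variable {Y : Type*} [MeasurableSpace Y] {ν : Measure Y} {L : ℕ} (P : Fl Y ν L)

/-- the address of the mark of residue `r` -/
def ma (ℓ r : ℕ) (y : Y) : ℕ := ((r : ZMod (2 ^ L)) + (P.A y - P.σ y)).val % 2 ^ ℓ

lemma ma_lt (ℓ r : ℕ) (y : Y) : P.ma ℓ r y < 2 ^ ℓ := Nat.mod_lt _ (by positivity)

lemma ma_f (ℓ r : ℕ) (n : ℤ) (y : Y) : P.ma ℓ r (P.f n y) = P.ma ℓ r y := by
  rw [ma, ma, P.A_f, P.σ_f, sub_sub_sub_cancel_right]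

lemma ma_eq {ℓ : ℕ} (hℓ : ℓ ≤ L) (r : ℕ) (y : Y) : P.ma ℓ r y = (r + (P.A y - P.σ y).val) % 2 ^ ℓ := by
  have hN : NeZero (2 ^ L) := ⟨by positivity⟩
  have hd : 2 ^ ℓ ∣ 2 ^ L := pow_dvd_pow 2 hℓ
  rw [ma, ZMod.val_add, Nat.mod_mod_of_dvd _ hd, ZMod.val_natCast, Nat.add_mod, Nat.mod_mod_of_dvd _ hd,
    ← Nat.add_mod]

/-- the mark -/
def mr (ℓ r : ℕ) (y : Y) : Y := P.pt ℓ y (P.ma ℓ r y)

/-- position of the mark -/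
def hh (ℓ r : ℕ) (y : Y) : ℤ := (P.ma ℓ r y : ℤ) - P.ad ℓ y

lemma mr_eq (ℓ r : ℕ) (y : Y) : P.mr ℓ r y = P.f (-(P.hh ℓ r y)) y := by
  rw [mr, hh, pt, neg_sub]

lemma hh_lt (ℓ r : ℕ) (y : Y) : P.hh ℓ r y < 2 ^ ℓ := by
  have h1 : (P.ma ℓ r y : ℤ) < 2 ^ ℓ := by exact_mod_cast P.ma_lt ℓ r y
  have h2 : (0 : ℤ) ≤ P.ad ℓ y := by positivity
  rw [hh]
  linarith

lemma hh_gt (ℓ r : ℕ) (y : Y) : -(2 ^ ℓ : ℤ) < P.hh ℓ r y := by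
  have h1 : (P.ad ℓ y : ℤ) < 2 ^ ℓ := by exact_mod_cast P.ad_lt ℓ y
  have h2 : (0 : ℤ) ≤ P.ma ℓ r y := by positivity
  rw [hh]
  linarith

lemma ad_pt' {ℓ ℓ' : ℕ} (h : ℓ' ≤ ℓ) (hℓ : ℓ ≤ L) (y : Y) {i : ℕ} (hi : i < 2 ^ ℓ') :
    P.ad ℓ (P.pt ℓ' y i) = P.up ℓ' ℓ y i := by
  rw [← P.pt_up h]
  exact P.ad_pt hℓ y (P.up_lt h y hi)

lemma hh_pt {ℓ ℓ' : ℕ} (h : ℓ' ≤ ℓ) (hℓ : ℓ ≤ L) (r : ℕ) (y : Y) {i : ℕ} (hi : i < 2 ^ ℓ') :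
    P.hh ℓ r (P.pt ℓ' y i) = P.hh ℓ r y + ((P.ad ℓ' y : ℤ) - i) := by
  have h1 := P.ad_up h y i
  have h2 : P.ma ℓ r (P.pt ℓ' y i) = P.ma ℓ r y := P.ma_f ℓ r _ y
  rw [hh, hh, h2, P.ad_pt' h hℓ y hi]
  linarith

lemma mr_pt {ℓ ℓ' : ℕ} (h : ℓ' ≤ ℓ) (hℓ : ℓ ≤ L) (r : ℕ) (y : Y) {i : ℕ} (hi : i < 2 ^ ℓ') :
    P.mr ℓ r (P.pt ℓ' y i) = P.mr ℓ r y := by
  have h2 : P.ma ℓ r (P.pt ℓ' y i) = P.ma ℓ r y := P.ma_f ℓ r _ y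
  rw [mr, mr, h2, ← P.pt_up h, P.pt_pt hℓ y (P.up_lt h y hi)]

lemma inv_mr {ℓ : ℕ} (hℓ : ℓ ≤ L) (r : ℕ) : P.Inv ℓ (P.mr ℓ r) := fun y _ hi => P.mr_pt le_rfl hℓ r y hi

/-- the residue of `σ` and the position of the mark -/
lemma σ_hh {ℓ : ℕ} (hℓ : ℓ ≤ L) (r : ℕ) (y : Y) : (((P.σ y).val : ℤ) + P.hh ℓ r y) % 2 ^ ℓ = (r : ℤ) % 2 ^ ℓ := by
  have hN : NeZero (2 ^ L) := ⟨by positivity⟩
  have hd : (2 : ℤ) ^ ℓ ∣ ((2 ^ L : ℕ) : ℤ) := by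
    push_cast
    exact pow_dvd_pow 2 hℓ
  have h1 : ∀ z : ℤ, (((z : ZMod (2 ^ L)).val : ℤ)) ≡ z [ZMOD 2 ^ ℓ] := by
    intro z
    rw [ZMod.val_intCast]
    exact Int.emod_emod_of_dvd _ hd
  have h2 : (P.ma ℓ r y : ℤ) ≡ (r : ℤ) + (((P.A y).val : ℤ) - (P.σ y).val) [ZMOD 2 ^ ℓ] := by
    have e : (r : ZMod (2 ^ L)) + (P.A y - P.σ y) = (((r : ℤ) + (((P.A y).val : ℤ) - (P.σ y).val) : ℤ) : ZMod (2 ^ L)) := by
      push_cast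
      rw [ZMod.natCast_zmod_val, ZMod.natCast_zmod_val]
    have h3 := h1 ((r : ℤ) + (((P.A y).val : ℤ) - (P.σ y).val))
    rw [← e] at h3
    refine Int.ModEq.trans ?_ h3
    rw [ma]
    push_cast
    exact Int.mod_modEq _ _
  have h3 : (P.ad ℓ y : ℤ) ≡ (P.A y).val [ZMOD 2 ^ ℓ] := by
    rw [ad]
    push_cast
    exact Int.mod_modEq _ _
  have h4 : ((P.σ y).val : ℤ) + P.hh ℓ r y ≡ ((P.σ y).val : ℤ) + (((r : ℤ) + (((P.A y).val : ℤ) - (P.σ y).val)) -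
      (P.A y).val) [ZMOD 2 ^ ℓ] := (Int.ModEq.refl _).add (h2.sub h3)
  have e : ((P.σ y).val : ℤ) + (((r : ℤ) + (((P.A y).val : ℤ) - (P.σ y).val)) - (P.A y).val) = r := by ring
  rw [e] at h4
  exact h4

lemma ma_meas (ℓ r : ℕ) : Measurable (P.ma ℓ r) := by
  have h : Measurable fun p : ZMod (2 ^ L) × ZMod (2 ^ L) => ((r : ZMod (2 ^ L)) + (p.1 - p.2)).val % 2 ^ ℓ :=
    measurable_of_countable _
  exact h.comp (P.Am.prodMk P.σm)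

lemma hh_meas (ℓ r : ℕ) : Measurable (P.hh ℓ r) := (int_meas (P.ma_meas ℓ r)).sub (int_meas (P.ad_meas ℓ))

lemma mr_meas (ℓ r : ℕ) : Measurable (P.mr ℓ r) := by
  have h := eval_meas (F := fun n y => P.f n y) (fun n => (P.mp n).measurable) (P.hh_meas ℓ r).neg
  have e : P.mr ℓ r = fun y => P.f (-(P.hh ℓ r y)) y := funext fun y => P.mr_eq ℓ r y
  rw [e]
  exact h

/-- the test function -/
def Ut (Ψ : ℤ → Y → ℝ) (ℓ r : ℕ) (y : Y) : ℝ := Ψ (P.hh ℓ r y) (P.mr ℓ r y)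

/-- the average against `Ψ` -/
noncomputable def TT (Ψ : ℤ → Y → ℝ) (ℓ : ℕ) (R : Y → ℝ) (z : Y) : ℝ :=
  ((2 : ℝ) ^ ℓ)⁻¹ * ∑ i ∈ range (2 ^ ℓ), R (P.pt ℓ z i) * Ψ ((P.ad ℓ z : ℤ) - i) z

/-- the process of a test function -/
noncomputable def QQ (Ψ : ℤ → Y → ℝ) (o : ℕ × ℕ) (ℓ : ℕ) (y : Y) : ℝ :=
  ((2 : ℝ) ^ ℓ)⁻¹ * ∑ i ∈ range (2 ^ ℓ), Ψ (P.hh o.1 o.2 y + ((P.ad ℓ y : ℤ) - i)) (P.mr o.1 o.2 y) *
    Ψ ((P.ad ℓ y : ℤ) - i) y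

lemma TT_Ut (Ψ : ℤ → Y → ℝ) {ℓ ℓ' : ℕ} (h : ℓ' ≤ ℓ) (hℓ : ℓ ≤ L) (r : ℕ) (y : Y) :
    P.TT Ψ ℓ' (P.Ut Ψ ℓ r) y = P.QQ Ψ (ℓ, r) ℓ' y := by
  rw [TT, QQ]
  congr 1
  refine sum_congr rfl fun i hi => ?_
  rw [mem_range] at hi
  rw [Ut, P.hh_pt h hℓ r y hi, P.mr_pt h hℓ r y hi]

/-- **duality** -/
lemma PP_Ut (Ψ : ℤ → Y → ℝ) {ℓ : ℕ} (hℓ : ℓ ≤ L) (r : ℕ) (R : Y → ℝ) (y : Y) :
    P.PP ℓ (fun y => R y * P.Ut Ψ ℓ r y) y = P.TT Ψ ℓ R (P.mr ℓ r y) := by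
  have h1 : P.ad ℓ (P.mr ℓ r y) = P.ma ℓ r y := P.ad_pt hℓ y (P.ma_lt ℓ r y)
  have h2 : ∀ i, P.pt ℓ (P.mr ℓ r y) i = P.pt ℓ y i := fun i => P.pt_pt hℓ y (P.ma_lt ℓ r y) i
  rw [PP, TT]
  congr 1
  refine sum_congr rfl fun i hi => ?_
  rw [mem_range] at hi
  rw [h1, h2, Ut, P.mr_pt le_rfl hℓ r y hi, P.hh_pt le_rfl hℓ r y hi, hh]
  congr 2
  ring

variable {Ψ : ℤ → Y → ℝ}

lemma Ut_meas (hΨ : ∀ n, U1 (Ψ n)) (ℓ r : ℕ) : U1 (P.Ut Ψ ℓ r) := by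
  refine ⟨?_, fun y => (hΨ _).2 _⟩
  have h : Measurable fun p : ℤ × Y => Ψ p.1 p.2 := measurable_from_prod_countable_right fun n => (hΨ n).1
  exact h.comp ((P.hh_meas ℓ r).prodMk (P.mr_meas ℓ r))

lemma TT_meas (hΨ : ∀ n, U1 (Ψ n)) (ℓ : ℕ) {R : Y → ℝ} (hR : Measurable R) : Measurable (P.TT Ψ ℓ R) := by
  refine (Finset.measurable_sum _ fun i _ => (hR.comp (P.pt_meas ℓ i)).mul ?_).const_mul _
  exact eval_meas (F := Ψ) (fun n => (hΨ n).1) ((int_meas (P.ad_meas ℓ)).sub_const _)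

lemma TT_add (ℓ : ℕ) (R R' : Y → ℝ) (z : Y) : P.TT Ψ ℓ (fun y => R y + R' y) z = P.TT Ψ ℓ R z + P.TT Ψ ℓ R' z := by
  rw [TT, TT, TT, ← mul_add, ← sum_add_distrib]
  congr 1
  exact sum_congr rfl fun i _ => by ring

lemma TT_smul (ℓ : ℕ) (c : ℝ) (R : Y → ℝ) (z : Y) : P.TT Ψ ℓ (fun y => c * R y) z = c * P.TT Ψ ℓ R z := by
  rw [TT, TT, mul_left_comm, mul_sum (a := c)]
  congr 1
  exact sum_congr rfl fun i _ => by ring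

lemma TT_sub (ℓ : ℕ) (R R' : Y → ℝ) (z : Y) : P.TT Ψ ℓ (fun y => R y - R' y) z = P.TT Ψ ℓ R z - P.TT Ψ ℓ R' z := by
  rw [TT, TT, TT, ← mul_sub, ← sum_sub_distrib]
  congr 1
  exact sum_congr rfl fun i _ => by ring

lemma TT_zero (ℓ : ℕ) (z : Y) : P.TT Ψ ℓ (fun _ => 0) z = 0 := by
  rw [TT]
  simp

lemma TT_congr {ℓ : ℕ} {R R' : Y → ℝ} {z : Y} (h : ∀ i < 2 ^ ℓ, R (P.pt ℓ z i) = R' (P.pt ℓ z i)) :
    P.TT Ψ ℓ R z = P.TT Ψ ℓ R' z := by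
  rw [TT, TT]
  congr 1
  exact sum_congr rfl fun i hi => by rw [h i (mem_range.1 hi)]

variable [IsProbabilityMeasure ν]

/-- **choice of the mark** -/
lemma exists_mark {ℓ : ℕ} (hℓ : ℓ ≤ L) {E : Set Y} (hE : MeasurableSet E) :
    ∃ r < 2 ^ ℓ, ν.real E ≤ ν.real {y | P.mr ℓ r y ∈ E} := by
  classical
  set F : Y → ℝ := E.indicator 1 with hF
  have hFm : Measurable F := measurable_one.indicator hE
  have hFb : ∀ y, |F y| ≤ 1 := fun y => by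
    rw [hF, Set.indicator_apply]
    split_ifs <;> simp
  have h1 : ∀ r, ∫ y, F (P.mr ℓ r y) ∂ν = ν.real {y | P.mr ℓ r y ∈ E} := by
    intro r
    have hm : MeasurableSet {y | P.mr ℓ r y ∈ E} := (P.mr_meas ℓ r) hE
    have e : (fun y => F (P.mr ℓ r y)) = ({y | P.mr ℓ r y ∈ E} : Set Y).indicator 1 := by
      funext y
      rw [hF, Set.indicator_apply, Set.indicator_apply]
      rfl
    rw [e, integral_indicator_one hm]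
  have h2 : ∫ y, F y ∂ν = ν.real E := by
    rw [hF, integral_indicator_one hE]
  have h3 : ∀ y, ∑ r ∈ range (2 ^ ℓ), F (P.mr ℓ r y) = 2 ^ ℓ * P.PP ℓ F y := by
    intro y
    have e : ∀ r, F (P.mr ℓ r y) = (fun i => F (P.pt ℓ y i)) ((r + (P.A y - P.σ y).val) % 2 ^ ℓ) := by
      intro r
      rw [mr, P.ma_eq hℓ]
    rw [sum_congr rfl fun r _ => e r]
    refine (sum_rot (2 ^ ℓ) (P.A y - P.σ y).val (fun i => F (P.pt ℓ y i))).trans ?_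
    rw [PP, mul_inv_cancel_left₀ (by positivity)]
  have hint : ∀ r, Integrable (fun y => F (P.mr ℓ r y)) ν := fun r =>
    intg (C := 1) (hFm.comp (P.mr_meas ℓ r)) fun y => hFb _
  have h4 : ∑ r ∈ range (2 ^ ℓ), ν.real {y | P.mr ℓ r y ∈ E} = ∑ _r ∈ range (2 ^ ℓ), ν.real E := by
    calc ∑ r ∈ range (2 ^ ℓ), ν.real {y | P.mr ℓ r y ∈ E} = ∑ r ∈ range (2 ^ ℓ), ∫ y, F (P.mr ℓ r y) ∂ν :=
          sum_congr rfl fun r _ => (h1 r).symm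
      _ = ∫ y, ∑ r ∈ range (2 ^ ℓ), F (P.mr ℓ r y) ∂ν := (integral_finsetSum _ fun r _ => hint r).symm
      _ = ∫ y, 2 ^ ℓ * P.PP ℓ F y ∂ν := integral_congr_ae (Filter.Eventually.of_forall h3)
      _ = 2 ^ ℓ * ν.real E := by rw [integral_const_mul, P.int_PP hℓ hFm hFb, h2]
      _ = ∑ _r ∈ range (2 ^ ℓ), ν.real E := by
          rw [sum_const, card_range, nsmul_eq_mul]
          push_cast
          rfl
  obtain ⟨r, hr, h5⟩ := exists_le_of_sum_le (s := range (2 ^ ℓ)) (nonempty_range_iff.2 (by positivity)) h4.ge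
  exact ⟨r, mem_range.1 hr, h5⟩

end Fl

end Pool.FLN
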