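import Pool.Agent.JMP.Cx
import Pool.Agent.Nil.NilSeq

set_option autoImplicit false

/-!
# FLN: the tree of star systems of linear sequences in a nilpotent group

`CL χ c L`: the system `L` is reduced to constants by `c` star reductions whose pivots are powers `n ↦ V^n` of elements
with `χ V = 1`.  `cl_of_elts`: every list of `n` elements with `χ = 1` of a nilpotent group satisfies `CL χ t` with
`t = t (n, class)`.  Proof: if `V⁻¹ W ∈ F i` then `W' = c⁻¹ W c`, `c = W^h V^(-h)`, satisfies `W⁻¹ W' ∈ F (i + 1)`.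
-/

namespace Pool.FLN

open Pool.Nil Pool.JMP

variable {G : Type*} [Group G]

/-- powers -/
def pw (V : G) : ℤ → G := fun n => V ^ n

/-- `c` reductions with linear pivots of clock `1` lead to constants -/
inductive CL (χ : G →* Multiplicative ℤ) : ℕ → List (ℤ → G) → Prop
  | base {c : ℕ} : CL χ c []
  | emb {c : ℕ} {L L' : List (ℤ → G)} : Emb L L' → CL χ c L' → CL χ c L
  | step {c : ℕ} {V : G} {M : List (ℤ → G)} : χ V = Multiplicative.ofAdd 1 →
      (∀ h, CL χ c (M ++ M.map (cpy (pw V) h))) → CL χ (c + 1) (pw V :: M)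

/-- the elements of clock `1` -/
abbrev EE (χ : G →* Multiplicative ℤ) : Type _ := {V : G // χ V = Multiplicative.ofAdd 1}

variable {χ : G →* Multiplicative ℤ}

/-- conjugated element -/
def cj (V : EE χ) (h : ℤ) (W : EE χ) : EE χ :=
  ⟨(W.1 ^ h * (V.1 ^ h)⁻¹)⁻¹ * W.1 * (W.1 ^ h * (V.1 ^ h)⁻¹), by
    rw [map_mul, map_mul, map_inv, map_mul, map_inv, map_zpow, map_zpow, W.2, V.2]
    simp⟩

/-- lists of powers -/
def lp (L : List (EE χ)) : List (ℤ → G) := L.map fun V => pw V.1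

lemma cpy_pw (V W : EE χ) (h : ℤ) : LC (cpy (pw V.1) h (pw W.1)) (pw (cj V h W).1) := by
  refine ⟨W.1 ^ h * (V.1 ^ h)⁻¹, fun n => ?_⟩
  have e : ∀ (c W : G) (n : ℤ), c * (c⁻¹ * W * c) ^ n = W ^ n * c := by
    intro c W n
    have h1 : (c⁻¹ * W * c) ^ n = c⁻¹ * W ^ n * c := by
      have := conj_zpow (a := c⁻¹) (b := W) (i := n)
      rw [inv_inv] at this
      exact this
    rw [h1]
    group
  show W.1 ^ (n + h) * (V.1 ^ (n + h))⁻¹ * V.1 ^ n = _ * (_ ^ n)
  rw [cj, e, zpow_add, add_comm n h, zpow_add V.1]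
  group

lemma CL.sub {c : ℕ} {L L' : List (EE χ)} (h : CL χ c (lp L')) (hs : ∀ g ∈ L, g ∈ L') : CL χ c (lp L) := by
  refine CL.emb (emb_of_sub fun g hg => ?_) h
  rw [lp, List.mem_map] at hg
  obtain ⟨V, hV, rfl⟩ := hg
  exact List.mem_cons_of_mem _ (List.mem_map.2 ⟨V, hs V hV, rfl⟩)

/-- the step for lists of elements -/
lemma CL.stepE {c : ℕ} {V : EE χ} {M : List (EE χ)} (h : ∀ h, CL χ c (lp (M ++ M.map (cj V h)))) :
    CL χ (c + 1) (lp (V :: M)) := by
  refine CL.step V.2 fun t => CL.emb ?_ (h t)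
  intro g hg
  rw [List.mem_append] at hg
  rcases hg with hg | hg
  · refine ⟨g, ?_, LC.refl g⟩
    rw [List.mem_map] at hg
    obtain ⟨W, hW, rfl⟩ := hg
    exact List.mem_cons_of_mem _ (List.mem_map.2 ⟨W, List.mem_append_left _ hW, rfl⟩)
  · rw [List.mem_map] at hg
    obtain ⟨q, hq, rfl⟩ := hg
    rw [List.mem_map] at hq
    obtain ⟨W, hW, rfl⟩ := hq
    exact ⟨pw (cj V t W).1, List.mem_cons_of_mem _ (List.mem_map.2 ⟨cj V t W,
      List.mem_append_right _ (List.mem_map.2 ⟨W, hW, rfl⟩), rfl⟩), cpy_pw V W t⟩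

variable {F : ℕ → Subgroup G}

lemma normal_of (hF : Filt F) (h0 : F 0 = ⊤) {i : ℕ} {x : G} (hx : x ∈ F i) (g : G) : g * x * g⁻¹ ∈ F i := by
  have h1 := hF.comm 0 i g (by rw [h0]; exact Subgroup.mem_top _) x hx
  rw [zero_add] at h1
  have h2 := mul_mem h1 hx
  rwa [inv_mul_cancel_right] at h2

/-- same coset -/
def RelE (F : ℕ → Subgroup G) (i : ℕ) (V W : EE χ) : Prop := V.1⁻¹ * W.1 ∈ F i

lemma RelE.refl (i : ℕ) (V : EE χ) : RelE F i V V := by
  rw [RelE, inv_mul_cancel]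
  exact one_mem _

lemma RelE.symm {i : ℕ} {V W : EE χ} (h : RelE F i V W) : RelE F i W V := by
  have := inv_mem h
  rwa [mul_inv_rev, inv_inv] at this

lemma RelE.trans {i : ℕ} {V W Z : EE χ} (h : RelE F i V W) (h' : RelE F i W Z) : RelE F i V Z := by
  have := mul_mem h h'
  rwa [mul_assoc, mul_inv_cancel_left] at this

lemma RelE.mono (hF : Filt F) {i j : ℕ} (hij : i ≤ j) {V W : EE χ} (h : RelE F j V W) : RelE F i V W :=
  hF.le hij h

lemma RelE.top {s : ℕ} (hs : F s = ⊥) {V W : EE χ} (h : RelE F s V W) : V = W := by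
  rw [RelE, hs, Subgroup.mem_bot, inv_mul_eq_one] at h
  exact Subtype.ext h

lemma pow_rel (hF : Filt F) (h0 : F 0 = ⊤) {i : ℕ} {V W : G} (h : V⁻¹ * W ∈ F i) : ∀ n : ℕ, (V ^ n)⁻¹ * W ^ n ∈ F i := by
  intro n
  induction n with
  | zero => simp
  | succ n ih =>
    have e : (V ^ (n + 1))⁻¹ * W ^ (n + 1) = V⁻¹ * ((V ^ n)⁻¹ * W ^ n) * V * (V⁻¹ * W) := by
      rw [pow_succ, pow_succ]
      group
    rw [e]
    refine mul_mem ?_ h
    have := normal_of hF h0 ih V⁻¹
    rwa [inv_inv] at this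

lemma zpow_rel (hF : Filt F) (h0 : F 0 = ⊤) {i : ℕ} {V W : G} (h : V⁻¹ * W ∈ F i) (n : ℤ) :
    (V ^ n)⁻¹ * W ^ n ∈ F i := by
  obtain ⟨k, rfl | rfl⟩ := Int.eq_nat_or_neg n
  · simpa using pow_rel hF h0 h k
  · have h1 := pow_rel hF h0 h k
    have h2 := normal_of hF h0 (inv_mem h1) (V ^ k)
    have e : (V ^ (-(k : ℤ)))⁻¹ * W ^ (-(k : ℤ)) = V ^ k * ((V ^ k)⁻¹ * W ^ k)⁻¹ * (V ^ k)⁻¹ := by
      rw [zpow_neg, zpow_neg, zpow_natCast, zpow_natCast]
      group
    rw [e]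
    exact h2

/-- **a copy is closer than the pivot** -/
lemma RelE.cj (hF : Filt F) (h1 : F 1 = ⊤) (h0 : F 0 = ⊤) {i : ℕ} {V W : EE χ} (h : RelE F i V W) (t : ℤ) :
    RelE F (i + 1) W (cj V t W) := by
  have h2 : W.1 ^ t * (V.1 ^ t)⁻¹ ∈ F i := by
    have h3 := normal_of hF h0 (zpow_rel hF h0 h t) (V.1 ^ t)
    have e : V.1 ^ t * ((V.1 ^ t)⁻¹ * W.1 ^ t) * (V.1 ^ t)⁻¹ = W.1 ^ t * (V.1 ^ t)⁻¹ := by group
    rwa [e] at h3
  have h4 := hF.comm 1 i W.1⁻¹ (by rw [h1]; exact Subgroup.mem_top _) _ (inv_mem h2)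
  rw [RelE, Pool.FLN.cj, add_comm i 1]
  have e : W.1⁻¹ * ((W.1 ^ t * (V.1 ^ t)⁻¹)⁻¹ * W.1 * (W.1 ^ t * (V.1 ^ t)⁻¹)) =
      W.1⁻¹ * (W.1 ^ t * (V.1 ^ t)⁻¹)⁻¹ * W.1⁻¹⁻¹ * (W.1 ^ t * (V.1 ^ t)⁻¹)⁻¹⁻¹ := by group
  rw [e]
  exact h4

/-- `q'` is derived from `q` -/
def DerE (F : ℕ → Subgroup G) (j : ℕ) (q0 q q' : EE χ) : Prop := ∀ i ≤ j, RelE F i q q0 → RelE F (i + 1) q q'

lemma DerE.self {j : ℕ} {q0 q : EE χ} : DerE F j q0 q q := fun _ _ _ => RelE.refl _ _

lemma DerE.trans (hF : Filt F) {j : ℕ} {q0 q q' q'' : EE χ} (h : DerE F j q0 q q')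
    (h' : DerE F j q0 q' q'') : DerE F j q0 q q'' := by
  intro i hi hr
  have h1 := h i hi hr
  have h2 : RelE F i q' q0 := (h1.mono hF (Nat.le_succ i)).symm.trans hr
  exact h1.trans (h' i hi h2)

lemma DerE.base (hF : Filt F) {j j' : ℕ} (hj : j ≤ j') {q0 q1 q q' : EE χ} (h1 : RelE F j q1 q0)
    (h : DerE F j' q1 q q') : DerE F j q0 q q' := by
  intro i hi hr
  exact h i (hi.trans hj) (hr.trans (h1.mono hF hi).symm)

lemma DerE.of_cj (hF : Filt F) (h1 : F 1 = ⊤) (h0 : F 0 = ⊤) {j : ℕ} {q1 q : EE χ} (t : ℤ) :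
    DerE F j q1 q (cj q1 t q) := by
  intro i _ hr
  exact hr.symm.cj hF h1 h0 t

/-- the class of `q0` of level `j` is reduced to `q0` -/
def BSE (χ : G →* Multiplicative ℤ) (F : ℕ → Subgroup G) (j n t b : ℕ) : Prop :=
  ∀ (q0 : EE χ) (Q : List (EE χ)), Q.length ≤ n → (∀ q ∈ Q, RelE F j q q0) → ∀ (R : List (EE χ)) (c : ℕ),
    (∀ φ : EE χ → List (EE χ), (∀ q, (φ q).length ≤ b ∧ ∀ q' ∈ φ q, DerE F j q0 q q') →
      CL χ c (lp (q0 :: R.flatMap φ))) → CL χ (c + t) (lp (q0 :: (Q ++ R)))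

/-- the same, `Q` is in the classes of level `j + 1` of `q0` and of the `r` representatives `S` -/
def BRE (χ : G →* Multiplicative ℤ) (F : ℕ → Subgroup G) (j n r t b : ℕ) : Prop :=
  ∀ (q0 : EE χ) (S : List (EE χ)), S.length = r → (∀ s ∈ S, RelE F j s q0) →
    ∀ Q : List (EE χ), Q.length ≤ n → (∀ q ∈ Q, ∃ s ∈ q0 :: S, RelE F (j + 1) q s) → ∀ (R : List (EE χ)) (c : ℕ),
    (∀ φ : EE χ → List (EE χ), (∀ q, (φ q).length ≤ b ∧ ∀ q' ∈ φ q, DerE F j q0 q q') →
      CL χ c (lp (q0 :: R.flatMap φ))) → CL χ (c + t) (lp (q0 :: (Q ++ R)))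

lemma BSE_top {s : ℕ} (hs : F s = ⊥) (n : ℕ) : BSE χ F s n 0 1 := by
  intro q0 Q _ hQ R c hc
  have h1 := hc (fun q => [q]) (fun q => ⟨by simp, fun q' hq' => by
    rw [List.mem_singleton] at hq'
    rw [hq']
    exact DerE.self⟩)
  refine h1.sub ?_
  intro g hg
  rw [List.mem_cons, List.mem_append] at hg
  rcases hg with rfl | hg | hg
  · simp
  · rw [(hQ g hg).top hs]
    simp
  · simp [hg]

lemma BRE_zero {j n t b : ℕ} (h : BSE χ F (j + 1) n t b) : BRE χ F j n 0 t b := by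
  intro q0 S hS _ Q hQ hQS R c hc
  have hS0 : S = [] := List.eq_nil_of_length_eq_zero hS
  subst hS0
  refine h q0 Q hQ (fun q hq => ?_) R c (fun φ hφ => hc φ fun q => ⟨(hφ q).1, fun q' hq' => ?_⟩)
  · obtain ⟨s, hs, hr⟩ := hQS q hq
    rw [List.mem_singleton] at hs
    rwa [hs] at hr
  · intro i hi
    exact (hφ q).2 q' hq' i (hi.trans (Nat.le_succ j))

lemma BRE_succ (hF : Filt F) (h1F : F 1 = ⊤) (h0 : F 0 = ⊤) {j n r t1 b1 t2 b2 : ℕ} (h1 : BSE χ F (j + 1) n t1 b1)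
    (h2 : BRE χ F j ((n + 1) * (2 * b1 + 1)) r t2 b2) :
    BRE χ F j n (r + 1) (t1 + 1 + t2) (b2 + (2 * b1 + 1) * b2) := by
  classical
  intro q0 S hS hSr Q hQ hQS R c hc
  obtain ⟨q1, S', rfl⟩ : ∃ q1 S', S = q1 :: S' := by
    cases S with
    | nil => simp at hS
    | cons q1 S' => exact ⟨q1, S', rfl⟩
  have hq1 : RelE F j q1 q0 := hSr q1 (by simp)
  set Q1 := Q.filter (fun q => decide (RelE F (j + 1) q q1)) with hQ1
  set Qr := Q.filter (fun q => !decide (RelE F (j + 1) q q1)) with hQr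
  have hQrS : ∀ q ∈ Qr, ∃ s ∈ q0 :: S', RelE F (j + 1) q s := by
    intro q hq
    rw [hQr, List.mem_filter] at hq
    obtain ⟨hq, hn⟩ := hq
    simp only [Bool.not_eq_eq_eq_not, Bool.not_true, decide_eq_false_iff_not] at hn
    obtain ⟨s, hs, hr⟩ := hQS q hq
    rw [List.mem_cons, List.mem_cons] at hs
    rcases hs with rfl | rfl | hs
    · exact ⟨s, by simp, hr⟩
    · exact absurd hr hn
    · exact ⟨s, by simp [hs], hr⟩
  have hQr0 : ∀ q ∈ q0 :: Qr, RelE F j q q0 := by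
    intro q hq
    rw [List.mem_cons] at hq
    rcases hq with rfl | hq
    · exact RelE.refl _ _
    · obtain ⟨s, hs, hr⟩ := hQrS q hq
      have hs0 : RelE F j s q0 := by
        rw [List.mem_cons] at hs
        rcases hs with rfl | hs
        · exact RelE.refl _ _
        · exact hSr s (by simp [hs])
      exact (hr.mono hF (Nat.le_succ j)).trans hs0
  -- first phase
  have key : CL χ ((c + t2 + 1) + t1) (lp (q1 :: (Q1 ++ (q0 :: (Qr ++ R))))) := by
    refine h1 q1 Q1 ((List.length_filter_le _ _).trans hQ) (fun q hq => ?_) _ _ (fun φ hφ => ?_)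
    · rw [hQ1, List.mem_filter] at hq
      simpa using hq.2
    refine CL.stepE fun h => ?_
    set ψ : EE χ → List (EE χ) := fun q => φ q ++ (q :: φ q).map (cj q1 h) with hψ
    have hψl : ∀ q, (ψ q).length ≤ 2 * b1 + 1 := by
      intro q
      have := (hφ q).1
      simp only [hψ, List.length_append, List.length_map, List.length_cons]
      omega
    have hψd : ∀ q, ∀ q' ∈ ψ q, DerE F (j + 1) q1 q q' := by
      intro q q' hq'
      simp only [hψ, List.mem_append, List.mem_map, List.mem_cons] at hq'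
      rcases hq' with hq' | ⟨q'', rfl | hq'', rfl⟩
      · exact (hφ q).2 q' hq'
      · exact DerE.of_cj hF h1F h0 h
      · exact ((hφ q).2 q'' hq'').trans hF (DerE.of_cj hF h1F h0 h)
    have hψd0 : ∀ q, ∀ q' ∈ ψ q, DerE F j q0 q q' := fun q q' hq' =>
      (hψd q q' hq').base hF (Nat.le_succ j) hq1
    set Q' := (q0 :: Qr).flatMap ψ with hQ'
    set R' := R.flatMap ψ with hR'
    have hnew : CL χ (c + t2) (lp (q0 :: (Q' ++ R'))) := by
      refine h2 q0 S' (by simpa using hS) (fun s hs => hSr s (by simp [hs])) Q' ?_ ?_ R' c ?_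
      · refine (length_flatMap_le _ _ hψl).trans (Nat.mul_le_mul_right _ ?_)
        rw [List.length_cons]
        exact Nat.succ_le_succ ((List.length_filter_le _ _).trans hQ)
      · intro q' hq'
        rw [hQ', List.mem_flatMap] at hq'
        obtain ⟨q, hq, hq'⟩ := hq'
        have hd : RelE F (j + 1) q q' := hψd q q' hq' j (Nat.le_succ j)
          ((hQr0 q hq).trans hq1.symm)
        rw [List.mem_cons] at hq
        rcases hq with rfl | hq
        · exact ⟨q, by simp, hd.symm⟩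
        · obtain ⟨s, hs, hr⟩ := hQrS q hq
          exact ⟨s, hs, hd.symm.trans hr⟩
      · intro φ2 hφ2
        have h3 := hc (fun q => φ2 q ++ (ψ q).flatMap φ2) (fun q => ⟨?_, ?_⟩)
        · refine h3.sub ?_
          intro g hg
          rw [List.mem_cons] at hg ⊢
          rcases hg with rfl | hg
          · exact Or.inl rfl
          · right
            rw [List.mem_flatMap] at hg ⊢
            obtain ⟨q', hq', hg⟩ := hg
            rw [hR', List.mem_flatMap] at hq'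
            obtain ⟨q, hq, hq'⟩ := hq'
            exact ⟨q, hq, List.mem_append_right _ (List.mem_flatMap.2 ⟨q', hq', hg⟩)⟩
        · rw [List.length_append]
          refine Nat.add_le_add (hφ2 q).1 ((length_flatMap_le _ _ fun q => (hφ2 q).1).trans
            (Nat.mul_le_mul_right _ (hψl q)))
        · intro q' hq'
          rw [List.mem_append, List.mem_flatMap] at hq'
          rcases hq' with hq' | ⟨q'', hq'', hq'⟩
          · exact (hφ2 q).2 q' hq'
          · exact (hψd0 q q'' hq'').trans hF ((hφ2 q'').2 q' hq')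
    refine hnew.sub ?_
    intro g hg
    have hg' : ∃ q ∈ q0 :: (Qr ++ R), g ∈ ψ q := by
      rw [List.mem_append, List.mem_map] at hg
      rcases hg with hg | ⟨g', hg', rfl⟩
      · rw [List.mem_flatMap] at hg
        obtain ⟨q, hq, hg⟩ := hg
        exact ⟨q, hq, List.mem_append_left _ hg⟩
      · rw [List.mem_flatMap] at hg'
        obtain ⟨q, hq, hg'⟩ := hg'
        exact ⟨q, hq, List.mem_append_right _ (List.mem_map.2 ⟨g', by simp [hg'], rfl⟩)⟩
    obtain ⟨q, hq, hg'⟩ := hg'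
    have : g ∈ Q' ∨ g ∈ R' := by
      rw [List.mem_cons, List.mem_append] at hq
      rcases hq with rfl | hq | hq
      · exact Or.inl (List.mem_flatMap.2 ⟨q, by simp, hg'⟩)
      · exact Or.inl (List.mem_flatMap.2 ⟨q, by simp [hq], hg'⟩)
      · exact Or.inr (List.mem_flatMap.2 ⟨q, by simp [hq], hg'⟩)
    rw [List.mem_cons, List.mem_append]
    exact Or.inr this
  have e : c + (t1 + 1 + t2) = (c + t2 + 1) + t1 := by ring
  rw [e]
  refine key.sub ?_
  intro g hg
  rw [List.mem_cons, List.mem_append] at hg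
  rcases hg with rfl | hg | hg
  · simp
  · by_cases hr : RelE F (j + 1) g q1
    · have : g ∈ Q1 := by
        rw [hQ1, List.mem_filter]
        exact ⟨hg, by simpa using hr⟩
      simp [this]
    · have : g ∈ Qr := by
        rw [hQr, List.mem_filter]
        exact ⟨hg, by simpa using hr⟩
      simp [this]
  · simp [hg]

lemma BSE_of_BRE {j n t b : ℕ} (h : BRE χ F j n n t b) : BSE χ F j n t b := by
  intro q0 Q hQ hQr R c hc
  refine h q0 (Q ++ List.replicate (n - Q.length) q0) ?_ ?_ Q hQ ?_ R c hc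
  · rw [List.length_append, List.length_replicate]
    omega
  · intro s hs
    rw [List.mem_append, List.mem_replicate] at hs
    rcases hs with hs | ⟨_, rfl⟩
    · exact hQr s hs
    · exact RelE.refl _ _
  · intro q hq
    exact ⟨q, by simp [hq], RelE.refl _ _⟩

universe u

theorem exists_BSE (s : ℕ) : ∀ k ≤ s, ∀ n : ℕ, ∃ t b : ℕ, ∀ (G : Type u) [Group G] (χ : G →* Multiplicative ℤ)
    (F : ℕ → Subgroup G), Filt F → F 1 = ⊤ → F 0 = ⊤ → F s = ⊥ → BSE χ F (s - k) n t b := by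
  intro k
  induction k with
  | zero =>
    intro _ n
    exact ⟨0, 1, fun G _ χ F _ _ _ hs => BSE_top hs n⟩
  | succ k ih =>
    intro hk n
    have hk' : k ≤ s := by omega
    have e : s - (k + 1) + 1 = s - k := by omega
    have hr : ∀ r n : ℕ, ∃ t b : ℕ, ∀ (G : Type u) [Group G] (χ : G →* Multiplicative ℤ) (F : ℕ → Subgroup G),
        Filt F → F 1 = ⊤ → F 0 = ⊤ → F s = ⊥ → BRE χ F (s - (k + 1)) n r t b := by
      intro r
      induction r with
      | zero =>
        intro n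
        obtain ⟨t, b, h⟩ := ih hk' n
        refine ⟨t, b, fun G _ χ F hF h1 h0 hs => BRE_zero ?_⟩
        rw [e]
        exact h G χ F hF h1 h0 hs
      | succ r ihr =>
        intro n
        obtain ⟨t1, b1, h1⟩ := ih hk' n
        obtain ⟨t2, b2, h2⟩ := ihr ((n + 1) * (2 * b1 + 1))
        refine ⟨t1 + 1 + t2, b2 + (2 * b1 + 1) * b2, fun G _ χ F hF h1F h0 hs => ?_⟩
        refine BRE_succ hF h1F h0 ?_ (h2 G χ F hF h1F h0 hs)
        rw [e]
        exact h1 G χ F hF h1F h0 hs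
    obtain ⟨t, b, h⟩ := hr n n
    exact ⟨t, b, fun G _ χ F hF h1 h0 hs => BSE_of_BRE (h G χ F hF h1 h0 hs)⟩

/-- a list with one element is reduced by one step -/
lemma cl_single (V : EE χ) : CL χ 1 (lp [V]) := by
  have h : CL χ (0 + 1) (lp (V :: [])) := CL.stepE fun h => by simpa [lp] using (CL.base (χ := χ))
  simpa using h

/-- **finite complexity of lists of elements** -/
theorem cl_of_elts (k n : ℕ) : ∃ t : ℕ, ∀ (G : Type u) [Group G] (χ : G →* Multiplicative ℤ),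
    Group.IsNilpotent G → Group.nilpotencyClass G ≤ k → ∀ L : List G, L.length ≤ n →
      (∀ V ∈ L, χ V = Multiplicative.ofAdd 1) → CL χ t (L.map pw) := by
  obtain ⟨t, b, h⟩ := exists_BSE.{u} (2 * 2 ^ k) (2 * 2 ^ k) le_rfl n
  refine ⟨1 + t, fun G _ χ hnil hk L hl hL => ?_⟩
  have := hnil
  set F := Pool.Lib.PolySeq.lcF G 1 with hFdef
  have hF : Filt F := NilSeq.filt_lcF (G := G) 1
  have h1 : F 1 = ⊤ := NilSeq.lcF_self (G := G) 1
  have h0 : F 0 = ⊤ := top_le_iff.1 (h1 ▸ hF.le (Nat.zero_le 1))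
  have hs : F (2 * 2 ^ k) = ⊥ := by
    rw [hFdef]
    unfold Pool.Lib.PolySeq.lcF
    have e : 2 * 2 ^ k = (1 + 1) * 2 ^ k := rfl
    rw [e, Pool.Lib.PolySeq.ee_big]
    exact Subgroup.lowerCentralSeries_eq_bot_iff_nilpotencyClass_le.2 hk
  rcases L with _ | ⟨V, L⟩
  · exact CL.base
  · have hE : ∃ L' : List (EE χ), L'.length = (V :: L).length ∧ L'.map (fun W => pw W.1) = (V :: L).map pw := by
      refine ⟨(V :: L).attach.map fun W => ⟨W.1, hL W.1 W.2⟩, ?_, ?_⟩
      · rw [List.length_map, List.length_attach]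
      · rw [List.map_map]
        exact List.attach_map_val (l := V :: L) (f := pw)
    obtain ⟨L', hL'l, hL'e⟩ := hE
    obtain ⟨V', M, rfl⟩ : ∃ V' M, L' = V' :: M := by
      cases L' with
      | nil => simp at hL'l
      | cons V' M => exact ⟨V', M, rfl⟩
    have h3 := h G χ F hF h1 h0 hs V' (V' :: M) (by omega) (fun q _ => by
      rw [Nat.sub_self, RelE, h0]
      exact Subgroup.mem_top _) [] 1 (fun φ _ => by simpa using cl_single V')
    have h4 : CL χ (1 + t) (lp (V' :: M)) := h3.sub fun g hg => by simp [hg]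
    rw [lp, hL'e] at h4
    exact h4

end Pool.FLN
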