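import Pool.Agent.FLN.Mach
import Pool.Agent.FLN.Tree
import Pool.Agent.FLU.Num

set_option autoImplicit false
set_option linter.unusedSectionVars false

/-!
# FLN: the induction step
-/

namespace Pool.FLN

open MeasureTheory Finset Pool.JMP Pool.FLU
open scoped ENNReal

/-- the uniform measure -/
noncomputable def unif (L : ℕ) : Measure (ZMod (2 ^ L)) := ((2 ^ L : ℕ) : ℝ≥0∞)⁻¹ • Measure.count

instance (L : ℕ) : NeZero (2 ^ L) := ⟨by positivity⟩

instance unif_prob (L : ℕ) : IsProbabilityMeasure (unif L) := by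
  refine ⟨?_⟩
  rw [unif, Measure.smul_apply, Measure.count_apply MeasurableSet.univ, smul_eq_mul, Set.encard_univ, ENat.card_eq_coe_fintype_card,
    ZMod.card]
  exact ENNReal.inv_mul_cancel (by simp) (by simp)

lemma unif_sub (L : ℕ) (c : ZMod (2 ^ L)) : MeasurePreserving (fun a : ZMod (2 ^ L) => a - c) (unif L) (unif L) :=
  (measurePreserving_sub_right (Measure.count : Measure (ZMod (2 ^ L))) c).smul_measure _

namespace Fl

variable {Y : Type*} [MeasurableSpace Y] {ν : Measure Y} {L : ℕ} (P : Fl Y ν L)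

/-- exchange of the clock and the mark coordinate -/
def swap : Fl Y ν L where
  f := P.f
  f0 := P.f0
  fadd := P.fadd
  mp := P.mp
  A := P.σ
  Am := P.σm
  A_f := P.σ_f
  σ := P.A
  σm := P.Am
  σ_f := P.A_f

lemma ad_prob [IsProbabilityMeasure ν] {ℓ : ℕ} (hℓ : ℓ ≤ L) {t : ℕ} (ht : t < 2 ^ ℓ) :
    ν.real {y | P.ad ℓ y = t} = ((2 : ℝ) ^ ℓ)⁻¹ := by
  classical
  have hm : MeasurableSet {y | P.ad ℓ y = t} := (P.ad_meas ℓ) (measurableSet_singleton t)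
  have h1 := P.int_PP hℓ (F := ({y | P.ad ℓ y = t} : Set Y).indicator 1) (measurable_one.indicator hm) (C := 1) (fun y => by
    rw [Set.indicator_apply]
    split_ifs <;> simp)
  rw [integral_indicator_one hm] at h1
  rw [← h1]
  have h2 : ∀ y, P.PP ℓ (({y | P.ad ℓ y = t} : Set Y).indicator 1) y = ((2 : ℝ) ^ ℓ)⁻¹ := by
    intro y
    have h3 : ∀ i ∈ range (2 ^ ℓ), ({y | P.ad ℓ y = t} : Set Y).indicator (1 : Y → ℝ) (P.pt ℓ y i) = if i = t then 1 else 0 := by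
      intro i hi
      rw [mem_range] at hi
      rw [Set.indicator_apply]
      simp only [Set.mem_ofPred_eq, P.ad_pt hℓ y hi, Pi.one_apply]
    rw [PP, sum_congr rfl h3, sum_ite_eq', if_pos (mem_range.2 ht), mul_one]
  simp only [h2, integral_const, probReal_univ, smul_eq_mul, one_mul]

end Fl

variable {G X : Type*} [Group G] [MulAction G X] [MeasurableSpace X]

/-- a clock -/
structure Clk (X : Type*) [MulAction G X] [MeasurableSpace X] (χ : G →* Multiplicative ℤ) (L : ℕ) where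
  τ : X → ZMod (2 ^ L)
  τm : Measurable τ
  τs : ∀ (g : G) x, τ (g • x) = τ x - ((Multiplicative.toAdd (χ g) : ℤ) : ZMod (2 ^ L))

/-- the averages over the dyadic windows of the clock -/
noncomputable def TL {L : ℕ} (τ : X → ZMod (2 ^ L)) (Φ : ℤ → X → ℝ) (ℓ : ℕ) (x : X) : ℝ :=
  ((2 : ℝ) ^ ℓ)⁻¹ * ∑ i ∈ range (2 ^ ℓ), Φ ((((τ x).val % 2 ^ ℓ : ℕ) : ℤ) - i) x

variable [MeasurableConstSMul G X] {μ : Measure X} [IsProbabilityMeasure μ] [SMulInvariantMeasure G X μ]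
variable {χ : G →* Multiplicative ℤ} {L : ℕ}

/-- the flow of an element -/
def flw (κ : Clk X χ L) (μ : Measure X) [IsProbabilityMeasure μ] [SMulInvariantMeasure G X μ] (V : G)
    (hV : χ V = Multiplicative.ofAdd 1) : Fl (X × ZMod (2 ^ L)) (μ.prod (unif L)) L where
  f n y := (V ^ n • y.1, y.2 - (n : ZMod (2 ^ L)))
  f0 y := by simp
  fadd m n y := by
    refine Prod.ext ?_ ?_
    · show V ^ (m + n) • y.1 = V ^ m • V ^ n • y.1
      rw [zpow_add, mul_smul]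
    · show y.2 - ((m + n : ℤ) : ZMod (2 ^ L)) = y.2 - (n : ZMod (2 ^ L)) - (m : ZMod (2 ^ L))
      push_cast
      ring
  mp n := (measurePreserving_smul (V ^ n) μ).prod (unif_sub L (n : ZMod (2 ^ L)))
  A y := κ.τ y.1
  Am := κ.τm.comp measurable_fst
  A_f n y := by
    rw [κ.τs, map_zpow, hV]
    simp
  σ y := y.2
  σm := measurable_snd
  σ_f n y := rfl

/-- the process relative to a mark -/
def Qh (V : G) (Φ' : ℤ → X → ℝ) (h : ℤ) : ℤ → X → ℝ := fun n x => Φ' (n + h) ((V ^ (-h)) • x) * Φ' n x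

lemma Qh_isP (V : G) {M : List (ℤ → G)} {Φ' : ℤ → X → ℝ} (hΦ : IsP M Φ') (h : ℤ) :
    IsP (M ++ M.map (cpy (pw V) h)) (Qh V Φ' h) := by
  have h1 : IsP (M ++ M.map (cpy (pw V) h)) Φ' := hΦ.mono fun g hg => by simp [hg]
  have h2 : IsP (M ++ M.map (cpy (pw V) h)) (fun n x => Φ' (n + h) (((pw V (n + h))⁻¹ * pw V n) • x)) := by
    refine IsP.emb ?_ (IsP.cpy (pw V) h hΦ)
    intro g hg
    rw [List.map_cons, List.mem_cons] at hg
    rcases hg with rfl | hg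
    · refine ⟨1, by simp, V ^ (-h), fun n => ?_⟩
      show 1 * (V ^ (n + h))⁻¹ * V ^ n = V ^ (-h) * 1
      rw [zpow_add, zpow_neg]
      group
    · exact ⟨g, List.mem_cons_of_mem _ (List.mem_append_right _ hg), LC.refl g⟩
  refine (h2.mul h1).congr fun n x => ?_
  rw [Qh]
  congr 2
  congr 1
  show V ^ (-h) = (V ^ (n + h))⁻¹ * V ^ n
  group

section step

variable (κ : Clk X χ L) {V : G} (hV : χ V = Multiplicative.ofAdd 1)

/-- lift to the product -/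
def lft (Φ : ℤ → X → ℝ) : ℤ → X × ZMod (2 ^ L) → ℝ := fun n y => Φ n y.1

lemma TT_lft (f0 : X → ℝ) (Φ' : ℤ → X → ℝ) (ℓ : ℕ) (y : X × ZMod (2 ^ L)) :
    (flw κ μ V hV).TT (lft Φ') ℓ (fun y => f0 y.1) y = TL κ.τ (fun n x => f0 (pw V n • x) * Φ' n x) ℓ y.1 := rfl

lemma QQ_lft (Φ' : ℤ → X → ℝ) (o : ℕ × ℕ) (ℓ : ℕ) (y : X × ZMod (2 ^ L)) :
    (flw κ μ V hV).QQ (lft Φ') o ℓ y = TL κ.τ (Qh V Φ' ((flw κ μ V hV).hh o.1 o.2 y)) ℓ y.1 := by
  rw [Fl.QQ, TL]
  congr 1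
  refine sum_congr rfl fun i _ => ?_
  rw [Fl.mr_eq]
  show Φ' (_ + _) _ * Φ' _ _ = Φ' (_ + _) _ * Φ' _ _
  rw [add_comm ((flw κ μ V hV).hh o.1 o.2 y)]
  rfl


/-- one test function: few points with many fluctuations -/
lemma bad_one {Φ' : ℤ → X → ℝ} {Λ : Finset ℕ} {ε' δ' : ℝ} {K' : ℕ} (hδ : 0 ≤ δ')
    (hbad : ∀ h : ℤ, μ.real {x | HasFl (fun ℓ => TL κ.τ (Qh V Φ' h) ℓ x) Λ ε' K'} ≤ δ') (o : ℕ × ℕ) (ho : o.1 ≤ L) :
    (μ.prod (unif L)).real {y | HasFl (fun ℓ => (flw κ μ V hV).QQ (lft Φ') o ℓ y) Λ ε' K'} ≤ 2 * δ' := by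
  classical
  set P := flw κ μ V hV with hP
  set ℓ := o.1 with hℓ
  set bad : ℤ → Set X := fun h => {x | HasFl (fun ℓ => TL κ.τ (Qh V Φ' h) ℓ x) Λ ε' K'} with hbad0
  set B : ℕ → Set (ZMod (2 ^ L)) := fun t => {a | a.val % 2 ^ ℓ = t} with hB
  set I : Finset ℤ := Ioo (-(2 ^ ℓ : ℤ)) (2 ^ ℓ) with hI
  have hBm : ∀ t < 2 ^ ℓ, (unif L).real (B t) = ((2 : ℝ) ^ ℓ)⁻¹ := by
    intro t ht
    have h1 := P.swap.ad_prob ho ht
    have h2 : {y : X × ZMod (2 ^ L) | P.swap.ad ℓ y = t} = Set.univ ×ˢ B t := by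
      ext y
      simp only [Set.mem_prod, Set.mem_univ, true_and]
      rfl
    rw [h2, measureReal_prod_prod, probReal_univ, one_mul] at h1
    exact h1
  have hsub : {y | HasFl (fun ℓ => P.QQ (lft Φ') o ℓ y) Λ ε' K'} ⊆
      ⋃ h ∈ I, bad h ×ˢ B (((o.2 : ℤ) - h) % 2 ^ ℓ).toNat := by
    intro y hy
    have h1 := P.hh_lt o.1 o.2 y
    have h2 := P.hh_gt o.1 o.2 y
    have h3 := P.σ_hh ho o.2 y
    refine Set.mem_biUnion (x := P.hh o.1 o.2 y) (mem_coe.2 (mem_Ioo.2 ⟨h2, h1⟩)) ⟨?_, ?_⟩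
    · have hy' : HasFl (fun ℓ => P.QQ (lft Φ') o ℓ y) Λ ε' K' := hy
      exact hy'.congr fun ℓ _ => QQ_lft κ hV Φ' o ℓ y
    · show y.2.val % 2 ^ ℓ = _
      have h4 : ((y.2.val : ℤ)) % 2 ^ ℓ = ((o.2 : ℤ) - P.hh o.1 o.2 y) % 2 ^ ℓ := by
        have h5 : ((y.2.val : ℤ) + P.hh o.1 o.2 y) ≡ (o.2 : ℤ) [ZMOD 2 ^ ℓ] := h3
        have h6 := h5.sub (Int.ModEq.refl (P.hh o.1 o.2 y))
        rw [add_sub_cancel_right] at h6
        exact h6
      rw [← h4]
      have h7 : ((y.2.val : ℤ)) % 2 ^ ℓ = ((y.2.val % 2 ^ ℓ : ℕ) : ℤ) := by push_cast; rfl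
      rw [h7, Int.toNat_natCast]
  have hcard : (I.card : ℝ) ≤ 2 * 2 ^ ℓ := by
    have h1 : I.card = (2 ^ ℓ - (-(2 ^ ℓ : ℤ)) - 1).toNat := Int.card_Ioo _ _
    have h2 : (I.card : ℤ) ≤ 2 * 2 ^ ℓ := by
      rw [h1, Int.toNat_of_nonneg]
      · linarith
      · have : (1 : ℤ) ≤ 2 ^ ℓ := one_le_pow₀ (by norm_num)
        linarith
    exact_mod_cast h2
  calc (μ.prod (unif L)).real {y | HasFl (fun ℓ => P.QQ (lft Φ') o ℓ y) Λ ε' K'}
      ≤ (μ.prod (unif L)).real (⋃ h ∈ I, bad h ×ˢ B (((o.2 : ℤ) - h) % 2 ^ ℓ).toNat) := measureReal_mono hsub (measure_ne_top _ _)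
    _ ≤ ∑ h ∈ I, (μ.prod (unif L)).real (bad h ×ˢ B (((o.2 : ℤ) - h) % 2 ^ ℓ).toNat) :=
        measureReal_biUnion_finset_le _ _
    _ ≤ ∑ _h ∈ I, δ' * ((2 : ℝ) ^ ℓ)⁻¹ := by
        refine sum_le_sum fun h _ => ?_
        have ht : (((o.2 : ℤ) - h) % 2 ^ ℓ).toNat < 2 ^ ℓ := by
          have h1 : ((o.2 : ℤ) - h) % 2 ^ ℓ < 2 ^ ℓ := Int.emod_lt_of_pos _ (by positivity)
          have h2 : 0 ≤ ((o.2 : ℤ) - h) % 2 ^ ℓ := Int.emod_nonneg _ (by positivity)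
          zify
          rw [Int.toNat_of_nonneg h2]
          exact h1
        rw [measureReal_prod_prod, hBm _ ht]
        exact mul_le_mul_of_nonneg_right (hbad h) (by positivity)
    _ = I.card * (δ' * ((2 : ℝ) ^ ℓ)⁻¹) := by rw [sum_const, nsmul_eq_mul]
    _ ≤ 2 * 2 ^ ℓ * (δ' * ((2 : ℝ) ^ ℓ)⁻¹) := mul_le_mul_of_nonneg_right hcard (by positivity)
    _ = 2 * δ' := by field_simp

lemma card_changes (f : ℕ → ℕ) : ∀ L : ℕ, (∀ a b, a ≤ b → b ≤ L → f b ≤ f a) →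
    ((range L).filter fun c => f c ≠ f (c + 1)).card + f L ≤ f 0 := by
  intro L
  induction L with
  | zero =>
    intro _
    simp
  | succ L ih =>
    intro hf
    have h1 := ih fun a b hab hb => hf a b hab (hb.trans (Nat.le_succ L))
    have h2 := hf L (L + 1) (Nat.le_succ L) le_rfl
    rw [range_add_one, filter_insert]
    split_ifs with h
    · rw [card_insert_of_notMem (by simp)]
      omega
    · omega

lemma no_change (f : ℕ → ℕ) {u v : ℕ} (huv : u ≤ v) (h : ∀ c, u ≤ c → c < v → f c = f (c + 1)) : f v = f u := by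
  induction v, huv using Nat.le_induction with
  | base => rfl
  | succ v hv ih => rw [← h v hv (Nat.lt_succ_self v), ih fun c h1 h2 => h c h1 (h2.trans (Nat.lt_succ_self v))]

include hV in
/-- **the step** -/
theorem step_fl {M : List (ℤ → G)} {Φ : ℤ → X → ℝ} (hΦ : IsP (pw V :: M) Φ) {Λ : Finset ℕ} (hΛ : ∀ ℓ ∈ Λ, ℓ ≤ L)
    {ε θ ε' δ' : ℝ} {N1 K' J : ℕ} (hε : 0 < ε) (hε1 : ε ≤ 1) (hθ : 0 < θ) (hε'0 : 0 ≤ ε') (hε' : ε' * N1 ≤ 1)
    (hJ : N1 + N1 * K' < J) (hδ' : 0 ≤ δ')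
    (IH : ∀ (h : ℤ) (Φ'' : ℤ → X → ℝ), IsP (M ++ M.map (cpy (pw V) h)) Φ'' →
      μ.real {x | HasFl (fun ℓ => TL κ.τ Φ'' ℓ x) Λ ε' K'} ≤ δ')
    {P1 t2 : ℝ} (hP1 : 2 / ((ε / 4) ^ 2 * θ) ≤ P1) (ht2 : 2 ≤ t2 * (1 + (ε / 4) ^ 2 / 6) ^ N1) :
    μ.real {x | HasFl (fun ℓ => TL κ.τ Φ ℓ x) Λ ε J} ≤ Λ.card * θ + t2 + P1 * (2 * δ') := by
  classical
  obtain ⟨f0, Φ', hf0, hΦ', hprod⟩ := hΦ
  set P := flw κ μ V hV with hP
  set Ψ : ℤ → X × ZMod (2 ^ L) → ℝ := lft Φ' with hΨdef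
  set g : X × ZMod (2 ^ L) → ℝ := fun y => f0 y.1 with hg
  set e : ℝ := ε / 4 with he
  have hΨ : ∀ n, U1 (Ψ n) := fun n => ⟨((hΦ'.bd n).1).comp measurable_fst, fun y => (hΦ'.bd n).2 _⟩
  have hgU : U1 g := ⟨hf0.1.comp measurable_fst, fun y => hf0.2 _⟩
  have he0 : 0 < e := by positivity
  have he1 : e ≤ 1 := by rw [he]; linarith
  obtain ⟨Hf, hst, hsuf, hsm⟩ := Fl.exists_lists (P := P) hΨ hgU he0 he1 hθ
  set H := Hf 0 with hH
  have hst0 : Fl.St P Ψ e g θ 0 H := hst 0 (Nat.zero_le _)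
  set I0 : Finset (ℕ × ℕ) := ((H.filter fun o => !o.rs).map fun o => (o.lev, o.r)).toFinset with hI0
  have hI0c : (I0.card : ℝ) ≤ P1 := by
    have h1 : I0.card ≤ nb H := (List.toFinset_card_le _).trans (by rw [List.length_map, nb])
    have h2 : (nb H : ℝ) * (e ^ 2 * θ / 2) ≤ 1 := by
      have h3 := hst0.j3
      have h4 : 0 ≤ ∫ y, P.RR Ψ e g H y ^ 2 ∂(μ.prod (unif L)) := integral_nonneg fun y => sq_nonneg _
      linarith
    have h3 : (nb H : ℝ) ≤ 2 / (e ^ 2 * θ) := by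
      rw [le_div_iff₀ (by positivity)]
      linarith
    have h4 : (I0.card : ℝ) ≤ nb H := by exact_mod_cast h1
    exact h4.trans (h3.trans hP1)
  have hI0L : ∀ o ∈ I0, o.1 ≤ L := by
    intro o ho
    rw [hI0, List.mem_toFinset, List.mem_map] at ho
    obtain ⟨o', ho', rfl⟩ := ho
    exact (hst0.ok o' (List.mem_of_mem_filter ho')).le
  set B1 : Set (X × ZMod (2 ^ L)) := ⋃ ℓ ∈ Λ, {y | e ≤ |P.TT Ψ ℓ (P.RR Ψ e g (Hf ℓ)) y|} with hB1
  set B2 : Set (X × ZMod (2 ^ L)) := {y | N1 ≤ cnt H y} with hB2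
  set B3 : Set (X × ZMod (2 ^ L)) := ⋃ o ∈ I0, {y | HasFl (fun ℓ => P.QQ Ψ o ℓ y) Λ ε' K'} with hB3
  have hB1m : (μ.prod (unif L)).real B1 ≤ Λ.card * θ := by
    refine (measureReal_biUnion_finset_le _ _).trans ?_
    refine (sum_le_sum fun ℓ hℓ => (hsm ℓ (hΛ ℓ hℓ)).le).trans (le_of_eq ?_)
    rw [sum_const, nsmul_eq_mul]
  have hB2m : (μ.prod (unif L)).real B2 ≤ t2 := by
    have h1 := hst0.tail hΨ hgU he0.le N1
    have h2 : 0 < (1 + e ^ 2 / 6) ^ N1 := by positivity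
    have h3 : (1 + e ^ 2 / 6) ^ N1 * (μ.prod (unif L)).real B2 ≤ (1 + e ^ 2 / 6) ^ N1 * t2 := by
      rw [mul_comm _ t2]
      exact h1.trans ht2
    exact le_of_mul_le_mul_left h3 h2
  have hB3m : (μ.prod (unif L)).real B3 ≤ P1 * (2 * δ') := by
    refine (measureReal_biUnion_finset_le _ _).trans ?_
    refine (sum_le_sum fun o ho => bad_one κ hV hδ' (fun h => IH h _ (Qh_isP V hΦ' h)) o (hI0L o ho)).trans ?_
    rw [sum_const, nsmul_eq_mul]
    exact mul_le_mul_of_nonneg_right hI0c (by positivity)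
  have hsub : {x | HasFl (fun ℓ => TL κ.τ Φ ℓ x) Λ ε J} ×ˢ (Set.univ : Set (ZMod (2 ^ L))) ⊆ B1 ∪ B2 ∪ B3 := by
    rintro y ⟨hy, -⟩
    by_contra hcon
    rw [Set.mem_union, Set.mem_union, not_or, not_or] at hcon
    obtain ⟨⟨hn1, hn2⟩, hn3⟩ := hcon
    have hy' : HasFl (fun ℓ => TL κ.τ Φ ℓ y.1) Λ ε J := hy
    have hn1' : ∀ ℓ ∈ Λ, |P.TT Ψ ℓ (P.RR Ψ e g (Hf ℓ)) y| < e := by
      intro ℓ hℓ
      by_contra hc
      exact hn1 (Set.mem_biUnion (mem_coe.2 hℓ) (not_lt.1 hc))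
    have hn2' : cnt H y < N1 := not_le.1 hn2
    have hn3' : ∀ o ∈ I0, ¬ HasFl (fun ℓ => P.QQ Ψ o ℓ y) Λ ε' K' := fun o ho hc =>
      hn3 (Set.mem_biUnion (mem_coe.2 ho) hc)
    -- cuts and families
    set C : Finset ℕ := (range L).filter fun c => cnt (Hf c) y ≠ cnt (Hf (c + 1)) y with hC
    have hCc : C.card ≤ cnt H y := by
      have h1 := card_changes (fun c => cnt (Hf c) y) L fun a b hab hb => cnt_mono (hsuf a b hab hb) y
      exact (Nat.le_add_right _ _).trans h1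
    set I : Finset (ℕ × ℕ) := ((H.filter fun o => decide (y ∈ o.D ∧ o.rs = false)).map fun o => (o.lev, o.r)).toFinset
      with hI
    have hIc : I.card ≤ cnt H y := (List.toFinset_card_le _).trans (by rw [List.length_map]; exact card_hit H y)
    have hII : ∀ i ∈ I, i ∈ I0 := by
      intro i hi
      rw [hI, List.mem_toFinset, List.mem_map] at hi
      obtain ⟨o, ho, rfl⟩ := hi
      rw [List.mem_filter] at ho
      rw [hI0, List.mem_toFinset, List.mem_map]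
      refine ⟨o, ?_, rfl⟩
      rw [List.mem_filter]
      have h1 : y ∈ o.D ∧ o.rs = false := of_decide_eq_true ho.2
      exact ⟨ho.1, by rw [h1.2]; rfl⟩
    have hdec : ∀ ℓ ∈ Λ, TL κ.τ Φ ℓ y.1 = P.TT Ψ ℓ (P.RR Ψ e g (Hf ℓ)) y +
        ((act (Hf ℓ) y).map fun o => e * o.s * P.QQ Ψ (o.lev, o.r) ℓ y).sum := by
      intro ℓ hℓ
      rw [← Fl.TT_SS (hst ℓ (hΛ ℓ hℓ)).ok y, ← P.TT_add]
      have h1 : (fun y => P.RR Ψ e g (Hf ℓ) y + P.SS Ψ e (Hf ℓ) y) = g := by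
        funext y
        rw [Fl.RR]
        ring
      rw [h1, hg, hΨdef, hP, TT_lft]
      congr 1
      funext n x
      rw [hprod]
    have hJ' := fl_cut C I (fun i ℓ => P.QQ Ψ i ℓ y) ε' K' (fun u hu v hv huv hcut hd => ?_)
      (fun i hi => hn3' i (hII i hi)) hy'
    · have h1 : C.card ≤ N1 := hCc.trans hn2'.le
      have h2 : I.card * K' ≤ N1 * K' := Nat.mul_le_mul_right _ (hIc.trans hn2'.le)
      omega
    · have hvL := hΛ v hv
      have hcnt : cnt (Hf v) y = cnt (Hf u) y := by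
        refine no_change (fun c => cnt (Hf c) y) huv.le fun c h1 h2 => ?_
        by_contra hne
        have h3 : c ∈ C := by
          rw [hC, mem_filter, mem_range]
          exact ⟨by omega, hne⟩
        have := hcut c h3 h1
        omega
      have hact : act (Hf u) y = act (Hf v) y := act_eq (hsuf u v huv.le hvL) hcnt.symm
      by_contra hcon
      push Not at hcon
      set l := act (Hf v) y with hl
      have hll : l.length ≤ N1 := (length_act _ _).trans ((cnt_mono (hsuf 0 v (Nat.zero_le _) hvL) y).trans hn2'.le)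
      have hmem : ∀ o ∈ l, |o.s| ≤ 1 ∧ |P.QQ Ψ (o.lev, o.r) u y - P.QQ Ψ (o.lev, o.r) v y| ≤ ε' := by
        intro o ho
        obtain ⟨h1, h2, h3⟩ := mem_act ho
        have h4 : o ∈ H := (hsuf 0 v (Nat.zero_le _) hvL).subset h1
        have h5 : (o.lev, o.r) ∈ I := by
          rw [hI, List.mem_toFinset, List.mem_map]
          refine ⟨o, ?_, rfl⟩
          rw [List.mem_filter]
          exact ⟨h4, decide_eq_true ⟨h2, h3⟩⟩
        have h6 := hcon _ h5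
        rw [Real.norm_eq_abs] at h6
        exact ⟨(hst0.ok o h4).sg, h6.le⟩
      have hsum : ∀ l : List (Op (X × ZMod (2 ^ L))), (∀ o ∈ l, |o.s| ≤ 1 ∧
          |P.QQ Ψ (o.lev, o.r) u y - P.QQ Ψ (o.lev, o.r) v y| ≤ ε') →
          |(l.map fun o => e * o.s * P.QQ Ψ (o.lev, o.r) u y).sum - (l.map fun o => e * o.s * P.QQ Ψ (o.lev, o.r) v y).sum| ≤
            e * (ε' * l.length) := by
        intro l
        induction l with
        | nil => intro _; simp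
        | cons o l ih =>
          intro hl
          have h1 := ih fun o' ho' => hl o' (List.mem_cons_of_mem _ ho')
          obtain ⟨h2, h3⟩ := hl o (by simp)
          rw [List.map_cons, List.map_cons, List.sum_cons, List.sum_cons, List.length_cons]
          push_cast
          have h4 : |e * o.s * P.QQ Ψ (o.lev, o.r) u y - e * o.s * P.QQ Ψ (o.lev, o.r) v y| ≤ e * ε' := by
            rw [← mul_sub, abs_mul, abs_mul, abs_of_pos he0]
            calc e * |o.s| * |P.QQ Ψ (o.lev, o.r) u y - P.QQ Ψ (o.lev, o.r) v y| ≤ e * 1 * ε' :=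
                  mul_le_mul (mul_le_mul_of_nonneg_left h2 he0.le) h3 (abs_nonneg _) (by positivity)
              _ = e * ε' := by ring
          have h5 : ∀ a b c d : ℝ, |a + b - (c + d)| ≤ |a - c| + |b - d| := by
            intro a b c d
            rw [add_sub_add_comm]
            exact abs_add_le _ _
          refine (h5 _ _ _ _).trans ?_
          nlinarith
      have h1 := hsum l hmem
      have h2 : e * (ε' * l.length) ≤ e * 1 := by
        refine mul_le_mul_of_nonneg_left ?_ he0.le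
        refine le_trans ?_ hε'
        exact mul_le_mul_of_nonneg_left (by exact_mod_cast hll) hε'0
      have h3 := hn1' u hu
      have h4 := hn1' v hv
      rw [Real.norm_eq_abs, hdec u hu, hdec v hv, hact] at hd
      rw [abs_lt] at h3 h4
      rw [abs_le] at h1
      have h5 : |P.TT Ψ u (P.RR Ψ e g (Hf u)) y + (l.map fun o => e * o.s * P.QQ Ψ (o.lev, o.r) u y).sum -
          (P.TT Ψ v (P.RR Ψ e g (Hf v)) y + (l.map fun o => e * o.s * P.QQ Ψ (o.lev, o.r) v y).sum)| ≤ 3 * e := by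
        rw [abs_le]
        constructor <;> linarith [h1.1, h1.2, h3.1, h3.2, h4.1, h4.2]
      have h6 : ε ≤ 3 * e := hd.trans h5
      rw [he] at h6
      linarith
  calc μ.real {x | HasFl (fun ℓ => TL κ.τ Φ ℓ x) Λ ε J}
      = (μ.prod (unif L)).real ({x | HasFl (fun ℓ => TL κ.τ Φ ℓ x) Λ ε J} ×ˢ (Set.univ : Set (ZMod (2 ^ L)))) := by
        rw [measureReal_prod_prod, probReal_univ, mul_one]
    _ ≤ (μ.prod (unif L)).real (B1 ∪ B2 ∪ B3) := measureReal_mono hsub (measure_ne_top _ _)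
    _ ≤ (μ.prod (unif L)).real (B1 ∪ B2) + (μ.prod (unif L)).real B3 := measureReal_union_le _ _
    _ ≤ (μ.prod (unif L)).real B1 + (μ.prod (unif L)).real B2 + (μ.prod (unif L)).real B3 :=
        add_le_add_left (measureReal_union_le _ _) _
    _ ≤ _ := add_le_add (add_le_add hB1m hB2m) hB3m

end step

end Pool.FLN
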