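import Pool.Agent.FLN.Ind
import Pool.Agent.FLU.Tr0
import Pool.Agent.JMP.Main

set_option autoImplicit false
set_option linter.unusedSectionVars false

/-!
# FLN: transfer from the windows of a random clock to the symmetric averages
-/

namespace Pool.FLN

open MeasureTheory Finset Pool.JMP Pool.FLU Pool.Agent.PWZ Pool.PWZ Pool.PWM
open scoped ENNReal

lemma hasFl_meas {X : Type*} [MeasurableSpace X] {a : ℕ → X → ℝ} (ha : ∀ ℓ, Measurable (a ℓ)) (Λ : Finset ℕ) (ε : ℝ)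
    (J : ℕ) : MeasurableSet {x | HasFl (fun ℓ => a ℓ x) Λ ε J} := by
  have e : {x | HasFl (fun ℓ => a ℓ x) Λ ε J} = ⋃ P : Finset (ℕ × ℕ), {x | J ≤ P.card ∧
      (∀ p ∈ P, p.1 ∈ Λ ∧ p.2 ∈ Λ ∧ p.1 < p.2 ∧ ε ≤ ‖a p.1 x - a p.2 x‖) ∧
      ∀ p ∈ P, ∀ q ∈ P, p ≠ q → p.2 ≤ q.1 ∨ q.2 ≤ p.1} := by
    ext x
    rw [Set.mem_iUnion]
    rfl
  rw [e]
  refine MeasurableSet.iUnion fun P => (MeasurableSet.const _).inter (MeasurableSet.inter ?_ (MeasurableSet.const _))
  have e2 : {x | ∀ p ∈ P, p.1 ∈ Λ ∧ p.2 ∈ Λ ∧ p.1 < p.2 ∧ ε ≤ ‖a p.1 x - a p.2 x‖} =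
      ⋂ p ∈ P, {x | p.1 ∈ Λ ∧ p.2 ∈ Λ ∧ p.1 < p.2 ∧ ε ≤ ‖a p.1 x - a p.2 x‖} := by
    ext x
    simp
  show MeasurableSet {x | ∀ p ∈ P, p.1 ∈ Λ ∧ p.2 ∈ Λ ∧ p.1 < p.2 ∧ ε ≤ ‖a p.1 x - a p.2 x‖}
  rw [e2]
  refine P.measurableSet_biInter fun p _ => ?_
  exact (MeasurableSet.const _).inter ((MeasurableSet.const _).inter ((MeasurableSet.const _).inter
    (measurableSet_le measurable_const ((ha _).sub (ha _)).norm)))

lemma TL_meas {X : Type*} [MeasurableSpace X] {L : ℕ} {τ : X → ZMod (2 ^ L)} (hτ : Measurable τ) {Φ : ℤ → X → ℝ}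
    (hΦ : ∀ n, Measurable (Φ n)) (ℓ : ℕ) : Measurable (TL τ Φ ℓ) := by
  refine (Finset.measurable_sum _ fun i _ => ?_).const_mul _
  refine Fl.eval_meas (F := Φ) hΦ ?_
  have h : Measurable fun a : ZMod (2 ^ L) => (((a.val % 2 ^ ℓ : ℕ) : ℤ) - i) := measurable_of_countable _
  exact h.comp hτ

lemma hasFl_shift {b : ℕ → ℝ} {S : Finset ℕ} {ε : ℝ} {J : ℕ} (h : HasFl (fun l => b (l + 1)) S ε J) :
    HasFl b (S.image (· + 1)) ε J := by
  obtain ⟨P, h1, h2, h3⟩ := h
  refine ⟨P.image fun p => (p.1 + 1, p.2 + 1), ?_, ?_, ?_⟩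
  · rw [card_image_of_injective _ fun p q hpq => ?_]
    · exact h1
    · have e1 := congrArg Prod.fst hpq
      have e2 := congrArg Prod.snd hpq
      simp only [add_left_inj] at e1 e2
      exact Prod.ext e1 e2
  · intro p hp
    obtain ⟨q, hq, rfl⟩ := mem_image.1 hp
    obtain ⟨a1, a2, a3, a4⟩ := h2 q hq
    exact ⟨mem_image_of_mem _ a1, mem_image_of_mem _ a2, Nat.succ_lt_succ a3, a4⟩
  · intro p hp q hq hpq
    obtain ⟨p', hp', rfl⟩ := mem_image.1 hp
    obtain ⟨q', hq', rfl⟩ := mem_image.1 hq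
    have := h3 p' hp' q' hq' (fun h => hpq (by rw [h]))
    simp only
    omega

/-- the deterministic transfer -/
theorem sharp_det {φ : ℤ → ℝ} (hφ : ∀ n, |φ n| ≤ 1) {C k : ℕ} {ε δ : ℝ} {J d R J' k' : ℕ} {δ' : ℝ}
    (hε : 0 < ε) (hε1 : ε ≤ 1) (hp : TrPar C k ε δ J d R J' k' δ') {S : Finset ℕ} (hS1 : ∀ N ∈ S, 1 ≤ N)
    (hx : HasFl (fun N => av φ N) S ε J) :
    (2 : ℝ) ^ ((S.image (Nat.log 2)).sup id + 1) ≤ 2 * 4 ^ d * ∑ v ∈ range (2 ^ ((S.image (Nat.log 2)).sup id + 1)),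
      ind (HasFl (fun l => wav φ l (v % 2 ^ (l + 1))) (lev d (S.image (Nat.log 2))) (ε / 100) J') := by
  obtain ⟨hd, hd1, hR1, hR2, hk, hpar', hδ, hJ', hJ⟩ := hp
  have hlogpos : (0 : ℝ) < 8 / ε := by positivity
  exact Pool.FLU.gen φ hφ ε hε hε1 ((S.image (Nat.log 2)).sup id) d R J J' hd
    (by omega) S (lev d (S.image (Nat.log 2))) (fun N => av φ N) (Nat.log 2)
    (fun a b hab => Nat.log_mono_right hab)
    (fun n hn => Finset.le_sup (f := id) (Finset.mem_image_of_mem _ hn))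
    (fun N hN => Or.inr ⟨N, Nat.pow_log_le_self 2 (by have := hS1 N hN; omega),
      Nat.lt_pow_succ_log_self (by norm_num) _, rfl⟩)
    (fun n hn hlt => by
      have h2 : n < 2 ^ (Nat.log 2 n + 1) := Nat.lt_pow_succ_log_self (by norm_num) _
      have h3 : 2 ^ (Nat.log 2 n + 1) ≤ 2 ^ (3 * d) := Nat.pow_le_pow_right (by norm_num) hlt
      have h4 : 2 ^ (3 * d) = 8 ^ d := by rw [pow_mul]; norm_num
      omega)
    (fun n hn j h1 h2 => Finset.mem_biUnion.mpr ⟨Nat.log 2 n, Finset.mem_image_of_mem _ hn,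
      Finset.mem_Icc.mpr ⟨h1, h2⟩⟩)
    (fun n => 8 / ε * Real.log n)
    (fun a b hab => by
      refine mul_le_mul_of_nonneg_left ?_ hlogpos.le
      rcases Nat.eq_zero_or_pos a with ha | ha
      · subst ha
        rw [Nat.cast_zero, Real.log_zero]
        exact Real.log_natCast_nonneg b
      · exact Real.log_le_log (by exact_mod_cast ha) (by exact_mod_cast hab))
    (fun n hn n' hn' hnn hosc => by
      have h2 := abs_av_sub_av_le hφ hnn.le
      have h3 := hosc.trans h2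
      have hnpos : (0 : ℝ) < n := by exact_mod_cast hS1 n hn
      have hn'pos : (0 : ℝ) < n' := by exact_mod_cast hS1 n' hn'
      rw [le_div_iff₀ (by positivity)] at h3
      have h4 : (n : ℝ) ≤ n' * (1 - ε / 2) := by nlinarith
      have h5 : (0 : ℝ) < 1 - ε / 2 := by linarith
      have h6 : Real.log n ≤ Real.log n' + Real.log (1 - ε / 2) := by
        rw [← Real.log_mul hn'pos.ne' h5.ne']
        exact Real.log_le_log hnpos h4
      have h7 : Real.log (1 - ε / 2) ≤ - (ε / 2) := by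
        have := Real.log_le_sub_one_of_pos h5
        linarith
      have h8 : Real.log n + ε / 8 ≤ Real.log n' := by linarith
      show 8 / ε * Real.log n + 1 ≤ 8 / ε * Real.log n'
      have h9 := mul_le_mul_of_nonneg_left h8 hlogpos.le
      rw [mul_add] at h9
      have h10 : 8 / ε * (ε / 8) = 1 := by field_simp
      linarith)
    (fun n hn n' hn' _ hnn => by
      have hnpos : (0 : ℝ) < n := by exact_mod_cast hS1 n hn
      have hn'pos : (0 : ℝ) < n' := by exact_mod_cast hS1 n' hn'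
      have h2 : 8 / ε * Real.log n + (2 * d + 2) * (8 / ε) ≤ 8 / ε * Real.log n' :=
        (add_le_add le_rfl hR2).trans hnn
      have h3 : Real.log n + (2 * d + 2) ≤ Real.log n' := by
        have h4 : 8 / ε * (Real.log n + (2 * d + 2)) ≤ 8 / ε * Real.log n' := by linarith
        exact le_of_mul_le_mul_left h4 hlogpos
      have h4 : (2 : ℝ) ^ (2 * d + 2) * n ≤ n' := by
        have h5 : Real.log ((2 : ℝ) ^ (2 * d + 2) * n) ≤ Real.log n' := by
          rw [Real.log_mul (by positivity) hnpos.ne', Real.log_pow]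
          have h6 : Real.log 2 ≤ 1 := by
            have := Real.log_two_lt_d9; linarith
          have h7 : ((2 * d + 2 : ℕ) : ℝ) * Real.log 2 ≤ (2 * d + 2) * 1 := by
            push_cast
            exact mul_le_mul_of_nonneg_left h6 (by positivity)
          linarith
        exact (Real.log_le_log_iff (by positivity) hn'pos).mp h5
      have h5 : 2 ^ (2 * d + 2) * n ≤ n' := by exact_mod_cast h4
      have h6 : 2 ^ Nat.log 2 n ≤ n := Nat.pow_log_le_self 2 (by have := hS1 n hn; omega)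
      have h7 : 2 ^ (Nat.log 2 n + 2 * d + 1) ≤ n' := by
        calc 2 ^ (Nat.log 2 n + 2 * d + 1) ≤ 2 ^ (2 * d + 2) * 2 ^ Nat.log 2 n := by
              rw [← pow_add]
              exact Nat.pow_le_pow_right (by norm_num) (by omega)
          _ ≤ 2 ^ (2 * d + 2) * n := Nat.mul_le_mul_left _ h6
          _ ≤ n' := h5
      exact Nat.le_log_of_pow_le (by norm_num) h7) hJ hx

section slice

variable {X : Type*} [MeasurableSpace X] {μ : Measure X} [IsProbabilityMeasure μ]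

lemma unif_single (n : ℕ) (v : ZMod (2 ^ n)) : (unif n).real {v} = ((2 : ℝ) ^ n)⁻¹ := by
  rw [Measure.real, unif, Measure.smul_apply, Measure.count_singleton, smul_eq_mul, mul_one, ENNReal.toReal_inv,
    ENNReal.toReal_natCast]
  push_cast
  rfl

lemma slice_bound {n : ℕ} {E : Set (X × ZMod (2 ^ n))} (hE : MeasurableSet E) {B : Set X} {D : ℝ} (hD : 0 < D)
    (h : ∀ x ∈ B, (2 : ℝ) ^ n ≤ D * ∑ v ∈ range (2 ^ n), ind ((x, (v : ZMod (2 ^ n))) ∈ E)) :
    μ.real B ≤ D * (μ.prod (unif n)).real E := by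
  classical
  set Ev : ℕ → Set X := fun v => {x | (x, (v : ZMod (2 ^ n))) ∈ E} with hEv
  have hEvm : ∀ v, MeasurableSet (Ev v) := fun v => (measurable_id.prodMk measurable_const) hE
  have h1 : (μ.prod (unif n)).real E = ∑ v ∈ range (2 ^ n), ((2 : ℝ) ^ n)⁻¹ * μ.real (Ev v) := by
    have e : E = ⋃ v ∈ range (2 ^ n), Ev v ×ˢ {(v : ZMod (2 ^ n))} := by
      ext y
      rw [Set.mem_iUnion₂]
      constructor
      · intro hy
        refine ⟨y.2.val, mem_range.2 (ZMod.val_lt _), ?_, ?_⟩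
        · show (y.1, ((y.2.val : ℕ) : ZMod (2 ^ n))) ∈ E
          rw [ZMod.natCast_zmod_val]
          exact hy
        · rw [ZMod.natCast_zmod_val]
          rfl
      · rintro ⟨v, _, hy1, hy2⟩
        rw [Set.mem_singleton_iff] at hy2
        have hy3 : (y.1, (v : ZMod (2 ^ n))) ∈ E := hy1
        rw [← hy2] at hy3
        exact hy3
    have h2 : (μ.prod (unif n)).real (⋃ v ∈ range (2 ^ n), Ev v ×ˢ {(v : ZMod (2 ^ n))}) =
        ∑ v ∈ range (2 ^ n), (μ.prod (unif n)).real (Ev v ×ˢ {(v : ZMod (2 ^ n))}) := by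
      refine measureReal_biUnion_finset ?_ fun v _ => (hEvm v).prod (measurableSet_singleton _)
      intro v hv v' hv' hne
      rw [coe_range, Set.mem_Iio] at hv hv'
      refine Set.disjoint_left.2 ?_
      rintro y ⟨_, hy⟩ ⟨_, hy'⟩
      rw [Set.mem_singleton_iff] at hy hy'
      rw [hy] at hy'
      apply hne
      have h3 := congrArg ZMod.val hy'
      rwa [ZMod.val_natCast_of_lt hv, ZMod.val_natCast_of_lt hv'] at h3
    rw [← e] at h2
    rw [h2]
    refine sum_congr rfl fun v _ => ?_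
    rw [measureReal_prod_prod, unif_single, mul_comm]
  set F : X → ℝ := fun x => ∑ v ∈ range (2 ^ n), (Ev v).indicator 1 x with hF
  have hFm : Measurable F := Finset.measurable_sum _ fun v _ => measurable_one.indicator (hEvm v)
  have hterm : ∀ v, Integrable ((Ev v).indicator (1 : X → ℝ)) μ := fun v =>
    (integrable_const (1 : ℝ)).indicator (hEvm v)
  have hFi : Integrable F μ := integrable_finsetSum _ fun v _ => hterm v
  have hF0 : ∀ x, 0 ≤ F x := fun x => sum_nonneg fun v _ => Set.indicator_nonneg (fun _ _ => zero_le_one) x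
  have h2 : ∫ x, F x ∂μ = ∑ v ∈ range (2 ^ n), μ.real (Ev v) := by
    rw [hF, integral_finsetSum _ fun v _ => hterm v]
    exact sum_congr rfl fun v _ => integral_indicator_one (hEvm v)
  have h3 : ∀ x, F x = ∑ v ∈ range (2 ^ n), ind ((x, (v : ZMod (2 ^ n))) ∈ E) := by
    intro x
    refine sum_congr rfl fun v _ => ?_
    by_cases hx : (x, (v : ZMod (2 ^ n))) ∈ E
    · rw [ind_of hx, Set.indicator_of_mem (show x ∈ Ev v from hx), Pi.one_apply]
    · rw [ind_not hx, Set.indicator_of_notMem (show x ∉ Ev v from hx)]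
  have h4 : B ⊆ {x | (2 : ℝ) ^ n / D ≤ F x} := by
    intro x hx
    show (2 : ℝ) ^ n / D ≤ F x
    rw [div_le_iff₀ hD, h3, mul_comm]
    exact h x hx
  have h5 := mul_meas_ge_le_integral_of_nonneg (μ := μ) (Filter.Eventually.of_forall hF0) hFi ((2 : ℝ) ^ n / D)
  have h6 : μ.real B ≤ μ.real {x | (2 : ℝ) ^ n / D ≤ F x} := measureReal_mono h4 (measure_ne_top _ _)
  have h7 : (2 : ℝ) ^ n / D * μ.real B ≤ ∫ x, F x ∂μ := (mul_le_mul_of_nonneg_left h6 (by positivity)).trans h5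
  rw [h1, ← mul_sum, ← h2]
  have h8 := mul_le_mul_of_nonneg_left h7 (by positivity : (0 : ℝ) ≤ D * ((2 : ℝ) ^ n)⁻¹)
  calc μ.real B = D * ((2 : ℝ) ^ n)⁻¹ * ((2 : ℝ) ^ n / D * μ.real B) := by field_simp
    _ ≤ _ := h8
    _ = _ := by ring

end slice

/-- the action on the product with a clock -/
@[reducible] def act2 (H X : Type*) [Group H] [MulAction H X] (n : ℕ) :
    MulAction (H × Multiplicative ℤ) (X × ZMod (2 ^ n)) where
  smul g y := (g.1 • y.1, y.2 - ((Multiplicative.toAdd g.2 : ℤ) : ZMod (2 ^ n)))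
  one_smul y := by
    refine Prod.ext (one_smul H y.1) ?_
    show y.2 - ((0 : ℤ) : ZMod (2 ^ n)) = y.2
    simp
  mul_smul g g' y := by
    refine Prod.ext (mul_smul g.1 g'.1 y.1) ?_
    show y.2 - ((Multiplicative.toAdd g.2 + Multiplicative.toAdd g'.2 : ℤ) : ZMod (2 ^ n)) =
      y.2 - ((Multiplicative.toAdd g'.2 : ℤ) : ZMod (2 ^ n)) - ((Multiplicative.toAdd g.2 : ℤ) : ZMod (2 ^ n))
    push_cast
    ring

universe u

/-- **the real theorem** -/
theorem real_tail (k m : ℕ) : ∃ C : ℕ, ∀ (H : Type u) [Group H], Group.IsNilpotent H → Group.nilpotencyClass H ≤ k →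
    ∀ (X : Type u) [MeasurableSpace X] [MulAction H X] [MeasurableConstSMul H X] (μ : Measure X)
      [IsProbabilityMeasure μ] [SMulInvariantMeasure H X μ] (V : Fin m → H) (f : Fin m → X → ℝ), (∀ j, U1 (f j)) →
      ∀ (kk : ℕ) (ε δ : ℝ) (J : ℕ), Par kk ε δ → Yy kk ε δ ^ C ≤ J → ∀ S : Finset ℕ, (∀ N ∈ S, 1 ≤ N) →
        (S.image (Nat.log 2)).card ≤ kk →
        μ.real {x | HasFl (fun N => av (fun n => ∏ j, f j (V j ^ n • x)) N) S ε J} ≤ δ := by
  obtain ⟨t, ht⟩ := cl_of_elts.{u} (max k 1) m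
  obtain ⟨C, hC⟩ := tr_num (Ce t)
  refine ⟨C, fun H _ hnil hk X _ _ _ μ _ _ V f hf kk ε δ J hpar hJ S hS hSc => ?_⟩
  obtain ⟨d, R, J', k', δ', hp⟩ := hC kk ε δ J hpar hJ
  set T := S.image (Nat.log 2) with hT
  set n := T.sup id + 1 with hn
  let _ := act2 H X n
  have hsm : ∀ g : H × Multiplicative ℤ, MeasurePreserving (fun y : X × ZMod (2 ^ n) => g • y)
      (μ.prod (unif n)) (μ.prod (unif n)) := fun g =>
    (measurePreserving_smul g.1 μ).prod (unif_sub n ((Multiplicative.toAdd g.2 : ℤ) : ZMod (2 ^ n)))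
  have : MeasurableConstSMul (H × Multiplicative ℤ) (X × ZMod (2 ^ n)) := ⟨fun g => (hsm g).measurable⟩
  have : SMulInvariantMeasure (H × Multiplicative ℤ) (X × ZMod (2 ^ n)) (μ.prod (unif n)) :=
    ⟨fun g s hs => (hsm g).measure_preimage hs.nullMeasurableSet⟩
  set χ : H × Multiplicative ℤ →* Multiplicative ℤ := MonoidHom.snd _ _ with hχ
  let κ : Clk (X × ZMod (2 ^ n)) χ n := ⟨Prod.snd, measurable_snd, fun g y => rfl⟩
  set Vh : Fin m → H × Multiplicative ℤ := fun j => (V j, Multiplicative.ofAdd 1) with hVh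
  have hnil2 : Group.IsNilpotent (H × Multiplicative ℤ) := inferInstance
  have hcls : Group.nilpotencyClass (H × Multiplicative ℤ) ≤ max k 1 := by
    rw [Group.nilpotencyClass_prod]
    exact max_le_max hk CommGroup.nilpotencyClass_le_one
  have hcl := ht (H × Multiplicative ℤ) χ hnil2 hcls (List.ofFn Vh) (by rw [List.length_ofFn]) (by
    intro W hW
    rw [List.mem_ofFn] at hW
    obtain ⟨j, rfl⟩ := hW
    rfl)
  set Φ : ℤ → X × ZMod (2 ^ n) → ℝ := fun i y => ∏ j, f j (V j ^ i • y.1) with hΦ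
  have hIsP : IsP ((List.ofFn Vh).map pw) Φ := by
    have key : ∀ (m : ℕ) (V : Fin m → H) (f : Fin m → X → ℝ), (∀ j, U1 (f j)) →
        IsP ((List.ofFn fun j => ((V j, Multiplicative.ofAdd 1) : H × Multiplicative ℤ)).map pw)
          (fun (i : ℤ) (y : X × ZMod (2 ^ n)) => ∏ j, f j (V j ^ i • y.1)) := by
      intro m
      induction m with
      | zero =>
        intro V f _
        simp only [List.ofFn_zero, List.map_nil, univ_eq_empty, prod_empty]
        exact IsP.const U1.one _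
      | succ m ih =>
        intro V f hf
        rw [List.ofFn_succ, List.map_cons]
        refine ⟨fun y => f 0 y.1, _, ⟨(hf 0).1.comp measurable_fst, fun y => (hf 0).2 _⟩,
          ih (fun j => V j.succ) (fun j => f j.succ) (fun j => hf _), fun i y => ?_⟩
        show ∏ j, f j (V j ^ i • y.1) = _
        rw [Fin.prod_univ_succ]
        rfl
    exact key m V f hf
  set Λ := (lev d T).image (· + 1) with hΛ
  have hpp := hp
  obtain ⟨hd, hd1, hR1, hR2, hkk, hpar', hδ, hJ', hJJ⟩ := hpp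
  have hfl := fl_CL (μ := μ.prod (unif n)) κ hcl Φ hIsP k' (ε / 100) δ' J' hpar' hJ' Λ
    ((card_image_le).trans ((lev_card d T).trans ((Nat.mul_le_mul_right _ hSc).trans hkk))) (by
      intro ℓ hℓ
      obtain ⟨l, hl, rfl⟩ := mem_image.1 hℓ
      obtain ⟨a, ha, hla⟩ := mem_biUnion.1 hl
      have h1 : a ≤ T.sup id := le_sup (f := id) ha
      have h2 := (mem_Icc.1 hla).2
      show l + 1 ≤ T.sup id + 1
      omega)
  have hEm : MeasurableSet {y | HasFl (fun ℓ => TL κ.τ Φ ℓ y) Λ (ε / 100) J'} :=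
    hasFl_meas (fun ℓ => TL_meas κ.τm (fun i => (hIsP.bd i).1) ℓ) Λ _ J'
  have hD : (0 : ℝ) < 2 * 4 ^ d := by positivity
  have hsl := slice_bound (μ := μ) hEm hD (B := {x | HasFl (fun N => av (fun n => ∏ j, f j (V j ^ n • x)) N) S ε J})
    (fun x hx => by
      have h1 := sharp_det (φ := fun n => ∏ j, f j (V j ^ n • x)) (fun i => by
        rw [abs_prod]
        exact prod_le_one (fun j _ => abs_nonneg _) fun j _ => (hf j).2 _) hpar.2.1 hpar.2.2.1 hp hS hx
      refine h1.trans (mul_le_mul_of_nonneg_left (sum_le_sum fun v hv => ind_mono fun h2 => ?_) hD.le)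
      rw [mem_range] at hv
      show HasFl (fun ℓ => TL κ.τ Φ ℓ (x, (v : ZMod (2 ^ n)))) Λ (ε / 100) J'
      refine hasFl_shift (b := fun ℓ => TL κ.τ Φ ℓ (x, (v : ZMod (2 ^ n)))) (h2.congr fun l _ => ?_)
      show wav (fun n => ∏ j, f j (V j ^ n • x)) l (v % 2 ^ (l + 1)) =
        TL (fun y : X × ZMod (2 ^ n) => y.2) Φ (l + 1) (x, (v : ZMod (2 ^ n)))
      rw [TL, wav, ZMod.val_natCast_of_lt hv])
  refine hsl.trans ?_
  calc 2 * 4 ^ d * (μ.prod (unif n)).real {y | HasFl (fun ℓ => TL κ.τ Φ ℓ y) Λ (ε / 100) J'} ≤ 2 * 4 ^ d * δ' :=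
        mul_le_mul_of_nonneg_left hfl hD.le
    _ = δ' * (2 * 4 ^ d) := by ring
    _ ≤ δ := hδ

end Pool.FLN
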